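import Mathlib
import Pool.Agent.Lib.FracGS.Defs

/-!
# The integral zero-infinity law for all trees: definitions

`G` is one (infinite) graph, small means finitely colourable.
-/

set_option autoImplicit false

namespace Pool.Agent.Lib.ILT

open Pool.Agent.Lib.FracGS (pat)

/-- Small sets: finitely colourable. -/
def Sm {V : Type} (G : SimpleGraph V) (A : Set V) : Prop := ∃ n : ℕ, (G.induce A).Colorable n

/-- The set of neighbours of `v` in `S`. -/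
def nbs {V : Type} (G : SimpleGraph V) (S : Set V) (v : V) : Set V := {u | u ∈ S ∧ G.Adj v u}

/-- The law: the vertices outside `S` with at least one and at most `M` neighbours in `S` induce
a `C`-colourable graph, for all sets `S`. -/
def Law {V : Type} (G : SimpleGraph V) (M C : ℕ) : Prop :=
  ∀ S : Set V, (G.induce {v | v ∉ S ∧ 0 < (nbs G S v).ncard ∧ (nbs G S v).ncard ≤ M}).Colorable C

/-- A chain of worlds `W`, hub sets `S` and neighbour functions `nb`. -/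
structure Chn (V : Type) where
  W : ℕ → Set V
  S : ℕ → Set V
  nb : ℕ → ℕ → V → V

/-- The value of a word; a letter is a pair (level, index), the first letter is applied first. -/
def wv {V : Type} (D : Chn V) : List (ℕ × ℕ) → V → V
  | [], v => v
  | x :: w, v => wv D w (D.nb x.1 x.2 v)

/-- Words with decreasing levels below `n` and indices below `M`. -/
def Wd (M : ℕ) : ℕ → List (ℕ × ℕ) → Prop
  | _, [] => True
  | n, x :: w => x.1 < n ∧ x.2 < M ∧ Wd M x.1 w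

/-- The last level of `w` is `b`. -/
def Lst (w : List (ℕ × ℕ)) (b : ℕ) : Prop := w.getLast?.map Prod.fst = some b

/-- `Z'` is a function of `Z` on `A`. -/
def Fn {V : Type} (A : Set V) (Z Z' : V → V) : Prop := ∃ F : V → V, ∀ v ∈ A, Z' v = F (Z v)

/-- `Z'` is not a function of `Z` on any big subset of `A`. -/
def NFn {V : Type} (G : SimpleGraph V) (A : Set V) (Z Z' : V → V) : Prop :=
  ∀ F : V → V, Sm G {v | v ∈ A ∧ Z' v = F (Z v)}

/-- A good chain with `N` levels. -/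
structure Good {V : Type} (G : SimpleGraph V) (M N : ℕ) (D : Chn V) : Prop where
  big : ∀ n ≤ N, ¬ Sm G (D.W n)
  anti : ∀ n < N, D.W (n + 1) ⊆ D.W n
  sub : ∀ n < N, D.S n ⊆ D.W n
  dis : ∀ n < N, Disjoint (D.S n) (D.W (n + 1))
  mem : ∀ n < N, ∀ v ∈ D.W (n + 1), ∀ i < M, D.nb n i v ∈ D.S n
  inj : ∀ n < N, ∀ v ∈ D.W (n + 1), ∀ i < M, ∀ j < M, D.nb n i v = D.nb n j v → i = j
  adj : ∀ n < N, ∀ v ∈ D.W (n + 1), ∀ s ∈ D.S n, (G.Adj v s ↔ ∃ i < M, s = D.nb n i v)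
  hom : ∀ n ≤ N, ∀ w w', Wd M n w → Wd M n w' →
    (∀ v ∈ D.W n, wv D w v = wv D w' v) ∨ (∀ v ∈ D.W n, wv D w v ≠ wv D w' v)
  dep : ∀ n ≤ N, ∀ w w', Wd M n w → Wd M n w' →
    Fn (D.W n) (wv D w) (wv D w') ∨ NFn G (D.W n) (wv D w) (wv D w')
  mon : ∀ n ≤ N, ∀ b w w', Wd M n w → Wd M n w' → Lst w b → Lst w' b →
    (∀ (r : ℕ) (φ : V → Fin r), Sm G {v | v ∈ D.W n ∧ φ (wv D w v) ≠ φ (wv D w' v)}) ∨
    (∃ (r : ℕ) (φ : V → Fin r), (∀ v ∈ D.W n, φ (wv D w v) ≠ φ (wv D w' v)) ∧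
      (∀ u, Wd M n u → Lst u b → ∀ v ∈ D.W n, ∀ v' ∈ D.W n, φ (wv D u v) = φ (wv D u v')) ∧
      (∀ v ∈ D.W n, ∀ i < M, ∀ j < M, φ (D.nb b i v) = φ (D.nb b j v)))

/-- Relabelling of the levels of a word. -/
def rl (g : ℕ → ℕ) (w : List (ℕ × ℕ)) : List (ℕ × ℕ) := w.map fun x => (g x.1, x.2)

/-- Two words have the same value everywhere in the last world. -/
def EqW {V : Type} (D : Chn V) (N : ℕ) (w w' : List (ℕ × ℕ)) : Prop :=
  ∀ v ∈ D.W N, wv D w v = wv D w' v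

/-- Equalities and dependences of words using at most `K` levels depend on the order type of the
levels only. -/
def Hmg {V : Type} (M N K : ℕ) (D : Chn V) : Prop :=
  ∀ t ≤ K, ∀ w w', Wd M t w → Wd M t w' → ∀ g g' : ℕ → ℕ, StrictMono g → StrictMono g' →
    (∀ j < t, g j < N ∧ g' j < N) →
      (EqW D N (rl g w) (rl g w') ↔ EqW D N (rl g' w) (rl g' w')) ∧
      (Fn (D.W N) (wv D (rl g w)) (wv D (rl g w')) ↔
        Fn (D.W N) (wv D (rl g' w)) (wv D (rl g' w')))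

/-- A homogeneous good chain in a graph of bounded clique number. -/
structure Sys {V : Type} (G : SimpleGraph V) (M N K k : ℕ) (D : Chn V) : Prop where
  hM : 1 ≤ M
  hK : 3 ≤ K
  hN : 4 * K + k ≤ N
  good : Good G M N D
  hmg : Hmg M N K D
  cf : G.CliqueFree k

/-- `i → j`: the value of the word with levels `c > b` and indices `i, j` does not depend
on `c`. -/
def Arr {V : Type} (D : Chn V) (N i j : ℕ) : Prop :=
  EqW D N [(1, i), (0, j)] [(2, i), (0, j)]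

/-- Constant index sequences. -/
def Cst {V : Type} (M N : ℕ) (D : Chn V) : List ℕ → Prop
  | [] => True
  | [i] => i < M
  | i :: j :: η => i < M ∧ Arr D N i j ∧ Cst M N D (j :: η)

/-- The canonical word with indices `η` and last level `b`. -/
def cw (b : ℕ) : List ℕ → List (ℕ × ℕ)
  | [] => []
  | i :: η => (b + η.length, i) :: cw b η

/-- The label `η` at level `b`. -/
def lab {V : Type} (D : Chn V) (η : List ℕ) (b : ℕ) (v : V) : V := wv D (cw b η) v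

/-- The label `σ ^ m l`. -/
def XL {V : Type} (D : Chn V) (σ m l b : ℕ) (v : V) : V :=
  lab D (List.replicate m σ ++ [l]) b v

/-- The reduced system: `W` is the last world, `S b`, `b ≤ n0`, the levels used for the nodes of
the tree, `Z m l b` are the labels. -/
structure RS {V : Type} (G : SimpleGraph V) (M n0 κ σ : ℕ) (W : Set V) (S : ℕ → Set V)
    (Z : ℕ → ℕ → ℕ → V → V) : Prop where
  big : ¬ Sm G W
  hκ : n0 + 1 ≤ κ
  hσ : σ < M
  mem : ∀ m ≤ κ + 1, ∀ l < M, ∀ b ≤ n0, ∀ v ∈ W, Z m l b v ∈ S b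
  dis : ∀ b ≤ n0, ∀ b' ≤ n0, b ≠ b' → Disjoint (S b) (S b')
  nbr : ∀ j ≤ n0, ∀ i < j, ∀ v ∈ W, ∀ s ∈ S i,
    (G.Adj (Z κ σ j v) s ↔ ∃ l < M, s = Z (κ + 1) l i v)
  mono : ∀ b ≤ n0, ∀ A : Set V,
    Sm G {v | v ∈ W ∧ ¬ (Z κ σ b v ∈ A ↔ Z (κ + 1) σ b v ∈ A)}
  dic : ∀ s ≤ n0, ∀ m ≤ κ + 1, ∀ l < M, ∀ b ≤ n0,
    Fn W (Z (κ + 1) σ s) (Z m l b) ∨ NFn G W (Z (κ + 1) σ s) (Z m l b)
  up : ∀ s, ∀ b ≤ n0, s < b → ∀ e ≤ n0 + 1, ∀ l < M,
    ¬ Fn W (Z (κ + 1) σ s) (Z (κ + 1 - e) l b)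
  d1 : ∀ v ∈ W, ∀ e ≤ n0, ∀ b ≤ n0, ∀ l < M, Z (κ - e) l b v ≠ Z (κ + 1) σ b v
  dn : ∀ b ≤ n0, ∀ b' < b, ∀ e ≤ n0 + 1, ∀ l < M,
    Fn W (Z (κ + 1) σ b) (Z (κ + 1 - e) l b') →
      ∃ F : V → V, (∀ v ∈ W, Z (κ - e) l b' v = F (Z κ σ b v)) ∧
        (∀ v ∈ W, Z (κ + 1 - e) l b' v = F (Z (κ + 1) σ b v))

/-- Rich hubs. -/
def Rich {V : Type} (G : SimpleGraph V) (M n0 κ σ : ℕ) (W : Set V) (S : ℕ → Set V)
    (Z : ℕ → ℕ → ℕ → V → V) : ℕ → ℕ → Set V
  | 0, s => S s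
  | i + 1, s => {p | p ∈ S s ∧ ∀ c, s < c → c ≤ n0 → ∀ Y : Finset V, Y.card ≤ n0 →
      ∃ v ∈ W, Z (κ + 1) σ s v = p ∧ Z κ σ c v ∈ Rich G M n0 κ σ W S Z i c ∧
        ∀ m ≤ κ + 1, ∀ l < M, ∀ b ≤ n0, NFn G W (Z (κ + 1) σ s) (Z m l b) → Z m l b v ∉ Y}

/-- A hereditary class of finite graphs. -/
structure Her (P : (V : Type) → SimpleGraph V → Prop) : Prop where
  fin : ∀ V G, P V G → Finite V
  her : ∀ (V V' : Type) (G : SimpleGraph V) (G' : SimpleGraph V'), P V G →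
    Nonempty (G' ↪g G) → P V' G'

/-- The chromatic number is unbounded. -/
def Unb (P : (V : Type) → SimpleGraph V → Prop) : Prop :=
  ∀ n : ℕ, ∃ (V : Type) (G : SimpleGraph V), P V G ∧ ¬ G.Colorable n

/-- Parent functions in breadth first order. -/
def Par (par : ℕ → ℕ) : Prop := (∀ j, 1 ≤ j → par j < j) ∧ Monotone par

end Pool.Agent.Lib.ILT
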