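import Pool.Agent.Lib.ILT.Stmts

/-!
# The integral zero-infinity law for all trees: module `Cls`

One step for hereditary classes of finite graphs.
-/

set_option autoImplicit false

namespace Pool.Agent.Lib.ILT

open Pool.Agent.Lib.FracGS (pat)

namespace ClsAux

/-! ### Disjoint unions -/

/-- The disjoint union of a sequence of graphs. -/
def DU {V : ℕ → Type} (G : ∀ n, SimpleGraph (V n)) : SimpleGraph (Σ n, V n) where
  Adj a b := ∃ (n : ℕ) (x y : V n), a = ⟨n, x⟩ ∧ b = ⟨n, y⟩ ∧ (G n).Adj x y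
  symm := ⟨by
    rintro a b ⟨n, x, y, rfl, rfl, h⟩
    exact ⟨n, y, x, rfl, rfl, h.symm⟩⟩
  loopless := ⟨by
    rintro a ⟨n, x, y, h, h', hadj⟩
    rw [h] at h'
    have h2 : x = y := by simpa using h'
    exact (G n).ne_of_adj hadj h2⟩

variable {V : ℕ → Type} (G : ∀ n, SimpleGraph (V n))

lemma du_adj {n : ℕ} {x y : V n} : (DU G).Adj ⟨n, x⟩ ⟨n, y⟩ ↔ (G n).Adj x y := by
  constructor
  · rintro ⟨m, x', y', h1, h2, h⟩
    obtain rfl : n = m := (Sigma.mk.inj_iff.mp h1).1
    have hx : x = x' := by simpa using h1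
    have hy : y = y' := by simpa using h2
    rw [hx, hy]
    exact h
  · intro h
    exact ⟨n, x, y, rfl, rfl, h⟩

lemma du_fst {a b : Σ n, V n} (h : (DU G).Adj a b) : a.1 = b.1 := by
  obtain ⟨n, x, y, rfl, rfl, _⟩ := h
  rfl

/-- The embedding of a component. -/
def inc (n : ℕ) : G n ↪g DU G :=
  ⟨⟨Sigma.mk n, sigma_mk_injective⟩, fun {_ _} => du_adj G⟩

@[simp] lemma inc_apply (n : ℕ) (x : V n) : inc G n x = ⟨n, x⟩ := rfl

/-- Connected graphs are mapped to a component. -/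
lemma hom_comp {W : Type} (A : SimpleGraph W) (hA : A.Preconnected) [Nonempty W]
    (f : A →g DU G) : ∃ (n : ℕ) (g : W → V n), ∀ w, f w = ⟨n, g w⟩ := by
  obtain ⟨w0⟩ := (inferInstance : Nonempty W)
  have h1 : ∀ w, (f w).1 = (f w0).1 := by
    intro w
    have h2 : ∀ (u v : W), A.Walk u v → (f u).1 = (f v).1 := by
      intro u v p
      induction p with
      | nil => rfl
      | cons h p ih => exact (du_fst G (f.map_adj h)).trans ih
    obtain ⟨p⟩ := hA w w0
    exact h2 w w0 p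
  set n := (f w0).1 with hn
  have h3 : ∀ w, ∃ x : V n, f w = ⟨n, x⟩ := by
    intro w
    have := h1 w
    revert this
    generalize f w = a
    intro h
    obtain ⟨m, x⟩ := a
    obtain rfl : m = n := h
    exact ⟨x, rfl⟩
  choose g hg using h3
  exact ⟨n, g, hg⟩

/-- Connected graphs embed in a component. -/
lemma emb_comp {W : Type} (A : SimpleGraph W) (hA : A.Preconnected) [Nonempty W]
    (f : A ↪g DU G) : ∃ n, Nonempty (A ↪g G n) := by
  obtain ⟨n, g, hg⟩ := hom_comp G A hA f.toHom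
  have hg' : ∀ w, f w = ⟨n, g w⟩ := hg
  refine ⟨n, ⟨⟨⟨g, ?_⟩, ?_⟩⟩⟩
  · intro u v huv
    apply f.injective
    rw [hg' u, hg' v, huv]
  · intro u v
    have h4 := f.map_adj_iff (v := u) (w := v)
    rw [hg' u, hg' v, du_adj] at h4
    exact h4

lemma du_cliqueFree {k : ℕ} (h : ∀ n, (G n).CliqueFree k) : (DU G).CliqueFree k := by
  by_contra hc
  rw [SimpleGraph.not_cliqueFree_iff_top_isContained] at hc
  obtain ⟨f⟩ := hc
  cases k with
  | zero => exact absurd (h 0) SimpleGraph.not_cliqueFree_zero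
  | succ k =>
    obtain ⟨n, g, hg⟩ := hom_comp G _ (by
      intro u v
      by_cases huv : u = v
      · exact huv ▸ SimpleGraph.Reachable.refl u
      · exact SimpleGraph.Adj.reachable (by simpa using huv)) f.toHom
    refine (SimpleGraph.not_cliqueFree_iff_top_isContained (k + 1)).mpr ⟨⟨⟨g, ?_⟩, ?_⟩⟩ (h n)
    · intro u v huv
      have h1 := f.toHom.map_adj huv
      rw [hg u, hg v, du_adj] at h1
      exact h1
    · intro u v huv
      have huv' : g u = g v := huv
      have h2 : f.toHom u = f.toHom v := by rw [hg u, hg v, huv']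
      exact f.injective h2

lemma pat_preconnected {par : ℕ → ℕ} (hpar : ∀ j, 1 ≤ j → par j < j) (n0 : ℕ) :
    (pat par (n0 + 1)).Preconnected := by
  have h1 : ∀ (j : ℕ) (hj : j < n0 + 1), (pat par (n0 + 1)).Reachable ⟨j, hj⟩ ⟨0, by omega⟩ := by
    intro j
    induction j using Nat.strong_induction_on with
    | _ j ih =>
      intro hj
      by_cases h0 : j = 0
      · subst h0
        exact SimpleGraph.Reachable.refl _
      · have h2 := hpar j (by omega)
        have h3 : (pat par (n0 + 1)).Adj ⟨j, hj⟩ ⟨par j, by omega⟩ := Or.inr ⟨h2, rfl⟩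
        exact h3.reachable.trans (ih (par j) h2 (by omega))
  intro u v
  exact (h1 u.1 u.2).trans (h1 v.1 v.2).symm

lemma du_isEmpty {par : ℕ → ℕ} (hpar : ∀ j, 1 ≤ j → par j < j) (n0 : ℕ)
    (h : ∀ n, IsEmpty (pat par (n0 + 1) ↪g G n)) : IsEmpty (pat par (n0 + 1) ↪g DU G) := by
  refine ⟨fun f => ?_⟩
  obtain ⟨n, ⟨g⟩⟩ := emb_comp G _ (pat_preconnected hpar n0) f
  exact (h n).false g

/-- Colourings of sets in a disjoint union. -/
lemma du_col {A : Set (Σ n, V n)} {c : ℕ}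
    (h : ∀ n, ((G n).induce {x | (⟨n, x⟩ : Σ n, V n) ∈ A}).Colorable c) :
    ((DU G).induce A).Colorable c := by
  have C : ∀ n, ((G n).induce {x | (⟨n, x⟩ : Σ n, V n) ∈ A}).Coloring (Fin c) :=
    fun n => (h n).some
  refine ⟨SimpleGraph.Coloring.mk (fun a => C a.1.1 ⟨a.1.2, a.2⟩) ?_⟩
  rintro ⟨⟨m, x⟩, hx⟩ ⟨⟨m', y⟩, hy⟩ hadj
  have hadj' : (DU G).Adj ⟨m, x⟩ ⟨m', y⟩ := hadj
  obtain rfl : m = m' := du_fst G hadj'
  rw [du_adj] at hadj'
  exact (C m).valid (v := ⟨x, hx⟩) (w := ⟨y, hy⟩) hadj'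

end ClsAux

open ClsAux

namespace ClsAux

/-- Neighbours in `S` and embeddings. -/
lemma nbs_emb {W U : Type} {G : SimpleGraph W} {H : SimpleGraph U} (e : G ↪g H) (S : Set U)
    (x : W) (h : ∀ s ∈ S, H.Adj (e x) s → s ∈ Set.range e) :
    (nbs H S (e x)).ncard = (nbs G (e ⁻¹' S) x).ncard := by
  have h1 : nbs H S (e x) = e '' nbs G (e ⁻¹' S) x := by
    ext s
    constructor
    · rintro ⟨hs, hadj⟩
      obtain ⟨y, rfl⟩ := h s hs hadj
      exact ⟨y, ⟨hs, e.map_adj_iff.mp hadj⟩, rfl⟩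
    · rintro ⟨y, ⟨hy, hadj⟩, rfl⟩
      exact ⟨hy, e.map_adj_iff.mpr hadj⟩
  rw [h1]
  exact Set.ncard_image_of_injective _ e.injective

/-- Colourings and embeddings. -/
lemma col_emb {W U : Type} {G : SimpleGraph W} {H : SimpleGraph U} (e : G ↪g H) {A : Set W}
    {B : Set U} (h : ∀ x ∈ A, e x ∈ B) {c : ℕ} (hB : (H.induce B).Colorable c) :
    (G.induce A).Colorable c := by
  obtain ⟨C⟩ := hB
  refine ⟨SimpleGraph.Coloring.mk (fun a => C ⟨e a.1, h a.1 a.2⟩) ?_⟩
  intro u v huv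
  exact C.valid (v := ⟨e u.1, h u.1 u.2⟩) (w := ⟨e v.1, h v.1 v.2⟩) (e.map_adj_iff.mpr huv)

lemma law_mono {W : Type} {G : SimpleGraph W} {M c c' : ℕ} (h : c ≤ c') (hL : Law G M c) :
    Law G M c' := fun S => (hL S).mono h

lemma law_fin {W : Type} [Finite W] (G : SimpleGraph W) (M : ℕ) : Law G M (Nat.card W) := by
  classical
  have := Fintype.ofFinite W
  intro S
  have h1 : G.Colorable (Nat.card W) := by
    rw [Nat.card_eq_fintype_card]
    exact G.selfColoring.colorable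
  exact h1.of_hom (SimpleGraph.Embedding.induce _).toHom

/-- A worst set. -/
lemma law_worst {W : Type} [Finite W] (G : SimpleGraph W) (M : ℕ) : ∃ S : Set W, ∀ c,
    (G.induce {v | v ∉ S ∧ 0 < (nbs G S v).ncard ∧ (nbs G S v).ncard ≤ M}).Colorable c →
      Law G M c := by
  classical
  have hex : ∃ c, Law G M c := ⟨_, law_fin G M⟩
  set C := Nat.find hex with hC
  have hL : Law G M C := Nat.find_spec hex
  by_cases h0 : C = 0
  · exact ⟨∅, fun c _ => law_mono (by omega) hL⟩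
  · have h1 : ¬ Law G M (C - 1) := Nat.find_min hex (by omega)
    rw [Law] at h1
    push Not at h1
    obtain ⟨S, hS⟩ := h1
    refine ⟨S, fun c hc => ?_⟩
    by_cases h2 : c ≤ C - 1
    · exact absurd (hc.mono h2) hS
    · exact law_mono (by omega) hL

end ClsAux

theorem stCls (h : StCor) : StCls := by
  classical
  intro n0 par hpar k P hH hP M c hLaw hU
  by_contra hcon
  push Not at hcon
  -- the colouring function `g`
  have hg : ∀ C : ℕ, ∃ g : ℕ, ∀ (V : Type) (G : SimpleGraph V), P V G → Law G (M + 1) C →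
      G.Colorable g := by
    intro C
    have h1 := hcon C
    unfold Unb at h1
    push Not at h1
    obtain ⟨g, hg⟩ := h1
    exact ⟨g, fun V G hPG hL => hg V G ⟨hPG, hL⟩⟩
  choose g hg using hg
  choose V G hPG hcol using hU
  have hfin : ∀ n, Finite (V n) := fun n => hH.fin _ _ (hPG n)
  -- the last hypothesis of `StCor`
  have hlow : ∀ S : Set (Σ n, V n),
      Sm (DU G) {v | v ∉ S ∧ 0 < (nbs (DU G) S v).ncard ∧ (nbs (DU G) S v).ncard < M + 1} := by
    intro S
    refine ⟨c, du_col G fun n => ?_⟩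
    have h1 := hLaw (V n) (G n) (hPG n) (inc G n ⁻¹' S)
    have h2 : {x | (⟨n, x⟩ : Σ n, V n) ∈ {v | v ∉ S ∧ 0 < (nbs (DU G) S v).ncard ∧
        (nbs (DU G) S v).ncard < M + 1}} = {v | v ∉ inc G n ⁻¹' S ∧
        0 < (nbs (G n) (inc G n ⁻¹' S) v).ncard ∧ (nbs (G n) (inc G n ⁻¹' S) v).ncard ≤ M} := by
      ext x
      have h3 := nbs_emb (inc G n) S x (by
        rintro ⟨m, s⟩ _ hadj
        obtain rfl : n = m := du_fst G hadj
        exact ⟨s, rfl⟩)
      simp only [Set.mem_ofPred_eq, Set.mem_preimage, inc_apply] at h3 ⊢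
      rw [h3, Nat.lt_succ_iff]
    rw [h2]
    exact h1
  have hSm : Sm (DU G) Set.univ := by
    refine h n0 par hpar k (M + 1) (by omega) _ (DU G)
      (du_cliqueFree G fun n => (hP _ _ (hPG n)).1)
      (du_isEmpty G hpar.1 n0 fun n => (hP _ _ (hPG n)).2) ?_ hlow
    intro A hA
    -- the worst sets
    set An : ∀ n, Set (V n) := fun n => {x | (⟨n, x⟩ : Σ n, V n) ∈ A} with hAn
    have hPA : ∀ n, P (An n) ((G n).induce (An n)) := fun n =>
      hH.her _ _ _ _ (hPG n) ⟨SimpleGraph.Embedding.induce _⟩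
    choose S hS using fun n => law_worst ((G n).induce (An n)) (M + 1)
    -- the embeddings
    set e : ∀ n, (G n).induce (An n) ↪g DU G := fun n =>
      (inc G n).comp (SimpleGraph.Embedding.induce (An n)) with he
    set T : Set (Σ n, V n) := {a | ∃ (n : ℕ) (x : An n), x ∈ S n ∧ a = e n x} with hT
    have hpre : ∀ n, e n ⁻¹' T = S n := by
      intro n
      ext x
      constructor
      · rintro ⟨m, y, hy, hxy⟩
        have h1 : (⟨n, x.1⟩ : Σ n, V n) = ⟨m, y.1⟩ := hxy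
        obtain rfl : n = m := (Sigma.mk.inj_iff.mp h1).1
        have h2 : x.1 = y.1 := by simpa using h1
        rw [Subtype.ext h2]
        exact hy
      · intro hx
        exact ⟨n, x, hx, rfl⟩
    have hTA : T ⊆ A := by
      rintro _ ⟨n, x, _, rfl⟩
      exact x.2
    refine ⟨T, hTA, fun hsm => hA ?_⟩
    obtain ⟨c', hc'⟩ := hsm.union (hlow T)
    refine ⟨g c', du_col G fun n => ?_⟩
    refine hg c' _ _ (hPA n) (hS n c' ?_)
    refine col_emb (e n) ?_ hc'
    intro x hx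
    have h3 := nbs_emb (e n) T x (by
      rintro ⟨m, s⟩ hs hadj
      obtain rfl : n = m := du_fst G hadj
      exact ⟨⟨s, hTA hs⟩, rfl⟩)
    rw [hpre n] at h3
    obtain ⟨hx1, hx2, hx3⟩ := hx
    have hx4 : e n x ∉ T := fun hx5 => hx1 ((hpre n) ▸ hx5 : x ∈ S n)
    rw [← h3] at hx2 hx3
    rcases Nat.lt_or_ge (nbs (DU G) T (e n x)).ncard (M + 1) with h4 | h4
    · exact Or.inr ⟨hx4, hx2, h4⟩
    · exact Or.inl ⟨x.2, hx4, le_antisymm hx3 h4⟩
  obtain ⟨m, hm⟩ := hSm
  refine hcol m ?_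
  have h1 := col_emb (inc G m) (A := Set.univ) (B := Set.univ) (fun _ _ => trivial) hm
  exact h1.of_hom (SimpleGraph.induceUnivIso (G m)).symm.toHom

end Pool.Agent.Lib.ILT
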