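import Pool.Agent.Lib.ILT.Base
import Pool.Agent.Lib.FGF.Stmts2

/-!
# The integral zero-infinity law for all trees: statements of the modules
-/

set_option autoImplicit false

namespace Pool.Agent.Lib.ILT

open Pool.Agent.Lib.FracGS (pat)

/-- Module `F3`: functional digraphs have 3-colourings. -/
def StF3 : Prop :=
  ∀ (V : Type) (F : V → V), ∃ φ : V → Fin 3, ∀ p, F p ≠ p → φ p ≠ φ (F p)

/-- Module `Gd`: good chains of all lengths. -/
def StGd : Prop :=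
  ∀ (V : Type) (G : SimpleGraph V) (M N : ℕ), 1 ≤ M → ¬ Sm G Set.univ →
    (∀ A, ¬ Sm G A → ∃ S, S ⊆ A ∧ ¬ Sm G {v | v ∈ A ∧ v ∉ S ∧ (nbs G S v).ncard = M}) →
    (∀ S, Sm G {v | v ∉ S ∧ 0 < (nbs G S v).ncard ∧ (nbs G S v).ncard < M}) →
      ∃ D : Chn V, Good G M N D

/-- Module `Ho`: homogeneous good chains. -/
def StHo : Prop :=
  ∀ M N K : ℕ, ∃ N' : ℕ, ∀ (V : Type) (G : SimpleGraph V) (D : Chn V), Good G M N' D →
    ∃ D' : Chn V, Good G M N D' ∧ Hmg M N K D'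

/-- Module `Stp`: every index sequence has an arrow. -/
def StStp : Prop :=
  ∀ (V : Type) (G : SimpleGraph V) (M N K k : ℕ) (D : Chn V), Sys G M N K k D →
    ∀ (n0 : ℕ) (par : ℕ → ℕ), Par par → n0 + 1 ≤ K → IsEmpty (pat par (n0 + 1) ↪g G) →
      ∀ idx : ℕ → ℕ, (∀ t, idx t < M) → ∃ t, Arr D N (idx t) (idx (t + 1))

/-- Module `Snk`: a sink. -/
def StSnk : Prop :=
  ∀ (M : ℕ) (R : ℕ → ℕ → Prop), 1 ≤ M →
    (∀ idx : ℕ → ℕ, (∀ t, idx t < M) → ∃ t, R (idx t) (idx (t + 1))) →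
      (∀ i < M, R i i) ∧ ∃ σ < M, ∀ j < M, R σ j

/-- Module `Lab`: words with constant index sequences. -/
def StLab : Prop :=
  ∀ (V : Type) (G : SimpleGraph V) (M N K k : ℕ) (D : Chn V), Sys G M N K k D →
    ∀ n ≤ N, ∀ b w, Wd M n w → Lst w b → Cst M N D (w.map Prod.snd) → ∀ v ∈ D.W n,
      wv D w v = lab D (w.map Prod.snd) b v

/-- Module `Shf`: composition of labels (may assume `StLab`). -/
def StShf : Prop :=
  ∀ (V : Type) (G : SimpleGraph V) (M N K k : ℕ) (D : Chn V), Sys G M N K k D →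
    ∀ η η' : List ℕ, η ≠ [] → η' ≠ [] → Cst M N D (η' ++ η) → ∀ b b' n,
      b + η.length ≤ b' → b' + η'.length ≤ n → n ≤ N → ∀ v ∈ D.W n,
        lab D η' b' v ∈ D.S b' ∧ lab D η b (lab D η' b' v) = lab D (η' ++ η) b v

/-- Module `Mon`: colourings agree on all labels (may assume `StShf`). -/
def StMon : Prop :=
  ∀ (V : Type) (G : SimpleGraph V) (M N K k : ℕ) (D : Chn V), Sys G M N K k D →
    ∀ η η' : List ℕ, η ≠ [] → η' ≠ [] → Cst M N D η → Cst M N D η' → ∀ b n,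
      b + η.length ≤ n → b + η'.length ≤ n → n ≤ N → b + η.length < N → b + η'.length < N →
        ∀ (r : ℕ) (φ : V → Fin r), Sm G {v | v ∈ D.W n ∧ φ (lab D η b v) ≠ φ (lab D η' b v)}

/-- Module `Sam`: no dependence between different labels of the same level (may assume `StF3`,
`StMon`). -/
def StSam : Prop :=
  ∀ (V : Type) (G : SimpleGraph V) (M N K k : ℕ) (D : Chn V), Sys G M N K k D →
    ∀ η η' : List ℕ, η ≠ [] → η' ≠ [] → Cst M N D η → Cst M N D η' → ∀ b n,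
      b + η.length ≤ n → b + η'.length ≤ n → n ≤ N → b + η.length < N → b + η'.length < N →
        ∀ F : V → V, ¬ Sm G {v | v ∈ D.W n ∧ lab D η' b v = F (lab D η b v)} →
          ∀ v ∈ D.W n, lab D η' b v = lab D η b v

/-- Module `Per`: no periods (may assume `StShf`, `StMon`). -/
def StPer : Prop :=
  ∀ (V : Type) (G : SimpleGraph V) (M N K k : ℕ) (D : Chn V), Sys G M N K k D →
    ∀ i < M, Arr D N i i → ∀ m d, 1 ≤ m → 1 ≤ d → m + d ≤ K → ∀ b n, b + (m + d) ≤ n →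
      n ≤ N → ∀ v ∈ D.W n,
        lab D (List.replicate m i) b v ≠ lab D (List.replicate (m + d) i) b v

/-- Module `Sk2`: the choice of the sink (may assume `StShf`, `StPer`). -/
def StSk2 : Prop :=
  ∀ (V : Type) (G : SimpleGraph V) (M N K k : ℕ) (D : Chn V), Sys G M N K k D →
    (∀ i < M, Arr D N i i) → (∃ σ < M, ∀ j < M, Arr D N σ j) → ∀ q : ℕ,
      (q + 2) ^ (M + 1) ≤ K → ∃ σ < M, (∀ j < M, Arr D N σ j) ∧
        ∀ l < M, ∀ d, 1 ≤ d → d ≤ q → ∀ b n, b + (d + 1) ≤ n → n ≤ N → ∀ v ∈ D.W n,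
          D.nb b l v ≠ lab D (List.replicate (d + 1) σ) b v

/-- Module `HD`: dependence of labels is homogeneous (may assume `StLab`). -/
def StHD : Prop :=
  ∀ (V : Type) (G : SimpleGraph V) (M N K k : ℕ) (D : Chn V), Sys G M N K k D →
    ∀ η η' : List ℕ, η ≠ [] → η' ≠ [] → Cst M N D η → Cst M N D η' →
      η.length + η'.length ≤ K → ∀ b b' c c', b < b' → c < c' →
        b' + (η.length + η'.length) ≤ N → c' + (η.length + η'.length) ≤ N →
          (Fn (D.W N) (lab D η b) (lab D η' b') ↔ Fn (D.W N) (lab D η c) (lab D η' c')) ∧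
          (Fn (D.W N) (lab D η b') (lab D η' b) ↔ Fn (D.W N) (lab D η c') (lab D η' c))

/-- Module `Up`: no upward dependence (may assume `StShf`, `StSam`, `StPer`, `StHD`). -/
def StUp : Prop :=
  ∀ (V : Type) (G : SimpleGraph V) (M N K k : ℕ) (D : Chn V), Sys G M N K k D →
    (∀ i < M, Arr D N i i) → ∀ σ < M, (∀ j < M, Arr D N σ j) → ∀ l < M, ∀ j e,
      2 * (j + e) + 8 ≤ K → ∀ b b', b < b' → b' + (2 * (j + e) + 8) ≤ N →
        ¬ Fn (D.W N) (XL D σ (j + e) σ b) (XL D σ j l b')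

/-- Module `Dn`: the choice of the exponent (may assume `StShf`, `StHD`). -/
def StDn : Prop :=
  ∀ (V : Type) (G : SimpleGraph V) (M N K k : ℕ) (D : Chn V), Sys G M N K k D →
    (∀ i < M, Arr D N i i) → ∀ σ < M, (∀ j < M, Arr D N σ j) → ∀ h : ℕ,
      4 * ((h + 2) * (M + 2)) + 16 ≤ K → ∃ κ, h + 1 ≤ κ ∧ κ ≤ h + 1 + (h + 2) * M ∧
        ∀ b b', b' < b → b + (2 * κ + 8) ≤ N → ∀ e ≤ h + 1, ∀ l < M,
          Fn (D.W N) (XL D σ (κ + 1) σ b) (XL D σ (κ + 1 - e) l b') →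
            ∃ F : V → V, (∀ v ∈ D.W N, XL D σ (κ - e) l b' v = F (XL D σ κ σ b v)) ∧
              (∀ v ∈ D.W N, XL D σ (κ + 1 - e) l b' v = F (XL D σ (κ + 1) σ b v))

/-- Module `Red`: the reduced system (may assume everything above). -/
def StRed : Prop :=
  ∀ (n0 : ℕ) (par : ℕ → ℕ), Par par →
    ∀ (V : Type) (G : SimpleGraph V) (M N K k : ℕ) (D : Chn V), Sys G M N K k D →
      4 * ((n0 + 2) * (M + 2)) + 16 + (n0 + 3) ^ (M + 1) ≤ K →
        IsEmpty (pat par (n0 + 1) ↪g G) →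
          ∃ κ σ, RS G M n0 κ σ (D.W N) D.S (XL D σ)

/-- Module `Rch`: most hubs are rich. -/
def StRch : Prop :=
  ∀ (V : Type) (G : SimpleGraph V) (M n0 κ σ : ℕ) (W : Set V) (S : ℕ → Set V)
    (Z : ℕ → ℕ → ℕ → V → V), RS G M n0 κ σ W S Z → ∀ i, ∀ s ≤ n0,
      Sm G {v | v ∈ W ∧ Z κ σ s v ∉ Rich G M n0 κ σ W S Z i s} ∧
      Sm G {v | v ∈ W ∧ Z (κ + 1) σ s v ∉ Rich G M n0 κ σ W S Z i s}

/-- Module `Emb`: a reduced system contains all trees (may assume `StRch`). -/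
def StEmb : Prop :=
  ∀ (par : ℕ → ℕ), (∀ j, 1 ≤ j → par j < j) →
    ∀ (V : Type) (G : SimpleGraph V) (M n0 κ σ : ℕ) (W : Set V) (S : ℕ → Set V)
      (Z : ℕ → ℕ → ℕ → V → V), RS G M n0 κ σ W S Z → Nonempty (pat par (n0 + 1) ↪g G)

/-- Module `Cor`: the core theorem (may assume everything above). -/
def StCor : Prop :=
  ∀ (n0 : ℕ) (par : ℕ → ℕ), Par par → ∀ (k M : ℕ), 1 ≤ M →
    ∀ (V : Type) (G : SimpleGraph V), G.CliqueFree k → IsEmpty (pat par (n0 + 1) ↪g G) →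
      (∀ A, ¬ Sm G A → ∃ S, S ⊆ A ∧ ¬ Sm G {v | v ∈ A ∧ v ∉ S ∧ (nbs G S v).ncard = M}) →
      (∀ S, Sm G {v | v ∉ S ∧ 0 < (nbs G S v).ncard ∧ (nbs G S v).ncard < M}) →
        Sm G Set.univ

/-- Module `Cls`: one step for hereditary classes of finite graphs (may assume `StCor`). -/
def StCls : Prop :=
  ∀ (n0 : ℕ) (par : ℕ → ℕ), Par par → ∀ (k : ℕ) (P : (V : Type) → SimpleGraph V → Prop),
    Her P → (∀ V G, P V G → G.CliqueFree k ∧ IsEmpty (pat par (n0 + 1) ↪g G)) →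
      ∀ M c : ℕ, (∀ V G, P V G → Law G M c) → Unb P →
        ∃ C : ℕ, Unb fun V G => P V G ∧ Law G (M + 1) C

/-- Module `Seq`: the law for all `M` simultaneously (may assume `StCls`). -/
def StSeq : Prop :=
  ∀ (n0 : ℕ) (par : ℕ → ℕ), Par par → ∀ (k : ℕ) (P : (V : Type) → SimpleGraph V → Prop),
    Her P → (∀ V G, P V G → G.CliqueFree k ∧ IsEmpty (pat par (n0 + 1) ↪g G)) → Unb P →
      ∃ C : ℕ → ℕ, ∀ n, ∃ (V : Type) (G : SimpleGraph V), P V G ∧ ¬ G.Colorable n ∧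
        ∀ M, Law G M (C M)

/-- Module `For`: forests in the infinite regular trees. -/
def StFor : Prop :=
  ∀ (U : Type) [Fintype U] (F : SimpleGraph U), F.IsAcyclic →
    ∃ q n0 : ℕ, 1 ≤ q ∧ Nonempty (F ↪g pat (fun j => (j - 1) / q) (n0 + 1))

/-- Module `All`: the zero-infinity law for hereditary classes without an induced forest. -/
def StAll : Prop :=
  ∀ (U : Type) [Fintype U] (F : SimpleGraph U), F.IsAcyclic →
    ∀ (k : ℕ) (P : (V : Type) → SimpleGraph V → Prop), Her P →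
      (∀ V G, P V G → G.CliqueFree k ∧ IsEmpty (F ↪g G)) → Unb P →
        ∃ C : ℕ → ℕ, ∀ n, ∃ (V : Type) (G : SimpleGraph V), P V G ∧ ¬ G.Colorable n ∧
          ∀ M, Law G M (C M)

end Pool.Agent.Lib.ILT
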