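import Mathlib
import Pool.Agent.Lib.ILT.Stmts

/-!
# The choice of the exponent
-/

set_option autoImplicit false

namespace Pool.Agent.Lib.ILT

namespace Dnaux

/-- A chain of finite sets with at most `n` elements stops growing before step `n + 1`. -/
theorem pigeon (n : ℕ) (A : ℕ → Finset (ℕ × ℕ)) (hA : ∀ i ≤ n, A i ⊆ A (i + 1))
    (hc : ∀ i, (A i).card ≤ n) : ∃ i ≤ n, A i = A (i + 1) := by
  by_contra hcon
  push Not at hcon
  have key : ∀ i, i ≤ n + 1 → i ≤ (A i).card := by
    intro i
    induction i with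
    | zero => intro _; exact Nat.zero_le _
    | succ i ih =>
      intro hi
      have h1 : i ≤ n := by omega
      have h2 : A i ⊂ A (i + 1) := (hA i h1).ssubset_of_ne (hcon i h1)
      have h3 := Finset.card_lt_card h2
      have h4 := ih (by omega)
      omega
  have h1 := key (n + 1) le_rfl
  have h2 := hc (n + 1)
  omega

end Dnaux

theorem stDn (hS : StShf) (hD : StHD) : StDn := by
  classical
  intro V G M N K k D hsys hdiag σ hσ hsink h hK
  have hN := hsys.hN
  have hG := hsys.good
  have hC : ∀ m l, l < M → Cst M N D (List.replicate m σ ++ [l]) := by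
    intro m l hl
    refine Cst.replicate_append hσ (hdiag σ hσ) m (η := [l]) hl ?_
    intro j hj
    have h1 : l = j := by simpa using hj
    rw [← h1]
    exact hsink l hl
  have hne : ∀ m l, List.replicate m σ ++ [l] ≠ [] := by
    intro m l
    simp
  have hlen : ∀ m l, (List.replicate m σ ++ [l]).length = m + 1 := by
    intro m l
    simp
  -- the shift
  have shift : ∀ m e l b b', e ≤ m → l < M → b + (m + 2) < N → b' + (m + 2) < N →
      Fn (D.W N) (XL D σ m σ b) (XL D σ (m - e) l b') →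
      ∃ F : V → V, (∀ v ∈ D.W N, XL D σ (m - e) l b' v = F (XL D σ m σ b v)) ∧
        (∀ v ∈ D.W N, XL D σ (m + 1 - e) l b' v = F (XL D σ (m + 1) σ b v)) := by
    intro m e l b b' he hl hb hb' hfn
    have w1 : Wd M (N - 1) (cw b (List.replicate m σ ++ [σ])) := by
      refine wd_cw (hC m σ hσ).lt ?_
      rw [hlen]
      omega
    have w2 : Wd M (N - 1) (cw b' (List.replicate (m - e) σ ++ [l])) := by
      refine wd_cw (hC (m - e) l hl).lt ?_
      rw [hlen]
      omega
    obtain ⟨F, hF⟩ := hG.fn_of (n := N - 1) (by omega) w1 w2 hfn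
    refine ⟨F, fun v hv => hF v (hG.le (by omega) le_rfl hv), fun v hv => ?_⟩
    have hv1 : v ∈ D.W (N - 1 + 1) := by
      rw [Nat.sub_add_cancel (by omega)]
      exact hv
    have hu : D.nb (N - 1) σ v ∈ D.W (N - 1) :=
      hG.sub (N - 1) (by omega) (hG.mem (N - 1) (by omega) v hv1 σ hσ)
    have e1 := hF _ hu
    have s1 := (hS V G M N K k D hsys (List.replicate m σ ++ [σ]) [σ] (hne m σ) (by simp)
      (hC (m + 1) σ hσ) b (N - 1) N (by rw [hlen]; omega)
      (by rw [List.length_singleton]; omega) le_rfl v hv).2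
    have s2 := (hS V G M N K k D hsys (List.replicate (m - e) σ ++ [l]) [σ] (hne (m - e) l)
      (by simp) (hC (m - e + 1) l hl) b' (N - 1) N (by rw [hlen]; omega)
      (by rw [List.length_singleton]; omega) le_rfl v hv).2
    have e2 : m + 1 - e = m - e + 1 := by omega
    rw [e2]
    have t1 : XL D σ (m + 1) σ b v =
        wv D (cw b (List.replicate m σ ++ [σ])) (D.nb (N - 1) σ v) := s1.symm
    have t2 : XL D σ (m - e + 1) l b' v =
        wv D (cw b' (List.replicate (m - e) σ ++ [l])) (D.nb (N - 1) σ v) := s2.symm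
    rw [t1, t2]
    exact e1
  -- the sets of dependences
  set A : ℕ → Finset (ℕ × ℕ) := fun i =>
    (Finset.range (h + 2) ×ˢ Finset.range M).filter fun p =>
      Fn (D.W N) (XL D σ (h + 1 + i) σ 1) (XL D σ (h + 1 + i - p.1) p.2 0) with hAdef
  have hbd : (h + 2) * M ≤ (h + 2) * (M + 2) := Nat.mul_le_mul_left _ (by omega)
  have hbd2 : (h + 2) * (M + 2) = (h + 2) * M + 2 * (h + 2) := by ring
  obtain ⟨i, hi, hAi⟩ := Dnaux.pigeon ((h + 2) * M) A (by
    intro i hi p hp
    rw [hAdef, Finset.mem_filter, Finset.mem_product, Finset.mem_range, Finset.mem_range] at hp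
    obtain ⟨⟨hp1, hp2⟩, hp3⟩ := hp
    rw [hAdef, Finset.mem_filter, Finset.mem_product, Finset.mem_range, Finset.mem_range]
    refine ⟨⟨hp1, hp2⟩, ?_⟩
    obtain ⟨F, -, hF⟩ := shift (h + 1 + i) p.1 p.2 1 0 (by omega) hp2 (by omega) (by omega) hp3
    exact ⟨F, hF⟩) (by
    intro i
    refine le_trans (Finset.card_filter_le _ _) ?_
    rw [Finset.card_product, Finset.card_range, Finset.card_range])
  refine ⟨h + 1 + i, by omega, by omega, ?_⟩
  intro b b' hb hbN e he l hl hfn
  have hl1 := hlen (h + 1 + i + 1) σ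
  have hl2 := hlen (h + 1 + i + 1 - e) l
  have hl3 := hlen (h + 1 + i) σ
  have hl4 := hlen (h + 1 + i - e) l
  -- to the levels `1`, `0`
  have h1 := (hD V G M N K k D hsys (List.replicate (h + 1 + i + 1) σ ++ [σ])
    (List.replicate (h + 1 + i + 1 - e) σ ++ [l]) (hne _ _) (hne _ _) (hC _ σ hσ) (hC _ l hl)
    (by rw [hl1, hl2]; omega) b' b 0 1 hb (by omega) (by rw [hl1, hl2]; omega)
    (by rw [hl1, hl2]; omega)).2.mp hfn
  have h2 : (e, l) ∈ A (i + 1) := by
    rw [hAdef, Finset.mem_filter, Finset.mem_product, Finset.mem_range, Finset.mem_range]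
    exact ⟨⟨by omega, hl⟩, h1⟩
  rw [← hAi, hAdef, Finset.mem_filter] at h2
  have h3 := (hD V G M N K k D hsys (List.replicate (h + 1 + i) σ ++ [σ])
    (List.replicate (h + 1 + i - e) σ ++ [l]) (hne _ _) (hne _ _) (hC _ σ hσ) (hC _ l hl)
    (by rw [hl3, hl4]; omega) b' b 0 1 hb (by omega) (by rw [hl3, hl4]; omega)
    (by rw [hl3, hl4]; omega)).2.mpr h2.2
  exact shift (h + 1 + i) e l b b' (by omega) hl (by omega) (by omega) h3

end Pool.Agent.Lib.ILT
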