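import Pool.Agent.Lib.ILT.Stmts

/-!
# Functional digraphs have 3-colourings
-/

set_option autoImplicit false

namespace Pool.Agent.Lib.ILT

namespace F3Aux

open Function

variable {V : Type} (F : V → V)

/-- The same component. -/
def St : Setoid V where
  r p q := ∃ m n : ℕ, F^[m] p = F^[n] q
  iseqv := by
    refine ⟨fun p => ⟨0, 0, rfl⟩, ?_, ?_⟩
    · rintro p q ⟨m, n, h⟩
      exact ⟨n, m, h.symm⟩
    · rintro p q r ⟨m, n, h⟩ ⟨m', n', h'⟩
      refine ⟨m' + m, n + n', ?_⟩
      rw [iterate_add_apply, h, iterate_add_apply F n n', ← h', ← iterate_add_apply,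
        ← iterate_add_apply, add_comm]

/-- Periodic points. -/
def Pe (c : V) : Prop := ∃ n : ℕ, 0 < n ∧ F^[n] c = c

open Classical in
/-- The representative of a component, periodic if possible. -/
noncomputable def rep (Q : Quotient (St F)) : V :=
  if h : ∃ c, Quotient.mk (St F) c = Q ∧ Pe F c then h.choose else Q.out

lemma mk_rep (Q : Quotient (St F)) : Quotient.mk (St F) (rep F Q) = Q := by
  unfold rep
  split_ifs with h
  · exact h.choose_spec.1
  · exact Q.out_eq

lemma pe_rep {c : V} (hc : Pe F c) : Pe F (rep F (Quotient.mk (St F) c)) := by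
  unfold rep
  have h : ∃ c', Quotient.mk (St F) c' = Quotient.mk (St F) c ∧ Pe F c' := ⟨c, rfl, hc⟩
  rw [dif_pos h]
  exact h.choose_spec.2

/-- The representative of the component of `p`. -/
noncomputable def rp (p : V) : V := rep F (Quotient.mk (St F) p)

lemma rp_F (p : V) : rp F (F p) = rp F p := by
  have h : Quotient.mk (St F) (F p) = Quotient.mk (St F) p := Quotient.sound ⟨0, 1, rfl⟩
  unfold rp
  rw [h]

lemma rel (p : V) : ∃ x : ℕ × ℕ, F^[x.1] p = F^[x.2] (rp F p) := by
  obtain ⟨m, n, h⟩ := Quotient.exact (mk_rep F (Quotient.mk (St F) p)).symm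
  exact ⟨(m, n), h⟩

lemma reach {p : V} (h : Pe F (rp F p)) : ∃ k : ℕ, F^[k] p = rp F p := by
  obtain ⟨⟨m, n⟩, hx⟩ := rel F p
  obtain ⟨t, ht, hp⟩ := h
  have hx : F^[m] p = F^[n] (rp F p) := hx
  refine ⟨(n * t - n) + m, ?_⟩
  rw [iterate_add_apply, hx, ← iterate_add_apply, Nat.sub_add_cancel (Nat.le_mul_of_pos_right n ht),
    mul_comm, iterate_mul]
  exact iterate_fixed hp n

/-- The distance to the representative. -/
noncomputable def ks (p : V) : ℕ := sInf {k | F^[k] p = rp F p}

/-- The exponents. -/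
noncomputable def ex (p : V) : ℕ × ℕ := (rel F p).choose

lemma ex_spec (p : V) : F^[(ex F p).1] p = F^[(ex F p).2] (rp F p) := (rel F p).choose_spec

lemma ks_spec {p : V} (h : Pe F (rp F p)) : F^[ks F p] p = rp F p := Nat.sInf_mem (reach F h)

lemma ks_F {p : V} (h : Pe F (rp F p)) (hne : p ≠ rp F p) : ks F p = ks F (F p) + 1 := by
  have h' : Pe F (rp F (F p)) := by rwa [rp_F]
  apply le_antisymm
  · apply Nat.sInf_le
    have h1 := ks_spec F h'
    rw [rp_F] at h1
    exact h1
  · have h1 := ks_spec F h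
    have h0 : ks F p ≠ 0 := by
      intro h0
      rw [h0] at h1
      exact hne h1
    obtain ⟨j, hj⟩ := Nat.exists_eq_succ_of_ne_zero h0
    rw [hj]
    apply Nat.succ_le_succ
    apply Nat.sInf_le
    rw [hj] at h1
    change F^[j] (F p) = rp F (F p)
    rw [rp_F]
    exact h1

lemma inj_of_not {c : V} (h : ∀ n, ¬ Pe F (F^[n] c)) {a b : ℕ} (hab : F^[a] c = F^[b] c) :
    a = b := by
  rcases lt_trichotomy a b with hlt | heq | hlt
  · exfalso
    refine h a ⟨b - a, by omega, ?_⟩
    rw [← iterate_add_apply, Nat.sub_add_cancel hlt.le, hab]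
  · exact heq
  · exfalso
    refine h b ⟨a - b, by omega, ?_⟩
    rw [← iterate_add_apply, Nat.sub_add_cancel hlt.le, hab]

lemma ex_F {p : V} (h : ¬ Pe F (rp F p)) :
    (ex F (F p)).1 + 1 + (ex F p).2 = (ex F p).1 + (ex F (F p)).2 := by
  have h1 := ex_spec F p
  have h2 := ex_spec F (F p)
  rw [rp_F] at h2
  set c := rp F p with hc
  have hn : ∀ n, ¬ Pe F (F^[n] c) := by
    intro n hp
    apply h
    have h3 := pe_rep F hp
    have h4 : Quotient.mk (St F) (F^[n] c) = Quotient.mk (St F) p := by
      have h5 : Quotient.mk (St F) (F^[n] c) = Quotient.mk (St F) c := Quotient.sound ⟨0, n, rfl⟩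
      rw [h5, hc]
      exact mk_rep F _
    rw [h4] at h3
    exact h3
  set m := (ex F p).1
  set n := (ex F p).2
  set m' := (ex F (F p)).1
  set n' := (ex F (F p)).2
  have h2' : F^[m' + 1] p = F^[n'] c := h2
  apply inj_of_not F hn
  rw [iterate_add_apply, ← h1, iterate_add_apply F m n', ← h2', ← iterate_add_apply,
    ← iterate_add_apply, add_comm]

open Classical in
/-- The colouring. -/
noncomputable def phi (p : V) : Fin 3 :=
  if Pe F (rp F p) then
    if p = rp F p then 2 else if ks F p % 2 = 0 then 0 else 1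
  else if ((ex F p).1 + (ex F p).2) % 2 = 0 then 0 else 1

end F3Aux

open F3Aux in
/-- Module `F3`. -/
theorem stF3 : StF3 := by
  intro V F
  refine ⟨phi F, fun p hp => ?_⟩
  unfold phi
  rw [rp_F]
  by_cases h : Pe F (rp F p)
  · rw [if_pos h, if_pos h]
    by_cases h1 : p = rp F p
    · have h2 : F p ≠ rp F p := fun h2 => hp (h2.trans h1.symm)
      rw [if_pos h1, if_neg h2]
      split_ifs <;> decide
    · rw [if_neg h1]
      by_cases h2 : F p = rp F p
      · rw [if_pos h2]
        split_ifs <;> decide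
      · rw [if_neg h2]
        have h3 := ks_F F h h1
        by_cases h4 : ks F p % 2 = 0
        · have h5 : ¬ ks F (F p) % 2 = 0 := by omega
          rw [if_pos h4, if_neg h5]
          decide
        · have h5 : ks F (F p) % 2 = 0 := by omega
          rw [if_neg h4, if_pos h5]
          decide
  · rw [if_neg h, if_neg h]
    have h3 := ex_F F h
    by_cases h4 : ((ex F p).1 + (ex F p).2) % 2 = 0
    · have h5 : ¬ ((ex F (F p)).1 + (ex F (F p)).2) % 2 = 0 := by omega
      rw [if_pos h4, if_neg h5]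
      decide
    · have h5 : ((ex F (F p)).1 + (ex F (F p)).2) % 2 = 0 := by omega
      rw [if_neg h4, if_pos h5]
      decide

end Pool.Agent.Lib.ILT
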