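import Pool.Agent.Lib.ILT.Stmts
import Pool.Agent.Lib.MP_763321_co.Base

/-!
# Forests in the infinite regular trees
-/

set_option autoImplicit false

namespace Pool.Agent.Lib.ILT

open Pool.Agent.Lib.FracGS (pat)

/-- The position of the node `j` of `pat par m` in the `m`-regular tree. -/
def slot (par : ℕ → ℕ) (m : ℕ) : ℕ → ℕ
  | 0 => 0
  | j + 1 => if _h : par (j + 1) < j + 1 then m * slot par m (par (j + 1)) + 1 + (j + 1) else 0

lemma slot_zero (par : ℕ → ℕ) (m : ℕ) : slot par m 0 = 0 := by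
  rw [slot]

lemma slot_pos {par : ℕ → ℕ} (hpar : ∀ j, 1 ≤ j → par j < j) (m j : ℕ) (hj : 1 ≤ j) :
    slot par m j = m * slot par m (par j) + 1 + j := by
  obtain ⟨i, rfl⟩ : ∃ i, j = i + 1 := ⟨j - 1, by omega⟩
  rw [slot, dif_pos (hpar (i + 1) hj)]

lemma slot_div {par : ℕ → ℕ} (hpar : ∀ j, 1 ≤ j → par j < j) {m j : ℕ} (hj : 1 ≤ j)
    (hm : j < m) : (slot par m j - 1) / m = slot par m (par j) := by
  rw [slot_pos hpar m j hj]
  have h1 : m * slot par m (par j) + 1 + j - 1 = m * slot par m (par j) + j := by omega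
  rw [h1, Nat.mul_add_div (by omega), Nat.div_eq_of_lt hm, add_zero]

lemma slot_mod {par : ℕ → ℕ} (hpar : ∀ j, 1 ≤ j → par j < j) {m j : ℕ} (hj : 1 ≤ j)
    (hm : j < m) : (slot par m j - 1) % m = j := by
  rw [slot_pos hpar m j hj]
  have h1 : m * slot par m (par j) + 1 + j - 1 = m * slot par m (par j) + j := by omega
  rw [h1, Nat.mul_add_mod, Nat.mod_eq_of_lt hm]

lemma slot_inj {par : ℕ → ℕ} (hpar : ∀ j, 1 ≤ j → par j < j) {m i j : ℕ} (hi : i < m)
    (hj : j < m) (h : slot par m i = slot par m j) : i = j := by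
  rcases Nat.eq_zero_or_pos i with hi0 | hi0
  · rcases Nat.eq_zero_or_pos j with hj0 | hj0
    · rw [hi0, hj0]
    · rw [hi0, slot_zero, slot_pos hpar m j hj0] at h
      omega
  · rcases Nat.eq_zero_or_pos j with hj0 | hj0
    · rw [hj0, slot_zero, slot_pos hpar m i hi0] at h
      omega
    · rw [← slot_mod hpar hi0 hi, ← slot_mod hpar hj0 hj, h]

lemma slot_adj {par : ℕ → ℕ} (hpar : ∀ j, 1 ≤ j → par j < j) {m i j : ℕ} (hi : i < m)
    (hj : j < m) :
    (slot par m i < slot par m j ∧ (slot par m j - 1) / m = slot par m i) ↔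
      (i < j ∧ par j = i) := by
  constructor
  · rintro ⟨h1, h2⟩
    have hj0 : 1 ≤ j := by
      by_contra h
      have h3 : j = 0 := by omega
      rw [h3, slot_zero] at h1
      omega
    rw [slot_div hpar hj0 hj] at h2
    have h3 := hpar j hj0
    have h4 := slot_inj hpar (by omega) hi h2
    exact ⟨h4 ▸ h3, h4⟩
  · rintro ⟨h1, h2⟩
    have hj0 : 1 ≤ j := by omega
    refine ⟨?_, ?_⟩
    · rw [slot_pos hpar m j hj0, h2]
      have h3 : slot par m i ≤ m * slot par m i := Nat.le_mul_of_pos_left _ (by omega)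
      omega
    · rw [slot_div hpar hj0 hj, h2]

theorem stFor : StFor := by
  intro U _ F hF
  obtain ⟨m, par, hm, hpar, ⟨φ⟩⟩ :=
    Pool.Agent.Lib.MP_763321_co.exists_pat (Fintype.card U) F hF rfl
  set n0 := (Finset.range m).sup (slot par m) with hn0
  have hle : ∀ j < m, slot par m j < n0 + 1 := fun j hj =>
    Nat.lt_succ_of_le (Finset.le_sup (f := slot par m) (Finset.mem_range.mpr hj))
  refine ⟨m, n0, hm, ⟨⟨⟨fun x => ⟨slot par m (φ x).1, hle _ (φ x).2⟩, ?_⟩, ?_⟩⟩⟩
  · intro x y hxy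
    have h1 : slot par m (φ x).1 = slot par m (φ y).1 := congrArg Fin.val hxy
    exact φ.injective (Fin.ext (slot_inj hpar (φ x).2 (φ y).2 h1))
  · intro x y
    have h1 : (Pool.Agent.Lib.MP_763321_co.pat par m).Adj (φ x) (φ y) ↔ F.Adj x y :=
      φ.map_adj_iff
    rw [← h1]
    show ((slot par m (φ x).1 < slot par m (φ y).1 ∧
        (slot par m (φ y).1 - 1) / m = slot par m (φ x).1) ∨
      (slot par m (φ y).1 < slot par m (φ x).1 ∧
        (slot par m (φ x).1 - 1) / m = slot par m (φ y).1)) ↔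
      (((φ x).1 < (φ y).1 ∧ par (φ y).1 = (φ x).1) ∨
        ((φ y).1 < (φ x).1 ∧ par (φ x).1 = (φ y).1))
    rw [slot_adj hpar (φ x).2 (φ y).2, slot_adj hpar (φ y).2 (φ x).2]

end Pool.Agent.Lib.ILT
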