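import Pool.Agent.Lib.ILT.Stmts

/-!
# The integral zero-infinity law for all trees: module `Gd`, good chains of all lengths
-/

set_option autoImplicit false

namespace Pool.Agent.Lib.ILT

namespace GdP

variable {V : Type} {G : SimpleGraph V}

/-- There are finitely many words below a level. -/
lemma finite_words (M : ℕ) : ∀ n, {w : List (ℕ × ℕ) | Wd M n w}.Finite := by
  intro n
  induction n using Nat.strong_induction_on with
  | _ n ih =>
    have h : {w : List (ℕ × ℕ) | Wd M n w} ⊆ {[]} ∪ ⋃ a ∈ Set.Iio n, ⋃ i ∈ Set.Iio M,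
        (fun w => (a, i) :: w) '' {w | Wd M a w} := by
      intro w hw
      cases w with
      | nil => exact Or.inl rfl
      | cons x w =>
        refine Or.inr ?_
        simp only [Set.mem_iUnion]
        exact ⟨x.1, hw.1, x.2, hw.2.1, w, hw.2.2, rfl⟩
    refine Set.Finite.subset ?_ h
    refine (Set.finite_singleton _).union ?_
    refine Set.Finite.biUnion (Set.finite_Iio n) fun a ha => ?_
    refine Set.Finite.biUnion (Set.finite_Iio M) fun i _ => ?_
    exact (ih a ha).image _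

/-- The property `P` is decided on `B`. -/
def Dcd (G : SimpleGraph V) (P : Set V → Prop) (B : Set V) : Prop :=
  P B ∨ ∀ C ⊆ B, ¬ Sm G C → ¬ P C

lemma Dcd.mono {P : Set V → Prop} (hP : ∀ A B : Set V, A ⊆ B → P B → P A) {A B : Set V}
    (h : A ⊆ B) (hB : Dcd G P B) : Dcd G P A := by
  rcases hB with h1 | h1
  · exact Or.inl (hP A B h h1)
  · exact Or.inr fun C hC => h1 C (hC.trans h)

lemma decide_one {A : Set V} (hA : ¬ Sm G A) (P : Set V → Prop) :
    ∃ B ⊆ A, ¬ Sm G B ∧ Dcd G P B := by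
  by_cases h : ∃ C ⊆ A, ¬ Sm G C ∧ P C
  · obtain ⟨C, h1, h2, h3⟩ := h
    exact ⟨C, h1, h2, Or.inl h3⟩
  · exact ⟨A, le_rfl, hA, Or.inr fun C h1 h2 h3 => h ⟨C, h1, h2, h3⟩⟩

lemma decide_fin {ι : Type} (s : Finset ι) (P : ι → Set V → Prop)
    (hP : ∀ i, ∀ A B : Set V, A ⊆ B → P i B → P i A) {A : Set V} (hA : ¬ Sm G A) :
    ∃ B ⊆ A, ¬ Sm G B ∧ ∀ i ∈ s, Dcd G (P i) B := by
  classical
  induction s using Finset.induction_on with
  | empty => exact ⟨A, le_rfl, hA, fun i hi => absurd hi (Finset.notMem_empty i)⟩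
  | insert a s _ ih =>
    obtain ⟨B, h1, h2, h3⟩ := ih
    obtain ⟨C, h4, h5, h6⟩ := decide_one h2 (P a)
    refine ⟨C, h4.trans h1, h5, fun i hi => ?_⟩
    rcases Finset.mem_insert.1 hi with h | h
    · rw [h]; exact h6
    · exact (h3 i h).mono (hP i) h4

lemma decide_all {ι : Type} {s : Set ι} (hs : s.Finite) (P : ι → Set V → Prop)
    (hP : ∀ i, ∀ A B : Set V, A ⊆ B → P i B → P i A) {A : Set V} (hA : ¬ Sm G A) :
    ∃ B ⊆ A, ¬ Sm G B ∧ ∀ i ∈ s, Dcd G (P i) B := by
  obtain ⟨B, h1, h2, h3⟩ := decide_fin hs.toFinset P hP hA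
  exact ⟨B, h1, h2, fun i hi => h3 i (hs.mem_toFinset.2 hi)⟩

/-- Values of words depend on the neighbour functions below only. -/
lemma wv_congr {M : ℕ} {D D' : Chn V} : ∀ (w : List (ℕ × ℕ)) (n : ℕ),
    (∀ m < n, D.nb m = D'.nb m) → Wd M n w → ∀ v, wv D w v = wv D' w v := by
  intro w
  induction w with
  | nil => intro n _ _ v; rfl
  | cons x w ih =>
    intro n h hw v
    show wv D w (D.nb x.1 x.2 v) = wv D' w (D'.nb x.1 x.2 v)
    rw [h x.1 hw.1]
    exact ih x.1 (fun m hm => h m (hm.trans hw.1)) hw.2.2 _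

/-- Enumeration of a set with `M` elements. -/
lemma enum {M : ℕ} (hM : 1 ≤ M) (s : Set V) (hs : s.ncard = M) : ∃ e : ℕ → V,
    (∀ i < M, e i ∈ s) ∧ (∀ i < M, ∀ j < M, e i = e j → i = j) ∧ ∀ x ∈ s, ∃ i < M, x = e i := by
  classical
  have hf : s.Finite := Set.finite_of_ncard_pos (by omega)
  have ht : hf.toFinset.card = M := by rw [← hs, Set.ncard_eq_toFinset_card s hf]
  let f := hf.toFinset.equivFinOfCardEq ht
  refine ⟨fun i => if h : i < M then (f.symm ⟨i, h⟩).1 else (f.symm ⟨0, by omega⟩).1,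
    fun i hi => ?_, fun i hi j hj h => ?_, fun x hx => ?_⟩
  · simp only [dif_pos hi]
    exact hf.mem_toFinset.1 (f.symm ⟨i, hi⟩).2
  · simp only [dif_pos hi, dif_pos hj] at h
    have h1 := f.symm.injective (Subtype.ext h)
    exact congrArg Fin.val h1
  · refine ⟨(f ⟨x, hf.mem_toFinset.2 hx⟩).1, (f ⟨x, hf.mem_toFinset.2 hx⟩).2, ?_⟩
    simp

/-- The vertices which do not see a hub set monochromatically. -/
lemma bad_small {M : ℕ}
    (h2 : ∀ S, Sm G {v | v ∉ S ∧ 0 < (nbs G S v).ncard ∧ (nbs G S v).ncard < M})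
    (T B : Set V) (nb : ℕ → V → V) (hd : ∀ v ∈ B, v ∉ T) (hmem : ∀ v ∈ B, ∀ i < M, nb i v ∈ T)
    (hadj : ∀ v ∈ B, ∀ s ∈ T, (G.Adj v s ↔ ∃ i < M, s = nb i v)) {r : ℕ} (φ : V → Fin r) :
    Sm G {v | v ∈ B ∧ ∃ i < M, ∃ j < M, φ (nb i v) ≠ φ (nb j v)} := by
  refine Sm.mono ?_ (Sm.iUnion (ι := Fin r) fun c => h2 {s | s ∈ T ∧ φ s = c})
  rintro v ⟨hv, i, hi, j, hj, hne⟩
  refine Set.mem_iUnion.2 ⟨φ (nb i v), fun h => hd v hv h.1, ?_, ?_⟩
  · have hfin : (nbs G {s | s ∈ T ∧ φ s = φ (nb i v)} v).Finite := by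
      refine Set.Finite.subset ((Finset.range M).finite_toSet.image fun i => nb i v) ?_
      rintro u ⟨⟨hu, -⟩, hadj'⟩
      obtain ⟨k, hk, rfl⟩ := (hadj v hv u hu).1 hadj'
      exact ⟨k, by simpa using hk, rfl⟩
    rw [Set.ncard_pos hfin]
    exact ⟨nb i v, ⟨hmem v hv i hi, rfl⟩,
      (hadj v hv _ (hmem v hv i hi)).2 ⟨i, hi, rfl⟩⟩
  · have hfin : (nbs G T v).Finite := by
      refine Set.Finite.subset ((Finset.range M).finite_toSet.image fun i => nb i v) ?_
      rintro u ⟨hu, hadj'⟩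
      obtain ⟨k, hk, rfl⟩ := (hadj v hv u hu).1 hadj'
      exact ⟨k, by simpa using hk, rfl⟩
    have hle : (nbs G T v).ncard ≤ M := by
      have h3 : nbs G T v ⊆ (fun i => nb i v) '' (Finset.range M : Set ℕ) := by
        rintro u ⟨hu, hadj'⟩
        obtain ⟨k, hk, rfl⟩ := (hadj v hv u hu).1 hadj'
        exact ⟨k, by simpa using hk, rfl⟩
      refine (Set.ncard_le_ncard h3 ((Finset.range M).finite_toSet.image _)).trans ?_
      refine (Set.ncard_image_le (Finset.range M).finite_toSet).trans ?_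
      rw [Set.ncard_coe_finset, Finset.card_range]
    refine lt_of_lt_of_le (Set.ncard_lt_ncard ?_ hfin) hle
    refine ⟨fun u hu => ⟨hu.1.1, hu.2⟩, fun h => ?_⟩
    have h4 : nb j v ∈ nbs G T v :=
      ⟨hmem v hv j hj, (hadj v hv _ (hmem v hv j hj)).2 ⟨j, hj, rfl⟩⟩
    exact hne (h h4).1.2.symm

/-- The monotonicity question. -/
def MQ (M : ℕ) (D : Chn V) (n : ℕ) (p : List (ℕ × ℕ) × List (ℕ × ℕ) × ℕ) (B : Set V) : Prop :=
  ∃ (r : ℕ) (φ : V → Fin r), (∀ v ∈ B, φ (wv D p.1 v) ≠ φ (wv D p.2.1 v)) ∧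
    (∀ u, Wd M n u → Lst u p.2.2 → ∀ v ∈ B, ∀ v' ∈ B, φ (wv D u v) = φ (wv D u v')) ∧
    (∀ v ∈ B, ∀ i < M, ∀ j < M, φ (D.nb p.2.2 i v) = φ (D.nb p.2.2 j v))

lemma MQ.mono {M : ℕ} {D : Chn V} {n : ℕ} (p : List (ℕ × ℕ) × List (ℕ × ℕ) × ℕ)
    (A B : Set V) (h : A ⊆ B) (hB : MQ M D n p B) : MQ M D n p A := by
  obtain ⟨r, φ, h1, h2, h3⟩ := hB
  exact ⟨r, φ, fun v hv => h1 v (h hv), fun u hu hl v hv v' hv' => h2 u hu hl v (h hv) v' (h hv'),
    fun v hv => h3 v (h hv)⟩

/-- If the question is answered negatively everywhere then the colourings agree. -/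
lemma mq_no {M : ℕ}
    (h2 : ∀ S, Sm G {v | v ∉ S ∧ 0 < (nbs G S v).ncard ∧ (nbs G S v).ncard < M})
    {D : Chn V} {n : ℕ} (p : List (ℕ × ℕ) × List (ℕ × ℕ) × ℕ) (T B : Set V)
    (hd : ∀ v ∈ B, v ∉ T) (hmem : ∀ v ∈ B, ∀ i < M, D.nb p.2.2 i v ∈ T)
    (hadj : ∀ v ∈ B, ∀ s ∈ T, (G.Adj v s ↔ ∃ i < M, s = D.nb p.2.2 i v))
    (hno : ∀ C ⊆ B, ¬ Sm G C → ¬ MQ M D n p C) (r : ℕ) (φ : V → Fin r) :
    Sm G {v | v ∈ B ∧ φ (wv D p.1 v) ≠ φ (wv D p.2.1 v)} := by
  by_contra hbig
  have hfin : Finite {w : List (ℕ × ℕ) | Wd M n w} := (finite_words M n).to_subtype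
  obtain ⟨c, hc⟩ := exists_big_class (ι := {w : List (ℕ × ℕ) | Wd M n w} → Fin r)
    (fun v u => φ (wv D u.1 v)) hbig
  have hbad := bad_small h2 T B (D.nb p.2.2) hd hmem hadj φ
  have hbig2 := big_diff hc hbad
  refine hno _ (fun v hv => hv.1.1.1) hbig2 ⟨r, φ, fun v hv => hv.1.1.2, ?_, ?_⟩
  · intro u hu _ v hv v' hv'
    have e1 : (fun u : {w : List (ℕ × ℕ) | Wd M n w} => φ (wv D u.1 v)) = c := hv.1.2
    have e2 : (fun u : {w : List (ℕ × ℕ) | Wd M n w} => φ (wv D u.1 v')) = c := hv'.1.2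
    exact congrFun (e1.trans e2.symm) ⟨u, hu⟩
  · intro v hv i hi j hj
    by_contra hne
    exact hv.2 ⟨hv.1.1.1, i, hi, j, hj, hne⟩

/-- Small sets of coincidences are removed. -/
lemma clean {ι : Type} {s : Set ι} (hs : s.Finite) (P : ι → V → Prop) {B : Set V}
    (hB : ¬ Sm G B) (hd : ∀ i ∈ s, Dcd G (fun C => ∀ v ∈ C, P i v) B) :
    ∃ C ⊆ B, ¬ Sm G C ∧ ∀ i ∈ s, (∀ v ∈ C, P i v) ∨ ∀ v ∈ C, ¬ P i v := by
  classical
  have hfin : Finite s := hs.to_subtype
  set E : Set V := ⋃ i : s, {v | v ∈ B ∧ P i.1 v ∧ ¬ ∀ v ∈ B, P i.1 v} with hE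
  have hsm : Sm G E := by
    refine Sm.iUnion fun i => ?_
    rcases hd i.1 i.2 with h | h
    · refine Sm.mono ?_ Sm.empty
      rintro v ⟨-, -, h'⟩
      exact absurd h h'
    · by_contra hbig
      exact h _ (fun v hv => hv.1) hbig fun v hv => hv.2.1
  refine ⟨B \ E, Set.sdiff_subset, big_diff hB hsm, fun i hi => ?_⟩
  by_cases h : ∀ v ∈ B, P i v
  · exact Or.inl fun v hv => h v hv.1
  · refine Or.inr fun v hv hP => hv.2 ?_
    exact Set.mem_iUnion.2 ⟨⟨i, hi⟩, hv.1, hP, h⟩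

/-- The step. -/
lemma step {M N : ℕ} (hM : 1 ≤ M)
    (h1 : ∀ A, ¬ Sm G A → ∃ S, S ⊆ A ∧ ¬ Sm G {v | v ∈ A ∧ v ∉ S ∧ (nbs G S v).ncard = M})
    (h2 : ∀ S, Sm G {v | v ∉ S ∧ 0 < (nbs G S v).ncard ∧ (nbs G S v).ncard < M})
    {D : Chn V} (hG : Good G M N D) : ∃ D' : Chn V, Good G M (N + 1) D' := by
  classical
  obtain ⟨S, hSA, hbigA⟩ := h1 (D.W N) (hG.big N le_rfl)
  set A : Set V := {v | v ∈ D.W N ∧ v ∉ S ∧ (nbs G S v).ncard = M} with hA
  have hex : ∀ v, ∃ e : ℕ → V, v ∈ A → (∀ i < M, e i ∈ nbs G S v) ∧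
      (∀ i < M, ∀ j < M, e i = e j → i = j) ∧ ∀ x ∈ nbs G S v, ∃ i < M, x = e i := by
    intro v
    by_cases hv : v ∈ A
    · obtain ⟨e, he⟩ := enum hM (nbs G S v) hv.2.2
      exact ⟨e, fun _ => he⟩
    · exact ⟨fun _ => v, fun h => absurd h hv⟩
  choose e he using hex
  -- the chain without the last world
  set D0 : Chn V := ⟨D.W, Function.update D.S N S, Function.update D.nb N fun i v => e v i⟩
    with hD0
  have nb_lt : ∀ m < N, D.nb m = D0.nb m := by
    intro m hm
    show D.nb m = Function.update D.nb N (fun i v => e v i) m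
    rw [Function.update_of_ne (by omega)]
  have nb_N : ∀ i v, D0.nb N i v = e v i := by
    intro i v
    show Function.update D.nb N (fun i v => e v i) N i v = e v i
    rw [Function.update_self]
  have S_lt : ∀ m < N, D0.S m = D.S m := by
    intro m hm
    show Function.update D.S N S m = D.S m
    rw [Function.update_of_ne (by omega)]
  have S_N : D0.S N = S := by
    show Function.update D.S N S N = S
    rw [Function.update_self]
  have wv_old : ∀ n ≤ N, ∀ w, Wd M n w → ∀ v, wv D w v = wv D0 w v := fun n hn w hw v =>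
    wv_congr w n (fun m hm => nb_lt m (by omega)) hw v
  -- facts about `A` at all levels
  have hA_W : ∀ m ≤ N, A ⊆ D.W m := fun m hm v hv => hG.le hm le_rfl hv.1
  have hA_dis : ∀ b < N + 1, ∀ v ∈ A, v ∉ D0.S b := by
    intro b hb v hv
    rcases Nat.lt_or_ge b N with h | h
    · rw [S_lt b h]
      intro hv'
      exact Set.disjoint_left.1 (hG.dis b h) hv' (hA_W (b + 1) h hv)
    · have : b = N := by omega
      subst this
      rw [S_N]
      exact hv.2.1
  have hA_mem : ∀ b < N + 1, ∀ v ∈ A, ∀ i < M, D0.nb b i v ∈ D0.S b := by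
    intro b hb v hv i hi
    rcases Nat.lt_or_ge b N with h | h
    · rw [S_lt b h, ← nb_lt b h]
      exact hG.mem b h v (hA_W (b + 1) h hv) i hi
    · have : b = N := by omega
      subst this
      rw [S_N, nb_N]
      exact ((he v hv).1 i hi).1
  have hA_adj : ∀ b < N + 1, ∀ v ∈ A, ∀ s ∈ D0.S b, (G.Adj v s ↔ ∃ i < M, s = D0.nb b i v) := by
    intro b hb v hv s hs
    rcases Nat.lt_or_ge b N with h | h
    · rw [S_lt b h] at hs
      rw [← nb_lt b h]
      exact hG.adj b h v (hA_W (b + 1) h hv) s hs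
    · have : b = N := by omega
      subst this
      rw [S_N] at hs
      constructor
      · intro hadj
        obtain ⟨i, hi, h⟩ := (he v hv).2.2 s ⟨hs, hadj⟩
        exact ⟨i, hi, by rw [nb_N]; exact h⟩
      · rintro ⟨i, hi, h⟩
        rw [nb_N] at h
        rw [h]
        exact ((he v hv).1 i hi).2
  -- the index set
  have hU := finite_words M (N + 1)
  set I2 : Set (List (ℕ × ℕ) × List (ℕ × ℕ)) := {w | Wd M (N + 1) w} ×ˢ {w | Wd M (N + 1) w}
    with hI2
  have fI2 : I2.Finite := hU.prod hU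
  set I3 : Set (List (ℕ × ℕ) × List (ℕ × ℕ) × ℕ) :=
    {w | Wd M (N + 1) w} ×ˢ ({w | Wd M (N + 1) w} ×ˢ Set.Iio (N + 1)) with hI3
  have fI3 : I3.Finite := hU.prod (hU.prod (Set.finite_Iio _))
  -- dependences
  obtain ⟨B1, hB1A, hB1, hdep⟩ := decide_all (G := G) fI2
    (fun p B => Fn B (wv D0 p.1) (wv D0 p.2)) (fun p A B h hB => hB.mono h) hbigA
  -- colourings
  obtain ⟨B2, hB21, hB2, hmon⟩ := decide_all (G := G) fI3
    (fun p B => MQ M D0 (N + 1) p B) (fun p A B h hB => hB.mono p A B h) hB1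
  -- equalities
  obtain ⟨B3, hB32, hB3, hhom⟩ := decide_all (G := G) fI2
    (fun p B => ∀ v ∈ B, wv D0 p.1 v = wv D0 p.2 v) (fun p A B h hB v hv => hB v (h hv)) hB2
  obtain ⟨B, hB33, hB, hhom'⟩ := clean fI2 (fun p v => wv D0 p.1 v = wv D0 p.2 v) hB3 hhom
  have hBA : B ⊆ A := hB33.trans (hB32.trans (hB21.trans hB1A))
  -- the new chain
  set D' : Chn V := ⟨Function.update D.W (N + 1) B, D0.S, D0.nb⟩ with hD'
  have W_le : ∀ n ≤ N, D'.W n = D.W n := by
    intro n hn
    show Function.update D.W (N + 1) B n = D.W n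
    rw [Function.update_of_ne (by omega)]
  have W_N : D'.W (N + 1) = B := by
    show Function.update D.W (N + 1) B (N + 1) = B
    rw [Function.update_self]
  have wv' : ∀ n w, Wd M n w → ∀ v, wv D' w v = wv D0 w v := fun n w hw v =>
    wv_congr (D := D') (D' := D0) w n (fun m _ => rfl) hw v
  have wv'f : ∀ n w, Wd M n w → wv D' w = wv D0 w := fun n w hw => funext (wv' n w hw)
  have wv'o : ∀ n ≤ N, ∀ w, Wd M n w → wv D' w = wv D w := fun n hn w hw =>
    funext fun v => (wv' n w hw v).trans (wv_old n hn w hw v).symm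
  refine ⟨D', ⟨?_, ?_, ?_, ?_, ?_, ?_, ?_, ?_, ?_, ?_⟩⟩
  · -- big
    intro n hn
    rcases Nat.lt_or_ge N n with h | h
    · have : n = N + 1 := by omega
      subst this
      rw [W_N]
      exact hB
    · rw [W_le n h]
      exact hG.big n h
  · -- anti
    intro n hn
    rcases Nat.lt_or_ge n N with h | h
    · rw [W_le n h.le, W_le (n + 1) h]
      exact hG.anti n h
    · have : n = N := by omega
      subst this
      rw [W_N, W_le n le_rfl]
      exact hBA.trans (hA_W n le_rfl)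
  · -- sub
    intro n hn
    rcases Nat.lt_or_ge n N with h | h
    · rw [W_le n h.le]
      show D0.S n ⊆ _
      rw [S_lt n h]
      exact hG.sub n h
    · have : n = N := by omega
      subst this
      rw [W_le n le_rfl]
      show D0.S n ⊆ _
      rw [S_N]
      exact hSA
  · -- dis
    intro n hn
    rcases Nat.lt_or_ge n N with h | h
    · rw [W_le (n + 1) h]
      show Disjoint (D0.S n) _
      rw [S_lt n h]
      exact hG.dis n h
    · have : n = N := by omega
      subst this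
      rw [W_N]
      exact Set.disjoint_left.2 fun v hv hv' => hA_dis n (by omega) v (hBA hv') hv
  · -- mem
    intro n hn v hv i hi
    rcases Nat.lt_or_ge n N with h | h
    · rw [W_le (n + 1) h] at hv
      show D0.nb n i v ∈ D0.S n
      rw [S_lt n h, ← nb_lt n h]
      exact hG.mem n h v hv i hi
    · have : n = N := by omega
      subst this
      rw [W_N] at hv
      exact hA_mem n (by omega) v (hBA hv) i hi
  · -- inj
    intro n hn v hv i hi j hj hij
    rcases Nat.lt_or_ge n N with h | h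
    · rw [W_le (n + 1) h] at hv
      have hij' : D0.nb n i v = D0.nb n j v := hij
      rw [← nb_lt n h] at hij'
      exact hG.inj n h v hv i hi j hj hij'
    · have : n = N := by omega
      subst this
      rw [W_N] at hv
      have hij' : D0.nb n i v = D0.nb n j v := hij
      rw [nb_N, nb_N] at hij'
      exact (he v (hBA hv)).2.1 i hi j hj hij'
  · -- adj
    intro n hn v hv s hs
    rcases Nat.lt_or_ge n N with h | h
    · rw [W_le (n + 1) h] at hv
      have hs' : s ∈ D0.S n := hs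
      rw [S_lt n h] at hs'
      show G.Adj v s ↔ ∃ i < M, s = D0.nb n i v
      rw [← nb_lt n h]
      exact hG.adj n h v hv s hs'
    · have : n = N := by omega
      subst this
      rw [W_N] at hv
      exact hA_adj n (by omega) v (hBA hv) s hs
  · -- hom
    intro n hn w w' hw hw'
    rcases Nat.lt_or_ge N n with h | h
    · have : n = N + 1 := by omega
      subst this
      rw [W_N, wv'f _ w hw, wv'f _ w' hw']
      exact hhom' (w, w') ⟨hw, hw'⟩
    · rw [W_le n h, wv'o n h w hw, wv'o n h w' hw']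
      exact hG.hom n h w w' hw hw'
  · -- dep
    intro n hn w w' hw hw'
    rcases Nat.lt_or_ge N n with h | h
    · have : n = N + 1 := by omega
      subst this
      rw [W_N, wv'f _ w hw, wv'f _ w' hw']
      have hB1' : B ⊆ B1 := hB33.trans (hB32.trans hB21)
      rcases hdep (w, w') ⟨hw, hw'⟩ with h' | h'
      · exact Or.inl (Fn.mono hB1' h')
      · refine Or.inr fun F => ?_
        by_contra hbig
        refine h' _ (fun v hv => hB1' hv.1) hbig ⟨F, fun v hv => hv.2⟩
    · rw [W_le n h, wv'o n h w hw, wv'o n h w' hw']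
      exact hG.dep n h w w' hw hw'
  · -- mon
    intro n hn b w w' hw hw' hb hb'
    rcases Nat.lt_or_ge N n with h | h
    · have : n = N + 1 := by omega
      subst this
      rw [W_N, wv'f _ w hw, wv'f _ w' hw']
      have hbN : b < N + 1 := hb.lt hw
      have hB2' : B ⊆ B2 := hB33.trans hB32
      have hd := (hmon (w, w', b) ⟨hw, hw', hbN⟩).mono (fun A B h hB => hB.mono _ A B h) hB2'
      rcases hd with ⟨r, φ, k1, k2, k3⟩ | h'
      · refine Or.inr ⟨r, φ, k1, fun u hu hl v hv v' hv' => ?_, k3⟩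
        rw [wv'f _ u hu]
        exact k2 u hu hl v hv v' hv'
      · exact Or.inl (mq_no h2 (w, w', b) (D0.S b) B (fun v hv => hA_dis b hbN v (hBA hv))
          (fun v hv => hA_mem b hbN v (hBA hv)) (fun v hv => hA_adj b hbN v (hBA hv)) h')
    · rw [W_le n h, wv'o n h w hw, wv'o n h w' hw']
      rcases hG.mon n h b w w' hw hw' hb hb' with h' | ⟨r, φ, k1, k2, k3⟩
      · exact Or.inl h'
      · have hbn : b < n := hb.lt hw
        refine Or.inr ⟨r, φ, k1, fun u hu hl v hv v' hv' => ?_, fun v hv i hi j hj => ?_⟩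
        · rw [wv'o n h u hu]
          exact k2 u hu hl v hv v' hv'
        · show φ (D0.nb b i v) = φ (D0.nb b j v)
          rw [← nb_lt b (by omega)]
          exact k3 v hv i hi j hj

end GdP

theorem stGd : StGd := by
  intro V G M N hM hbig h1 h2
  induction N with
  | zero =>
    have hnil : ∀ w : List (ℕ × ℕ), Wd M 0 w → w = [] := by
      intro w hw
      cases w with
      | nil => rfl
      | cons x w => exact absurd hw.1 (Nat.not_lt_zero _)
    refine ⟨⟨fun _ => Set.univ, fun _ => ∅, fun _ _ v => v⟩, ⟨?_, ?_, ?_, ?_, ?_, ?_, ?_, ?_, ?_,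
      ?_⟩⟩
    · intro n _
      exact hbig
    · intro n hn
      exact absurd hn (Nat.not_lt_zero _)
    · intro n hn
      exact absurd hn (Nat.not_lt_zero _)
    · intro n hn
      exact absurd hn (Nat.not_lt_zero _)
    · intro n hn
      exact absurd hn (Nat.not_lt_zero _)
    · intro n hn
      exact absurd hn (Nat.not_lt_zero _)
    · intro n hn
      exact absurd hn (Nat.not_lt_zero _)
    · intro n hn w w' hw hw'
      have h0 : n = 0 := by omega
      subst h0
      rw [hnil w hw, hnil w' hw']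
      exact Or.inl fun v _ => rfl
    · intro n hn w w' hw hw'
      have h0 : n = 0 := by omega
      subst h0
      rw [hnil w hw, hnil w' hw']
      exact Or.inl ⟨id, fun v _ => rfl⟩
    · intro n hn b w w' hw hw' hb _
      have h0 : n = 0 := by omega
      subst h0
      exact absurd (hnil w hw) hb.ne
  | succ N ih =>
    obtain ⟨D, hD⟩ := ih
    exact GdP.step hM h1 h2 hD

end Pool.Agent.Lib.ILT
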