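import Pool.Agent.Lib.ILT.Stmts

/-!
# The integral zero-infinity law for all trees: module `HD`
-/

set_option autoImplicit false

namespace Pool.Agent.Lib.ILT

namespace HDAux

variable {V : Type}

/-- The level functions. -/
def gg (b b' : ℕ) (j : ℕ) : ℕ := if j = 0 then b else b' + (j - 1)

lemma gg_zero (b b' : ℕ) : gg b b' 0 = b := rfl

lemma gg_one (b b' : ℕ) : gg b b' 1 = b' := rfl

lemma gg_mono {b b' : ℕ} (h : b < b') : StrictMono (gg b b') := by
  apply strictMono_nat_of_lt_succ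
  intro j
  unfold gg
  by_cases hj : j = 0
  · subst hj
    simpa using h
  · rw [if_neg hj, if_neg (Nat.succ_ne_zero j)]
    omega

lemma gg_lt {b b' t N : ℕ} (h : b < b') (hN : b' + t ≤ N) (ht : 2 ≤ t) {j : ℕ} (hj : j < t) :
    gg b b' j < N := by
  unfold gg
  split_ifs with h0
  · omega
  · omega

/-- The compressed words. -/
def cc (q l : ℕ) (ζ : List ℕ) : List (ℕ × ℕ) := cw 2 ζ ++ [(q, l)]

lemma wd_cc {M q l n : ℕ} {ζ : List ℕ} (h : ∀ i ∈ ζ, i < M) (hl : l < M) (hq : q < 2)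
    (hn : 2 + ζ.length ≤ n) : Wd M n (cc q l ζ) := by
  unfold cc
  induction ζ generalizing n with
  | nil =>
    show q < n ∧ l < M ∧ True
    rw [List.length_nil] at hn
    exact ⟨by omega, hl, trivial⟩
  | cons i ζ ih =>
    rw [List.length_cons] at hn
    exact ⟨by show 2 + ζ.length < n; omega, h i List.mem_cons_self,
      ih (fun j hj => h j (List.mem_cons_of_mem i hj)) le_rfl⟩

lemma wd_rl {M t N : ℕ} {g : ℕ → ℕ} (hg : StrictMono g) {w : List (ℕ × ℕ)} (hw : Wd M t w)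
    (h : ∀ j < t, g j < N) : Wd M N (rl g w) := by
  induction w generalizing t N with
  | nil => trivial
  | cons x w ih =>
    exact ⟨h x.1 hw.1, hw.2.1, ih hw.2.2 fun j hj => hg hj⟩

lemma map_rl (g : ℕ → ℕ) (w : List (ℕ × ℕ)) : (rl g w).map Prod.snd = w.map Prod.snd := by
  unfold rl
  rw [List.map_map]
  rfl

lemma map_cc (q l : ℕ) (ζ : List ℕ) : (cc q l ζ).map Prod.snd = ζ ++ [l] := by
  unfold cc
  rw [List.map_append, map_cw]
  rfl

lemma lst_rl (g : ℕ → ℕ) (q l : ℕ) (ζ : List ℕ) : Lst (rl g (cc q l ζ)) (g q) := by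
  unfold Lst rl cc
  rw [List.map_append]
  simp

lemma fn_congr {A : Set V} {Z Z' Y Y' : V → V} (h : ∀ v ∈ A, Z v = Y v)
    (h' : ∀ v ∈ A, Z' v = Y' v) : Fn A Z Z' ↔ Fn A Y Y' := by
  constructor
  · rintro ⟨F, hF⟩
    exact ⟨F, fun v hv => by rw [← h v hv, ← h' v hv]; exact hF v hv⟩
  · rintro ⟨F, hF⟩
    exact ⟨F, fun v hv => by rw [h v hv, h' v hv]; exact hF v hv⟩

end HDAux

open HDAux in
theorem stHD (hL : StLab) : StHD := by
  intro V G M N K k D hS η η' hη hη' hC hC' hK b b' c c' hb hc hbN hcN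
  obtain ⟨ζ, l, rfl⟩ : ∃ (ζ : List ℕ) (l : ℕ), η = ζ ++ [l] :=
    ⟨η.dropLast, η.getLast hη, (List.dropLast_append_getLast hη).symm⟩
  obtain ⟨ζ', l', rfl⟩ : ∃ (ζ' : List ℕ) (l' : ℕ), η' = ζ' ++ [l'] :=
    ⟨η'.dropLast, η'.getLast hη', (List.dropLast_append_getLast hη').symm⟩
  have hlt := hC.lt
  have hlt' := hC'.lt
  have hζ : ∀ i ∈ ζ, i < M := fun i hi => hlt i (List.mem_append_left _ hi)
  have hl : l < M := hlt l (List.mem_append_right _ List.mem_cons_self)
  have hζ' : ∀ i ∈ ζ', i < M := fun i hi => hlt' i (List.mem_append_left _ hi)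
  have hl' : l' < M := hlt' l' (List.mem_append_right _ List.mem_cons_self)
  set t := (ζ ++ [l]).length + (ζ' ++ [l']).length with ht
  have ht2 : t = ζ.length + ζ'.length + 2 := by
    rw [ht, List.length_append, List.length_append, List.length_singleton, List.length_singleton]
    omega
  have hw : ∀ q < 2, Wd M t (cc q l ζ) := fun q hq => wd_cc hζ hl hq (by omega)
  have hw' : ∀ q < 2, Wd M t (cc q l' ζ') := fun q hq => wd_cc hζ' hl' hq (by omega)
  have hval : ∀ g : ℕ → ℕ, StrictMono g → (∀ j < t, g j < N) → ∀ q < 2, ∀ v ∈ D.W N,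
      wv D (rl g (cc q l ζ)) v = lab D (ζ ++ [l]) (g q) v := by
    intro g hg hgN q hq v hv
    have h := hL V G M N K k D hS N le_rfl (g q) (rl g (cc q l ζ)) (wd_rl hg (hw q hq) hgN)
      (lst_rl g q l ζ) (by rw [map_rl, map_cc]; exact hC) v hv
    rw [map_rl, map_cc] at h
    exact h
  have hval' : ∀ g : ℕ → ℕ, StrictMono g → (∀ j < t, g j < N) → ∀ q < 2, ∀ v ∈ D.W N,
      wv D (rl g (cc q l' ζ')) v = lab D (ζ' ++ [l']) (g q) v := by
    intro g hg hgN q hq v hv
    have h := hL V G M N K k D hS N le_rfl (g q) (rl g (cc q l' ζ')) (wd_rl hg (hw' q hq) hgN)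
      (lst_rl g q l' ζ') (by rw [map_rl, map_cc]; exact hC') v hv
    rw [map_rl, map_cc] at h
    exact h
  have hgb : ∀ j < t, gg b b' j < N := fun j hj => gg_lt hb hbN (by omega) hj
  have hgc : ∀ j < t, gg c c' j < N := fun j hj => gg_lt hc hcN (by omega) hj
  constructor
  · have h := (hS.hmg t hK (cc 0 l ζ) (cc 1 l' ζ') (hw 0 (by omega)) (hw' 1 (by omega))
      (gg b b') (gg c c') (gg_mono hb) (gg_mono hc) fun j hj => ⟨hgb j hj, hgc j hj⟩).2
    rw [fn_congr (hval _ (gg_mono hb) hgb 0 (by omega)) (hval' _ (gg_mono hb) hgb 1 (by omega)),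
      fn_congr (hval _ (gg_mono hc) hgc 0 (by omega)) (hval' _ (gg_mono hc) hgc 1 (by omega))] at h
    exact h
  · have h := (hS.hmg t hK (cc 1 l ζ) (cc 0 l' ζ') (hw 1 (by omega)) (hw' 0 (by omega))
      (gg b b') (gg c c') (gg_mono hb) (gg_mono hc) fun j hj => ⟨hgb j hj, hgc j hj⟩).2
    rw [fn_congr (hval _ (gg_mono hb) hgb 1 (by omega)) (hval' _ (gg_mono hb) hgb 0 (by omega)),
      fn_congr (hval _ (gg_mono hc) hgc 1 (by omega)) (hval' _ (gg_mono hc) hgc 0 (by omega))] at h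
    exact h

end Pool.Agent.Lib.ILT
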