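import Pool.Agent.Lib.ILT.Stmts

/-!
# The integral zero-infinity law for all trees: module `Ho`, homogeneous good chains
-/

set_option autoImplicit false

namespace Pool.Agent.Lib.ILT

namespace HoP

variable {V : Type} {G : SimpleGraph V}

/-- There are finitely many words below a level. -/
lemma finite_words (M : ℕ) : ∀ n, {w : List (ℕ × ℕ) | Wd M n w}.Finite := by
  intro n
  induction n using Nat.strong_induction_on with
  | _ n ih =>
    have h : {w : List (ℕ × ℕ) | Wd M n w} ⊆ {[]} ∪ ⋃ a ∈ Set.Iio n, ⋃ i ∈ Set.Iio M,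
        (fun w => (a, i) :: w) '' {w | Wd M a w} := by
      intro w hw
      cases w with
      | nil => exact Or.inl rfl
      | cons x w =>
        refine Or.inr ?_
        simp only [Set.mem_iUnion]
        exact ⟨x.1, hw.1, x.2, hw.2.1, w, hw.2.2, rfl⟩
    refine Set.Finite.subset ?_ h
    refine (Set.finite_singleton _).union ?_
    refine Set.Finite.biUnion (Set.finite_Iio n) fun a ha => ?_
    refine Set.Finite.biUnion (Set.finite_Iio M) fun i _ => ?_
    exact (ih a ha).image _

/-- Strictly monotone maps with the same image agree. -/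
lemma uniq {K : ℕ} {g g' : ℕ → ℕ} (hg : StrictMono g) (hg' : StrictMono g')
    (h : (Finset.range K).image g = (Finset.range K).image g') : ∀ j < K, g j = g' j := by
  have h1 : StrictMono (fun i : Fin K => g i.1) := fun a b hab => hg hab
  have h2 : StrictMono (fun i : Fin K => g' i.1) := fun a b hab => hg' hab
  have h3 : Set.range (fun i : Fin K => g i.1) = Set.range (fun i : Fin K => g' i.1) := by
    have key : ∀ e : ℕ → ℕ, Set.range (fun i : Fin K => e i.1) =
        (((Finset.range K).image e : Finset ℕ) : Set ℕ) := by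
      intro e
      ext x
      simp only [Set.mem_range, Finset.coe_image, Set.mem_image, Finset.mem_coe,
        Finset.mem_range]
      constructor
      · rintro ⟨i, rfl⟩
        exact ⟨i.1, i.2, rfl⟩
      · rintro ⟨i, hi, rfl⟩
        exact ⟨⟨i, hi⟩, rfl⟩
    rw [key g, key g', h]
  have h4 := (StrictMono.range_inj h1 h2).mp h3
  intro j hj
  exact congrFun h4 ⟨j, hj⟩

lemma rl_nil (g : ℕ → ℕ) : rl g [] = [] := rfl

lemma rl_cons (g : ℕ → ℕ) (x : ℕ × ℕ) (w : List (ℕ × ℕ)) :
    rl g (x :: w) = (g x.1, x.2) :: rl g w := rfl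

lemma rl_congr {M : ℕ} {g g' : ℕ → ℕ} : ∀ {t : ℕ} {w : List (ℕ × ℕ)}, Wd M t w →
    (∀ j < t, g j = g' j) → rl g w = rl g' w := by
  intro t w
  induction w generalizing t with
  | nil => intro _ _; rfl
  | cons x w ih =>
    intro hw h
    rw [rl_cons, rl_cons, h x.1 hw.1, ih hw.2.2 fun j hj => h j (lt_trans hj hw.1)]

lemma rl_rl (f g : ℕ → ℕ) (w : List (ℕ × ℕ)) : rl f (rl g w) = rl (fun j => f (g j)) w := by
  induction w with
  | nil => rfl
  | cons x w ih => rw [rl_cons, rl_cons, rl_cons, ih]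

/-- Relabelled words are words. -/
lemma wd_rl {M : ℕ} {g : ℕ → ℕ} : ∀ {t s : ℕ} {w : List (ℕ × ℕ)}, Wd M t w →
    (∀ j < t, g j < s) → (∀ a b, a < b → b < t → g a < g b) → Wd M s (rl g w) := by
  intro t s w
  induction w generalizing t s with
  | nil => intro _ _ _; trivial
  | cons x w ih =>
    intro hw h hm
    rw [rl_cons]
    refine ⟨h x.1 hw.1, hw.2.1, ih hw.2.2 (fun j hj => hm j x.1 hj hw.1) ?_⟩
    exact fun a b hab hb => hm a b hab (lt_trans hb hw.1)

lemma lst_rl {g : ℕ → ℕ} {w : List (ℕ × ℕ)} {b : ℕ} (h : Lst w b) : Lst (rl g w) (g b) := by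
  induction w with
  | nil => exact absurd rfl h.ne
  | cons x w ih =>
    rw [rl_cons]
    by_cases hw : w = []
    · subst hw
      have h1 : x.1 = b := (lst_single x.1 x.2 b).mp h
      rw [rl_nil, h1]
      exact (lst_single _ _ _).mpr rfl
    · have hne : rl g w ≠ [] := by
        intro h0
        exact hw (List.map_eq_nil_iff.mp h0)
      exact (Lst.cons hne).mpr (ih ((Lst.cons hw).mp h))

/-- The subchain. -/
def sc (D : Chn V) (f : ℕ → ℕ) : Chn V where
  W j := D.W (f j)
  S j := D.S (f j)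
  nb j := D.nb (f j)

lemma wv_sc (D : Chn V) (f : ℕ → ℕ) (w : List (ℕ × ℕ)) (v : V) :
    wv (sc D f) w v = wv D (rl f w) v := by
  induction w generalizing v with
  | nil => rfl
  | cons x w ih => exact ih _

/-- Subchains are good. -/
lemma good_sc {M R N : ℕ} {D : Chn V} (hG : Good G M R D) {f : ℕ → ℕ} (hf : StrictMono f)
    (hN : f N ≤ R) : Good G M N (sc D f) := by
  have hle : ∀ n ≤ N, f n ≤ R := fun n hn => le_trans (hf.monotone hn) hN
  have hlt : ∀ n < N, f n < R := fun n hn => lt_of_lt_of_le (hf hn) hN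
  have hsub : ∀ n < N, D.W (f (n + 1)) ⊆ D.W (f n + 1) := fun n hn =>
    hG.le (hf (Nat.lt_succ_self n)) (hle (n + 1) hn)
  have hwd : ∀ n w, Wd M n w → Wd M (f n) (rl f w) := fun n w hw =>
    wd_rl hw (fun j hj => hf hj) fun a b hab _ => hf hab
  have hw : ∀ w, wv (sc D f) w = wv D (rl f w) := fun w => funext (wv_sc D f w)
  refine ⟨?_, ?_, ?_, ?_, ?_, ?_, ?_, ?_, ?_, ?_⟩
  · exact fun n hn => hG.big (f n) (hle n hn)
  · exact fun n hn => hG.le (hf.monotone (Nat.le_succ n)) (hle (n + 1) hn)
  · exact fun n hn => hG.sub (f n) (hlt n hn)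
  · exact fun n hn => (hG.dis (f n) (hlt n hn)).mono_right (hsub n hn)
  · exact fun n hn v hv => hG.mem (f n) (hlt n hn) v (hsub n hn hv)
  · exact fun n hn v hv => hG.inj (f n) (hlt n hn) v (hsub n hn hv)
  · exact fun n hn v hv => hG.adj (f n) (hlt n hn) v (hsub n hn hv)
  · intro n hn w w' h h'
    rw [hw, hw]
    exact hG.hom (f n) (hle n hn) _ _ (hwd n w h) (hwd n w' h')
  · intro n hn w w' h h'
    rw [hw, hw]
    exact hG.dep (f n) (hle n hn) _ _ (hwd n w h) (hwd n w' h')
  · intro n hn b w w' h h' hl hl'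
    rw [hw, hw]
    rcases hG.mon (f n) (hle n hn) (f b) _ _ (hwd n w h) (hwd n w' h') (lst_rl hl)
      (lst_rl hl') with h1 | ⟨r, φ, h1, h2, h3⟩
    · exact Or.inl h1
    · refine Or.inr ⟨r, φ, h1, ?_, h3⟩
      intro u hu hub v hv v' hv'
      rw [hw]
      exact h2 (rl f u) (hwd n u hu) (lst_rl hub) v hv v' hv'

/-- The record of a strictly monotone map. -/
def rec1 (D : Chn V) (R : ℕ) (g : ℕ → ℕ) (p : List (ℕ × ℕ) × List (ℕ × ℕ)) : Prop :=
  EqW D R (rl g p.1) (rl g p.2)

def rec2 (D : Chn V) (R : ℕ) (g : ℕ → ℕ) (p : List (ℕ × ℕ) × List (ℕ × ℕ)) : Prop :=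
  Fn (D.W R) (wv D (rl g p.1)) (wv D (rl g p.2))

end HoP

open HoP in
theorem stHo (hR : FGF.StRam) : StHo := by
  classical
  intro M N K
  set U : Set (List (ℕ × ℕ) × List (ℕ × ℕ)) := {w | Wd M K w} ×ˢ {w | Wd M K w} with hU
  have hUf : U.Finite := (finite_words M K).prod (finite_words M K)
  have hfin : Finite U := hUf.to_subtype
  have hfin2 : Finite (Set U × Set U) := inferInstance
  have e := Finite.equivFin (Set U × Set U)
  set k := Nat.card (Set U × Set U) with hk
  have hk1 : 1 ≤ k := Nat.card_pos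
  obtain ⟨R, hR⟩ := hR k K (N + K + 1) hk1
  refine ⟨R, ?_⟩
  intro V G D hG
  -- the record of a set
  let rcd : Finset ℕ → Set U × Set U := fun X =>
    ({p | ∃ g : ℕ → ℕ, StrictMono g ∧ (Finset.range K).image g = X ∧ rec1 D R g p.1},
      {p | ∃ g : ℕ → ℕ, StrictMono g ∧ (Finset.range K).image g = X ∧ rec2 D R g p.1})
  obtain ⟨B, hBA, hBc, i, hBi⟩ := hR (fun X => (e (rcd X)).1) (Finset.range R)
    (fun S => (e (rcd S)).2) (by rw [Finset.card_range])
  have hcol : ∀ X Y : Finset ℕ, X ⊆ B → X.card = K → Y ⊆ B → Y.card = K → rcd X = rcd Y := by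
    intro X Y hX hXc hY hYc
    have h1 := (hBi X hX hXc).trans (hBi Y hY hYc).symm
    exact e.injective (Fin.ext h1)
  -- the enumeration of `B`
  let em := B.orderEmbOfFin hBc
  have hem : ∀ a, em a ∈ B := fun a => Finset.orderEmbOfFin_mem B hBc a
  have hemR : ∀ a, em a < R := fun a => Finset.mem_range.mp (hBA (hem a))
  let f : ℕ → ℕ := fun j => if h : j < N + K + 1 then em ⟨j, h⟩ else R + j
  have hfB : ∀ j, j < N + K + 1 → f j ∈ B := by
    intro j hj
    show (if h : j < N + K + 1 then em ⟨j, h⟩ else R + j) ∈ B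
    rw [dif_pos hj]
    exact hem _
  have hf : StrictMono f := by
    intro a b hab
    show (if h : a < N + K + 1 then em ⟨a, h⟩ else R + a) <
      (if h : b < N + K + 1 then em ⟨b, h⟩ else R + b)
    by_cases hb : b < N + K + 1
    · have ha : a < N + K + 1 := lt_trans hab hb
      rw [dif_pos ha, dif_pos hb]
      exact em.strictMono hab
    · rw [dif_neg hb]
      by_cases ha : a < N + K + 1
      · rw [dif_pos ha]
        have := hemR ⟨a, ha⟩
        omega
      · rw [dif_neg ha]
        omega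
  have hfN : f N ≤ R := (Finset.mem_range.mp (hBA (hfB N (by omega)))).le
  have hG' := good_sc hG hf hfN
  refine ⟨sc D f, hG', ?_⟩
  -- the record of `f ∘ g`
  have main : ∀ t, (ht : t ≤ K) → ∀ g : ℕ → ℕ, StrictMono g → (∀ j < t, g j < N) →
      ∃ X : Finset ℕ, X ⊆ B ∧ X.card = K ∧ ∀ w w', (hw : Wd M t w) → (hw' : Wd M t w') →
        ((⟨(w, w'), ⟨hw.mono ht, hw'.mono ht⟩⟩ : U) ∈ (rcd X).1 ↔
          rec1 D R (fun j => f (g j)) (w, w')) ∧
        ((⟨(w, w'), ⟨hw.mono ht, hw'.mono ht⟩⟩ : U) ∈ (rcd X).2 ↔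
          rec2 D R (fun j => f (g j)) (w, w')) := by
    intro t ht g hg hgN
    let g1 : ℕ → ℕ := fun j => if j < t then g j else N + (j - t)
    have hg1 : StrictMono g1 := by
      intro a b hab
      show (if a < t then g a else N + (a - t)) < (if b < t then g b else N + (b - t))
      by_cases hb : b < t
      · rw [if_pos hb, if_pos (lt_trans hab hb)]
        exact hg hab
      · rw [if_neg hb]
        by_cases ha : a < t
        · rw [if_pos ha]
          have := hgN a ha
          omega
        · rw [if_neg ha]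
          omega
    have hg1lt : ∀ j < K, g1 j < N + K + 1 := by
      intro j hj
      show (if j < t then g j else N + (j - t)) < N + K + 1
      by_cases h : j < t
      · rw [if_pos h]
        have := hgN j h
        omega
      · rw [if_neg h]
        omega
    let h : ℕ → ℕ := fun j => f (g1 j)
    have hh : StrictMono h := fun a b hab => hf (hg1 hab)
    refine ⟨(Finset.range K).image h, ?_, ?_, ?_⟩
    · intro x hx
      obtain ⟨j, hj, rfl⟩ := Finset.mem_image.mp hx
      exact hfB (g1 j) (hg1lt j (Finset.mem_range.mp hj))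
    · rw [Finset.card_image_of_injective _ hh.injective, Finset.card_range]
    · intro w w' hw hw'
      have hcg : ∀ j < t, h j = f (g j) := by
        intro j hj
        show f (if j < t then g j else N + (j - t)) = f (g j)
        rw [if_pos hj]
      have key : ∀ g2 : ℕ → ℕ, StrictMono g2 →
          (Finset.range K).image g2 = (Finset.range K).image h →
          rl g2 w = rl (fun j => f (g j)) w ∧ rl g2 w' = rl (fun j => f (g j)) w' := by
        intro g2 hg2 himg
        have h1 := uniq hg2 hh himg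
        have h2 : ∀ j < t, g2 j = (fun j => f (g j)) j := fun j hj => by
          rw [h1 j (lt_of_lt_of_le hj ht), hcg j hj]
        exact ⟨rl_congr hw h2, rl_congr hw' h2⟩
      constructor
      · constructor
        · rintro ⟨g2, hg2, himg, h3⟩
          obtain ⟨h4, h5⟩ := key g2 hg2 himg
          unfold rec1 at h3 ⊢
          dsimp only at h3 ⊢
          rw [h4, h5] at h3
          exact h3
        · intro h3
          refine ⟨h, hh, rfl, ?_⟩
          obtain ⟨h4, h5⟩ := key h hh rfl
          unfold rec1 at h3 ⊢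
          dsimp only at h3 ⊢
          rw [h4, h5]
          exact h3
      · constructor
        · rintro ⟨g2, hg2, himg, h3⟩
          obtain ⟨h4, h5⟩ := key g2 hg2 himg
          unfold rec2 at h3 ⊢
          dsimp only at h3 ⊢
          rw [h4, h5] at h3
          exact h3
        · intro h3
          refine ⟨h, hh, rfl, ?_⟩
          obtain ⟨h4, h5⟩ := key h hh rfl
          unfold rec2 at h3 ⊢
          dsimp only at h3 ⊢
          rw [h4, h5]
          exact h3
  -- passage between `D` and the subchain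
  have hwd : ∀ t (g : ℕ → ℕ), StrictMono g → (∀ j < t, g j < N) → ∀ w, Wd M t w →
      Wd M (f N) (rl (fun j => f (g j)) w) := fun t g hg hgN w hw =>
    wd_rl hw (fun j hj => hf (hgN j hj)) fun a b hab _ => hf (hg hab)
  have hw2 : ∀ (g : ℕ → ℕ) w, wv (sc D f) (rl g w) = wv D (rl (fun j => f (g j)) w) := by
    intro g w
    funext v
    rw [wv_sc, rl_rl]
  have p1 : ∀ t (g : ℕ → ℕ), StrictMono g → (∀ j < t, g j < N) → ∀ w w', Wd M t w →
      Wd M t w' → (EqW (sc D f) N (rl g w) (rl g w') ↔
        rec1 D R (fun j => f (g j)) (w, w')) := by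
    intro t g hg hgN w w' hw hw'
    unfold rec1 EqW
    rw [hw2, hw2]
    constructor
    · intro h1 v hv
      exact h1 v (hG.le hfN le_rfl hv)
    · intro h1
      exact hG.eq_of hfN (hwd t g hg hgN w hw) (hwd t g hg hgN w' hw') h1
  have p2 : ∀ t (g : ℕ → ℕ), StrictMono g → (∀ j < t, g j < N) → ∀ w w', Wd M t w →
      Wd M t w' → (Fn ((sc D f).W N) (wv (sc D f) (rl g w)) (wv (sc D f) (rl g w')) ↔
        rec2 D R (fun j => f (g j)) (w, w')) := by
    intro t g hg hgN w w' hw hw'
    unfold rec2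
    rw [hw2, hw2]
    constructor
    · intro h1
      exact h1.mono (hG.le hfN le_rfl)
    · intro h1
      exact hG.fn_of hfN (hwd t g hg hgN w hw) (hwd t g hg hgN w' hw') h1
  intro t ht w w' hw hw' g g' hg hg' hlt
  obtain ⟨X, hXB, hXc, hX⟩ := main t ht g hg fun j hj => (hlt j hj).1
  obtain ⟨Y, hYB, hYc, hY⟩ := main t ht g' hg' fun j hj => (hlt j hj).2
  have hXY := hcol X Y hXB hXc hYB hYc
  have hX' := hX w w' hw hw'
  have hY' := hY w w' hw hw'
  rw [hXY] at hX'
  constructor
  · rw [p1 t g hg (fun j hj => (hlt j hj).1) w w' hw hw',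
      p1 t g' hg' (fun j hj => (hlt j hj).2) w w' hw hw']
    exact hX'.1.symm.trans hY'.1
  · rw [p2 t g hg (fun j hj => (hlt j hj).1) w w' hw hw',
      p2 t g' hg' (fun j hj => (hlt j hj).2) w w' hw hw']
    exact hX'.2.symm.trans hY'.2

end Pool.Agent.Lib.ILT
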