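import Pool.Agent.Lib.ILT.Stmts

/-!
# ILT, module Lab: words with constant index sequences
-/

set_option autoImplicit false

namespace Pool.Agent.Lib.ILT

namespace LabAux

variable {V : Type} {G : SimpleGraph V}

/-- The levels of a word of length `l + 1` with last level `b` start at least at `b + l`. -/
lemma level_le {M n b : ℕ} {w : List (ℕ × ℕ)} (hw : Wd M n w) (hb : Lst w b) :
    b + w.length ≤ n := by
  induction w generalizing n with
  | nil => exact absurd rfl hb.ne
  | cons x w ih =>
    by_cases hw' : w = []
    · subst hw'
      have h1 : x.1 = b := (lst_single x.1 x.2 b).mp hb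
      have h2 : x.1 < n := hw.1
      simp only [List.length_cons, List.length_nil]
      omega
    · have h1 := ih hw.2.2 ((Lst.cons hw').mp hb)
      have h2 : x.1 < n := hw.1
      rw [List.length_cons]
      omega

/-- The strictly monotone relabelling used for arrows. -/
def gg (c a j : ℕ) : ℕ := if j = 0 then c else if j = 1 then c + 1 else a + (j - 2)

lemma gg_mono {c a : ℕ} (h : c + 1 < a) : StrictMono (gg c a) := by
  intro i j hij
  unfold gg
  split_ifs <;> omega

/-- Arrows at arbitrary levels. -/
lemma arr_at {M N K k : ℕ} {D : Chn V} (hS : Sys G M N K k D) {i i' : ℕ} (hi : i < M)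
    (hi' : i' < M) (h : Arr D N i i') {c a : ℕ} (hca : c + 1 ≤ a) (ha : a < N) :
    EqW D N [(c + 1, i), (c, i')] [(a, i), (c, i')] := by
  rcases Nat.lt_or_ge (c + 1) a with h1 | h1
  · have hN : 4 * K + k ≤ N := hS.hN
    have hK : 3 ≤ K := hS.hK
    have h2 := (hS.hmg 3 hK [(1, i), (0, i')] [(2, i), (0, i')]
      ⟨by norm_num, hi, by norm_num, hi', trivial⟩ ⟨by norm_num, hi, by norm_num, hi', trivial⟩
      id (gg c a) strictMono_id (gg_mono h1) (fun j hj => by
        refine ⟨by show j < N; omega, ?_⟩
        unfold gg
        split_ifs <;> omega)).1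
    have h3 : EqW D N (rl id [(1, i), (0, i')]) (rl id [(2, i), (0, i')]) := h
    have h4 := h2.mp h3
    have e1 : rl (gg c a) [(1, i), (0, i')] = [(c + 1, i), (c, i')] := rfl
    have e2 : rl (gg c a) [(2, i), (0, i')] = [(a, i), (c, i')] := by
      simp [rl, gg]
    rw [e1, e2] at h4
    exact h4
  · have h2 : a = c + 1 := by omega
    subst h2
    intro v _
    rfl

end LabAux

open LabAux in
/-- Module `Lab`. -/
theorem stLab : StLab := by
  intro V G M N K k D hS n hn b w
  induction w generalizing n with
  | nil => intro _ hb; exact absurd rfl hb.ne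
  | cons x w ih =>
    intro hw hb hc v hv
    obtain ⟨a, i⟩ := x
    have ha : a < n := hw.1
    have hi : i < M := hw.2.1
    cases w with
    | nil =>
      have h1 : a = b := (lst_single a i b).mp hb
      subst h1
      rfl
    | cons y w =>
      obtain ⟨a', i'⟩ := y
      have hw' : Wd M a ((a', i') :: w) := hw.2.2
      have hb' : Lst ((a', i') :: w) b := (Lst.cons (List.cons_ne_nil _ _)).mp hb
      have hi' : i' < M := hw'.2.1
      have harr : Arr D N i i' := hc.2.1
      have hmem : D.nb a i v ∈ D.W a :=
        hS.good.sub a (by omega) (hS.good.mem a (by omega) v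
          (hS.good.le (m := a + 1) ha hn hv) i hi)
      have h1 := ih a (by omega) hw' hb' hc.2.2 (D.nb a i v) hmem
      have hl := level_le hw' hb'
      rw [List.length_cons] at hl
      change wv D ((a', i') :: w) (D.nb a i v) = _
      rw [h1]
      -- replace the first level
      have hlen : (List.map Prod.snd w).length = w.length := List.length_map _
      have h2 := arr_at hS hi hi' harr (c := b + w.length) (a := a) (by omega) (by omega)
      have h3 := hS.good.eq_of hn (w := [(b + w.length + 1, i), (b + w.length, i')])
        (w' := [(a, i), (b + w.length, i')])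
        ⟨by show b + w.length + 1 < n; omega, hi, by show b + w.length < b + w.length + 1; omega,
          hi', trivial⟩ ⟨ha, hi, by show b + w.length < a; omega, hi', trivial⟩ h2 v hv
      change D.nb (b + w.length) i' (D.nb (b + w.length + 1) i v) =
        D.nb (b + w.length) i' (D.nb a i v) at h3
      simp only [lab, List.map_cons, cw, wv, List.length_cons, hlen]
      rw [← Nat.add_assoc, h3]

end Pool.Agent.Lib.ILT
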