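import Pool.Agent.Lib.ILT.Stmts

/-!
# The integral zero-infinity law for all trees: colourings agree on all labels
-/

set_option autoImplicit false

namespace Pool.Agent.Lib.ILT

namespace MonAux

lemma last (h : StShf) {V : Type} {G : SimpleGraph V} {M N K k : ℕ} {D : Chn V}
    (hS : Sys G M N K k D) {n b : ℕ} (hn : n < N) {r : ℕ} {φ : V → Fin r}
    (h2 : ∀ u, Wd M n u → Lst u b → ∀ v ∈ D.W n, ∀ v' ∈ D.W n, φ (wv D u v) = φ (wv D u v')) :
    ∀ η : List ℕ, η ≠ [] → Cst M N D η → b + η.length ≤ n →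
      ∃ l < M, ∀ v ∈ D.W n, ∀ v' ∈ D.W n, φ (lab D η b v) = φ (D.nb b l v') := by
  intro η
  induction η with
  | nil => intro h0; exact absurd rfl h0
  | cons i θ ih =>
    intro h0 hc hl
    have hlt := hc.lt
    cases θ with
    | nil =>
      refine ⟨i, hlt i (by simp), fun v hv v' hv' => ?_⟩
      exact h2 (cw b [i]) (wd_cw hlt hl) (lst_cw h0) v hv v' hv'
    | cons j θ =>
      have hl' : b + (j :: θ).length ≤ n := by
        rw [List.length_cons] at hl
        omega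
      obtain ⟨l, hlM, h3⟩ := ih (by simp) hc.tail hl'
      refine ⟨l, hlM, fun v hv v' hv' => ?_⟩
      obtain ⟨v0, hv0⟩ := hS.good.nonempty (n := n + 1) hn
      have hv0n : v0 ∈ D.W n := hS.good.anti n hn hv0
      have e1 : φ (lab D (i :: j :: θ) b v) = φ (lab D (i :: j :: θ) b v0) :=
        h2 (cw b (i :: j :: θ)) (wd_cw hlt hl) (lst_cw h0) v hv v0 hv0n
      have e2 := (h V G M N K k D hS (j :: θ) [i] (by simp) (by simp)
        (by simpa using hc) b n (n + 1) hl' (by simp) hn v0 hv0).2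
      have e3 : lab D [i] n v0 = D.nb n i v0 := rfl
      have e4 : D.nb n i v0 ∈ D.W n :=
        hS.good.sub n hn (hS.good.mem n hn v0 hv0 i (hlt i (by simp)))
      rw [e3, List.singleton_append] at e2
      rw [e1, ← e2]
      exact h3 _ e4 v' hv'

lemma lt (h : StShf) {V : Type} {G : SimpleGraph V} {M N K k : ℕ} {D : Chn V}
    (hS : Sys G M N K k D) {η η' : List ℕ} (h0 : η ≠ []) (h0' : η' ≠ []) (hc : Cst M N D η)
    (hc' : Cst M N D η') {b n : ℕ} (hl : b + η.length ≤ n) (hl' : b + η'.length ≤ n)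
    (hn : n < N) (r : ℕ) (φ : V → Fin r) :
    Sm G {v | v ∈ D.W n ∧ φ (lab D η b v) ≠ φ (lab D η' b v)} := by
  rcases hS.good.mon n hn.le b (cw b η) (cw b η') (wd_cw hc.lt hl) (wd_cw hc'.lt hl')
    (lst_cw h0) (lst_cw h0') with h1 | ⟨r', ψ, h1, h2, h3⟩
  · exact h1 r φ
  · obtain ⟨v, hv⟩ := hS.good.nonempty (n := n) hn.le
    obtain ⟨l, hl1, hl2⟩ := last h hS hn h2 η h0 hc hl
    obtain ⟨l', hl1', hl2'⟩ := last h hS hn h2 η' h0' hc' hl'
    refine absurd ?_ (h1 v hv)
    exact (hl2 v hv v hv).trans ((h3 v hv l hl1 l' hl1').trans (hl2' v hv v hv).symm)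

end MonAux

theorem stMon (h : StShf) : StMon := by
  intro V G M N K k D hS η η' h0 h0' hc hc' b n hl hl' hn hlt hlt' r φ
  rcases hn.lt_or_eq with h1 | h1
  · exact MonAux.lt h hS h0 h0' hc hc' hl hl' h1 r φ
  · subst h1
    have hN : 0 < n := by omega
    refine Sm.mono ?_ (MonAux.lt h hS h0 h0' hc hc' (b := b) (n := n - 1) (by omega) (by omega)
      (by omega) r φ)
    rintro v ⟨hv, hv'⟩
    exact ⟨hS.good.le (by omega) le_rfl hv, hv'⟩

end Pool.Agent.Lib.ILT
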