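import Pool.Agent.Lib.ILT.Stmts

/-!
# The integral zero-infinity law for all trees: module `Per`
-/

set_option autoImplicit false

namespace Pool.Agent.Lib.ILT

namespace Per

variable {V : Type} {G : SimpleGraph V} {M N K k : ℕ} {D : Chn V}

lemma rl_cw (c b : ℕ) (η : List ℕ) : rl (fun x => x + c) (cw b η) = cw (b + c) η := by
  induction η with
  | nil => rfl
  | cons i η ih =>
    show ((b + η.length + c, i) :: rl (fun x => x + c) (cw b η)) =
      (b + c + η.length, i) :: cw (b + c) η
    rw [ih, show b + η.length + c = b + c + η.length by omega]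

lemma rep_ne {m : ℕ} (hm : 1 ≤ m) (i : ℕ) : List.replicate m i ≠ [] := by
  intro h
  have h1 := congrArg List.length h
  rw [List.length_replicate, List.length_nil] at h1
  omega

/-- An equality of two labels holds everywhere. -/
lemma all (hS : Sys G M N K k D) {i : ℕ} (hi : i < M) {m d : ℕ} (hd : m + d ≤ K) {b n : ℕ}
    (hb : b + (m + d) ≤ n) (hn : n ≤ N) {v : V} (hv : v ∈ D.W n)
    (h : lab D (List.replicate m i) b v = lab D (List.replicate (m + d) i) b v) :
    ∀ b', b' + (m + d) ≤ N →
      EqW D N (cw b' (List.replicate m i)) (cw b' (List.replicate (m + d) i)) := by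
  have hrep : ∀ r, ∀ j ∈ List.replicate r i, j < M := fun r j hj => by
    rw [List.eq_of_mem_replicate hj]
    exact hi
  have h1 : EqW D N (cw b (List.replicate m i)) (cw b (List.replicate (m + d) i)) :=
    hS.good.eqW_of hn (wd_cw (hrep m) (by rw [List.length_replicate]; omega))
      (wd_cw (hrep (m + d)) (by rw [List.length_replicate]; omega)) hv h
  intro b' hb'
  have h2 := (hS.hmg (m + d) hd (cw 0 (List.replicate m i)) (cw 0 (List.replicate (m + d) i))
    (wd_cw (hrep m) (by rw [List.length_replicate]; omega))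
    (wd_cw (hrep (m + d)) (by rw [List.length_replicate]; omega))
    (fun x => x + b) (fun x => x + b') (fun x y hxy => by show x + b < y + b; omega)
    (fun x y hxy => by show x + b' < y + b'; omega)
    (fun j hj => ⟨by show j + b < N; omega, by show j + b' < N; omega⟩)).1
  rw [rl_cw, rl_cw, rl_cw, rl_cw, zero_add, zero_add] at h2
  exact h2.1 h1

lemma clique (hS : Sys G M N K k D) (y : ℕ → V)
    (h : ∀ b c, b < c → c < k → G.Adj (y c) (y b)) : False := by
  classical
  have hadj : ∀ b < k, ∀ c < k, b ≠ c → G.Adj (y b) (y c) := by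
    intro b hb c hc hbc
    rcases lt_or_gt_of_ne hbc with h1 | h1
    · exact (h b c h1 hc).symm
    · exact h c b h1 hb
  have hinj : Set.InjOn y (Finset.range k : Set ℕ) := by
    intro b hb c hc hbc
    by_contra hne
    rw [Finset.mem_coe, Finset.mem_range] at hb hc
    exact (hadj b hb c hc hne).ne hbc
  refine hS.cf ((Finset.range k).image y) ?_
  rw [SimpleGraph.isNClique_iff]
  refine ⟨?_, by rw [Finset.card_image_of_injOn hinj, Finset.card_range]⟩
  intro u hu v hv huv
  rw [Finset.mem_coe, Finset.mem_image] at hu hv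
  obtain ⟨b, hb, rfl⟩ := hu
  obtain ⟨c, hc, rfl⟩ := hv
  rw [Finset.mem_range] at hb hc
  exact hadj b hb c hc (fun h => huv (by rw [h]))

/-- Composition of labels with constant indices. -/
lemma comp (hShf : StShf) (hS : Sys G M N K k D) {i : ℕ} (hi : i < M) (hii : Arr D N i i)
    {a c b b' n : ℕ} (ha : 1 ≤ a) (hc : 1 ≤ c) (hb : b + a ≤ b') (hb' : b' + c ≤ n)
    (hn : n ≤ N) {v : V} (hv : v ∈ D.W n) :
    lab D (List.replicate c i) b' v ∈ D.S b' ∧
      lab D (List.replicate a i) b (lab D (List.replicate c i) b' v) =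
        lab D (List.replicate (c + a) i) b v := by
  have h1 : List.replicate c i ++ List.replicate a i = List.replicate (c + a) i :=
    List.replicate_append_replicate
  have h2 := hShf V G M N K k D hS (List.replicate a i) (List.replicate c i) (rep_ne ha i)
    (rep_ne hc i) (by rw [h1]; exact Cst.replicate hi hii _) b b' n
    (by rw [List.length_replicate]; exact hb) (by rw [List.length_replicate]; exact hb') hn v hv
  rw [h1] at h2
  exact h2

lemma lab_one (i b : ℕ) (v : V) : lab D (List.replicate 1 i) b v = D.nb b i v := rfl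

/-- The case `d = 1`. -/
lemma one (hShf : StShf) (hS : Sys G M N K k D) {i : ℕ} (hi : i < M) (hii : Arr D N i i)
    {m : ℕ} (hm : 1 ≤ m) (hmK : m + 1 ≤ K) {b n : ℕ} (hb : b + (m + 1) ≤ n) (hn : n ≤ N)
    {v : V} (hv : v ∈ D.W n) :
    lab D (List.replicate m i) b v ≠ lab D (List.replicate (m + 1) i) b v := by
  intro h
  have hall := all hS hi hmK hb hn hv h
  obtain ⟨v, hv⟩ := hS.good.nonempty (n := N) le_rfl
  have hN := hS.hN
  have hK := hS.hK
  refine clique hS (fun b => lab D (List.replicate m i) b v) ?_
  intro b c hbc hc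
  obtain ⟨h1, h2⟩ := comp hShf hS hi hii (a := 1) (c := m) (b := b) (b' := c) (n := N) le_rfl hm
    (by omega) (by omega) le_rfl hv
  have h3 : lab D (List.replicate m i) b v = lab D (List.replicate (m + 1) i) b v :=
    hall b (by omega) v hv
  have h4 := (comp hShf hS hi hii (a := 1) (c := m) (b := 0) (b' := b + 1) (n := N) le_rfl hm
    (by omega) (by omega) le_rfl hv).1
  have hbS : lab D (List.replicate m i) b v ∈ D.S b :=
    hS.good.wv_mem le_rfl (wd_cw (fun j hj => by rw [List.eq_of_mem_replicate hj]; exact hi)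
      (by rw [List.length_replicate]; omega)) (lst_cw (rep_ne hm i)) hv
  have hcW : lab D (List.replicate m i) c v ∈ D.W (b + 1) :=
    hS.good.le (m := b + 1) (n := c) hbc (by omega) (hS.good.sub c (by omega) h1)
  refine (hS.good.adj b (by omega) _ hcW _ hbS).2 ⟨i, hi, ?_⟩
  rw [h3, ← h2, lab_one]

/-- An injective colouring of a finite set. -/
lemma psi (d : ℕ) (C : Finset V) (hC : C.card ≤ d) : ∃ ψ : V → Fin (d + 1), Set.InjOn ψ C := by
  classical
  obtain ⟨f⟩ : Nonempty (C ↪ Fin (d + 1)) := by
    rw [Function.Embedding.nonempty_iff_card_le, Fintype.card_coe, Fintype.card_fin]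
    omega
  refine ⟨fun v => if h : v ∈ C then f ⟨v, h⟩ else 0, ?_⟩
  intro u hu v hv huv
  rw [Finset.mem_coe] at hu hv
  simp only [hu, hv, dif_pos] at huv
  have := f.injective huv
  exact congrArg Subtype.val this

end Per

/-- Module `Per`: no periods. -/
theorem stPer (hS : StShf) (hM : StMon) : StPer := by
  classical
  intro V G M N K k D hSys i hi hii m d hm hd hmd b n hb hn v hv heq
  have hN := hSys.hN
  have hK := hSys.hK
  have hall := Per.all hSys hi hmd hb hn hv heq
  rcases Nat.lt_or_ge d 2 with hd2 | hd2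
  · have hd1 : d = 1 := by omega
    subst hd1
    exact Per.one hS hSys hi hii hm hmd hb hn hv heq
  -- the colouring
  have hex : ∀ C : Finset V, ∃ ψ : V → Fin (d + 1), C.card ≤ d → Set.InjOn ψ C := by
    intro C
    by_cases hC : C.card ≤ d
    · obtain ⟨ψ, hψ⟩ := Per.psi d C hC
      exact ⟨ψ, fun _ => hψ⟩
    · exact ⟨fun _ => 0, fun h => absurd h hC⟩
  choose ψ hψ using hex
  let c : ℕ → V → V := fun j p => lab D (List.replicate j i) 0 p
  let CC : V → Finset V := fun p => (Finset.Icc 1 d).image (fun j => c j p)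
  let φ : V → Fin (d + 1) := fun p => ψ (CC p) (c 1 p)
  have hcard : ∀ p, (CC p).card ≤ d := by
    intro p
    refine Finset.card_image_le.trans ?_
    rw [Nat.card_Icc]
    omega
  have hCi := Cst.replicate (N := N) (D := D) hi hii
  have hmon := hM V G M N K k D hSys (List.replicate m i) (List.replicate (m + 1) i)
    (Per.rep_ne hm i) (Per.rep_ne (by omega) i) (hCi m) (hCi (m + 1)) d N
    (by rw [List.length_replicate]; omega) (by rw [List.length_replicate]; omega) le_rfl
    (by rw [List.length_replicate]; omega) (by rw [List.length_replicate]; omega) (d + 1) φ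
  refine hSys.good.big N le_rfl (hmon.mono ?_)
  intro v hv
  refine ⟨hv, ?_⟩
  -- the labels of `v`
  have hp : ∀ j, 1 ≤ j → j ≤ d →
      c j (lab D (List.replicate m i) d v) = c (m + j) v := fun j hj1 hj2 =>
    (Per.comp hS hSys hi hii (a := j) (c := m) (b := 0) (b' := d) (n := N) hj1 hm (by omega)
      (by omega) le_rfl hv).2
  have hq : ∀ j, 1 ≤ j → j ≤ d →
      c j (lab D (List.replicate (m + 1) i) d v) = c (m + 1 + j) v := fun j hj1 hj2 =>
    (Per.comp hS hSys hi hii (a := j) (c := m + 1) (b := 0) (b' := d) (n := N) hj1 (by omega)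
      (by omega) (by omega) le_rfl hv).2
  -- the shifted equality
  have hshift : c (m + 1) v = c (m + d + 1) v := by
    have hu := (Per.comp hS hSys hi hii (a := m) (c := 1) (b := 0) (b' := N - 1) (n := N) hm le_rfl
      (by omega) (by omega) le_rfl hv)
    have hu' := (Per.comp hS hSys hi hii (a := m + d) (c := 1) (b := 0) (b' := N - 1) (n := N)
      (by omega) le_rfl (by omega) (by omega) le_rfl hv)
    have hW : lab D (List.replicate 1 i) (N - 1) v ∈ D.W (N - 1) :=
      hSys.good.sub (N - 1) (by omega) hu.1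
    have hrep : ∀ r, ∀ j ∈ List.replicate r i, j < M := fun r j hj => by
      rw [List.eq_of_mem_replicate hj]
      exact hi
    have he := hSys.good.eq_of (n := N - 1) (by omega)
      (wd_cw (b := 0) (hrep m) (by rw [List.length_replicate]; omega))
      (wd_cw (b := 0) (hrep (m + d)) (by rw [List.length_replicate]; omega))
      (hall 0 (by omega)) _ hW
    have h1 : c (1 + m) v = c (1 + (m + d)) v := by
      rw [← show _ = c (1 + m) v from hu.2, ← show _ = c (1 + (m + d)) v from hu'.2]
      exact he
    rw [show m + 1 = 1 + m by omega, show m + d + 1 = 1 + (m + d) by omega]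
    exact h1
  have hne : c (m + 1) v ≠ c (m + 2) v :=
    Per.one hS hSys hi hii (m := m + 1) (by omega) (by omega) (b := 0) (n := N) (by omega) le_rfl
      hv
  -- the two sets agree
  have hsets : CC (lab D (List.replicate m i) d v) =
      CC (lab D (List.replicate (m + 1) i) d v) := by
    ext x
    simp only [CC, Finset.mem_image, Finset.mem_Icc]
    constructor
    · rintro ⟨j, ⟨hj1, hj2⟩, rfl⟩
      rw [hp j hj1 hj2]
      by_cases hj : j = 1
      · subst hj
        refine ⟨d, ⟨by omega, le_rfl⟩, ?_⟩
        rw [hq d (by omega) le_rfl, hshift]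
        congr 1
        omega
      · refine ⟨j - 1, ⟨by omega, by omega⟩, ?_⟩
        rw [hq (j - 1) (by omega) (by omega)]
        congr 1
        omega
    · rintro ⟨j, ⟨hj1, hj2⟩, rfl⟩
      rw [hq j hj1 hj2]
      by_cases hj : j = d
      · subst hj
        refine ⟨1, ⟨le_rfl, by omega⟩, ?_⟩
        rw [hp 1 le_rfl (by omega), hshift]
        congr 1
        omega
      · refine ⟨j + 1, ⟨by omega, by omega⟩, ?_⟩
        rw [hp (j + 1) (by omega) (by omega)]
        congr 1
        omega
  intro hφ
  have hφ' : ψ (CC (lab D (List.replicate m i) d v)) (c 1 (lab D (List.replicate m i) d v)) =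
      ψ (CC (lab D (List.replicate m i) d v)) (c 1 (lab D (List.replicate (m + 1) i) d v)) := by
    have h1 : φ (lab D (List.replicate m i) d v) = φ (lab D (List.replicate (m + 1) i) d v) := hφ
    simp only [φ] at h1
    rwa [← hsets] at h1
  have hmem1 : c 1 (lab D (List.replicate m i) d v) ∈ CC (lab D (List.replicate m i) d v) :=
    Finset.mem_image.2 ⟨1, Finset.mem_Icc.2 ⟨le_rfl, by omega⟩, rfl⟩
  have hmem2 : c 1 (lab D (List.replicate (m + 1) i) d v) ∈
      CC (lab D (List.replicate m i) d v) := by
    rw [hsets]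
    exact Finset.mem_image.2 ⟨1, Finset.mem_Icc.2 ⟨le_rfl, by omega⟩, rfl⟩
  have h2 := hψ _ (hcard _) hmem1 hmem2 hφ'
  rw [hp 1 le_rfl (by omega), hq 1 le_rfl (by omega)] at h2
  exact hne (h2.trans (by congr 1))

end Pool.Agent.Lib.ILT
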