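import Pool.Agent.Lib.ILT.Stmts

/-!
# Module `Rch`: most hubs are rich
-/

set_option autoImplicit false

namespace Pool.Agent.Lib.ILT

theorem stRch : StRch := by
  classical
  intro V G M n0 κ σ W S Z hR i
  have hmono : ∀ s ≤ n0, ∀ A : Set V, Sm G {v | v ∈ W ∧ Z (κ + 1) σ s v ∉ A} →
      Sm G {v | v ∈ W ∧ Z κ σ s v ∉ A} := by
    intro s hs A h
    refine (h.union (hR.mono s hs A)).mono ?_
    rintro v ⟨hv, h1⟩
    by_cases h2 : Z (κ + 1) σ s v ∈ A
    · right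
      exact ⟨hv, fun h3 => h1 (h3.2 h2)⟩
    · left
      exact ⟨hv, h2⟩
  induction i with
  | zero =>
    intro s hs
    have h0 : Sm G {v | v ∈ W ∧ Z (κ + 1) σ s v ∉ Rich G M n0 κ σ W S Z 0 s} := by
      refine Sm.empty.mono ?_
      rintro v ⟨hv, h⟩
      exact absurd (hR.mem (κ + 1) le_rfl σ hR.hσ s hs v hv) h
    exact ⟨hmono s hs _ h0, h0⟩
  | succ i ih =>
    intro s hs
    have h0 : Sm G {v | v ∈ W ∧ Z (κ + 1) σ s v ∉ Rich G M n0 κ σ W S Z (i + 1) s} := by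
      have hbad : ∀ p : V, ∃ (c : ℕ) (Y : Finset V), p ∈ S s →
          p ∉ Rich G M n0 κ σ W S Z (i + 1) s → s < c ∧ c ≤ n0 ∧ Y.card ≤ n0 ∧
          ∀ v ∈ W, Z (κ + 1) σ s v = p → Z κ σ c v ∈ Rich G M n0 κ σ W S Z i c →
            ∃ m ≤ κ + 1, ∃ l < M, ∃ b ≤ n0, NFn G W (Z (κ + 1) σ s) (Z m l b) ∧
              Z m l b v ∈ Y := by
        intro p
        by_cases h1 : p ∈ S s ∧ p ∉ Rich G M n0 κ σ W S Z (i + 1) s
        · obtain ⟨hp, hp'⟩ := h1
          by_contra hne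
          apply hp'
          refine ⟨hp, fun c hc hc' Y hY => ?_⟩
          by_contra h3
          apply hne
          refine ⟨c, Y, fun _ _ => ⟨hc, hc', hY, fun v hv h4 h5 => ?_⟩⟩
          by_contra h6
          apply h3
          refine ⟨v, hv, h4, h5, fun m hm l hl b hb h7 h8 => ?_⟩
          exact h6 ⟨m, hm, l, hl, b, hb, h7, h8⟩
        · exact ⟨0, ∅, fun h2 h3 => absurd ⟨h2, h3⟩ h1⟩
      choose c Y hcY using hbad
      let F : ℕ → V → V := fun t p => (Y p).toList.getD t p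
      let A1 : Fin (n0 + 1) → Set V := fun c => {v | v ∈ W ∧ Z κ σ c v ∉
        Rich G M n0 κ σ W S Z i c}
      let A2 : Fin (κ + 2) × Fin M × Fin (n0 + 1) × Fin (n0 + 1) → Set V := fun x =>
        {v | NFn G W (Z (κ + 1) σ s) (Z x.1 x.2.1 x.2.2.1) ∧ v ∈ W ∧
          Z x.1 x.2.1 x.2.2.1 v = F x.2.2.2 (Z (κ + 1) σ s v)}
      have h1 : Sm G (⋃ c, A1 c) := by
        refine Sm.iUnion fun c => ?_
        exact (ih c (by omega)).1
      have h2 : Sm G (⋃ x, A2 x) := by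
        refine Sm.iUnion fun x => ?_
        by_cases h3 : NFn G W (Z (κ + 1) σ s) (Z x.1 x.2.1 x.2.2.1)
        · exact (h3 (F x.2.2.2)).mono fun v hv => hv.2
        · exact Sm.empty.mono fun v hv => absurd hv.1 h3
      refine (h1.union h2).mono ?_
      rintro v ⟨hv, h3⟩
      have h4 := hR.mem (κ + 1) le_rfl σ hR.hσ s hs v hv
      obtain ⟨h5, h6, h7, h8⟩ := hcY (Z (κ + 1) σ s v) h4 h3
      by_cases h9 : Z κ σ (c (Z (κ + 1) σ s v)) v ∈
        Rich G M n0 κ σ W S Z i (c (Z (κ + 1) σ s v))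
      · right
        obtain ⟨m, hm, l, hl, b, hb, h10, h11⟩ := h8 v hv rfl h9
        rw [← Finset.mem_toList] at h11
        obtain ⟨t, ht, h12⟩ := List.getElem_of_mem h11
        rw [Finset.length_toList] at ht
        refine Set.mem_iUnion.2 ⟨(⟨m, by omega⟩, ⟨l, hl⟩, ⟨b, by omega⟩, ⟨t, by omega⟩),
          h10, hv, ?_⟩
        change Z m l b v = (Y (Z (κ + 1) σ s v)).toList.getD t (Z (κ + 1) σ s v)
        rw [List.getD_eq_getElem _ _ (by rw [Finset.length_toList]; exact ht), h12]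
      · left
        exact Set.mem_iUnion.2 ⟨⟨c (Z (κ + 1) σ s v), by omega⟩, hv, h9⟩
    exact ⟨hmono s hs _ h0, h0⟩

end Pool.Agent.Lib.ILT
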