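import Pool.Agent.Lib.ILT.Stmts

/-!
# The integral zero-infinity law for all trees: module `Red`, the reduced system
-/

set_option autoImplicit false

namespace Pool.Agent.Lib.ILT

open Pool.Agent.Lib.FracGS (pat)

namespace RedAux

variable {V : Type} {G : SimpleGraph V}

lemma xl_lt {M σ m l : ℕ} (hσ : σ < M) (hl : l < M) :
    ∀ i ∈ List.replicate m σ ++ [l], i < M := by
  intro i hi
  rw [List.mem_append] at hi
  rcases hi with hi | hi
  · rw [List.eq_of_mem_replicate hi]
    exact hσ
  · rw [List.mem_singleton] at hi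
    rw [hi]
    exact hl

lemma xl_len (σ m l : ℕ) : (List.replicate m σ ++ [l]).length = m + 1 := by
  rw [List.length_append, List.length_replicate, List.length_singleton]

lemma xl_ne (σ m l : ℕ) : List.replicate m σ ++ [l] ≠ [] := by
  intro h
  have := congrArg List.length h
  rw [xl_len] at this
  simp at this

lemma cst_xl {M N : ℕ} {D : Chn V} {σ : ℕ} (hσ : σ < M) (hj : ∀ j < M, Arr D N σ j) (m : ℕ)
    {l : ℕ} (hl : l < M) : Cst M N D (List.replicate m σ ++ [l]) := by
  refine Cst.replicate_append hσ (hj σ hσ) m (η := [l]) hl ?_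
  intro j hj'
  have h : j = l := by
    simpa using hj'.symm
  rw [h]
  exact hj l hl

end RedAux

open RedAux in
/-- Module `Red`: the reduced system. -/
theorem stRed (h1 : StStp) (h2 : StSnk) (h3 : StShf) (h4 : StMon) (h5 : StSk2) (h6 : StUp)
    (h7 : StDn) : StRed := by
  classical
  intro n0 par hpar V G M N K k D hS hK hpat
  have hM := hS.hM
  have hN := hS.hN
  have hKa : 4 * ((n0 + 2) * (M + 2)) + 16 ≤ K := le_trans (Nat.le_add_right _ _) hK
  have hKb : (n0 + 1 + 2) ^ (M + 1) ≤ K := by
    have : n0 + 1 + 2 = n0 + 3 := by omega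
    rw [this]
    omega
  have hprod : (n0 + 2) * (M + 2) = (n0 + 2) * M + 2 * (n0 + 2) := by ring
  have hKc : n0 + 1 ≤ K := by omega
  obtain ⟨hii, hex⟩ := h2 M (Arr D N) hM fun idx hidx =>
    h1 V G M N K k D hS n0 par hpar hKc hpat idx hidx
  obtain ⟨σ, hσ, hσj, hsk⟩ := h5 V G M N K k D hS hii hex (n0 + 1) hKb
  obtain ⟨κ, hκ1, hκ2, hdn⟩ := h7 V G M N K k D hS hii σ hσ hσj n0 hKa
  have hκN : n0 + (2 * κ + 16) ≤ N := by
    have : 2 * κ ≤ 2 * (n0 + 1) + 2 * ((n0 + 2) * M) := by omega
    omega
  have hκK : 2 * κ + 10 ≤ K := by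
    have : 2 * κ ≤ 2 * (n0 + 1) + 2 * ((n0 + 2) * M) := by omega
    omega
  have hgood := hS.good
  have hmem : ∀ m ≤ κ + 1, ∀ l < M, ∀ b ≤ n0, ∀ v ∈ D.W N, XL D σ m l b v ∈ D.S b := by
    intro m hm l hl b hb v hv
    refine hgood.wv_mem (n := N) le_rfl (wd_cw (xl_lt hσ hl) ?_) (lst_cw (xl_ne σ m l)) hv
    rw [xl_len]
    omega
  refine ⟨κ, σ, hgood.big N le_rfl, hκ1, hσ, hmem, ?_, ?_, ?_, ?_, ?_, ?_, ?_⟩
  · -- dis
    have key : ∀ b b', b < b' → b' ≤ n0 → Disjoint (D.S b) (D.S b') := by
      intro b b' hbb hb'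
      refine Set.disjoint_of_subset_right ?_ (hgood.dis b (by omega))
      exact (hgood.sub b' (by omega)).trans (hgood.le hbb (by omega))
    intro b hb b' hb' hne
    rcases lt_or_gt_of_ne hne with h | h
    · exact key b b' h hb'
    · exact (key b' b h hb).symm
  · -- nbr
    intro j hj i hij v hv s hs
    have hx : XL D σ κ σ j v ∈ D.W (i + 1) :=
      hgood.le (m := i + 1) (n := j) hij (by omega)
        (hgood.sub j (by omega) (hmem κ (by omega) σ hσ j hj v hv))
    rw [hgood.adj i (by omega) _ hx s hs]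
    have he : ∀ l < M, D.nb i l (XL D σ κ σ j v) = XL D σ (κ + 1) l i v := by
      intro l hl
      have hc : Cst M N D ((List.replicate κ σ ++ [σ]) ++ [l]) := by
        have h := cst_xl (D := D) (N := N) hσ hσj (κ + 1) hl
        rw [List.replicate_succ'] at h
        exact h
      have h := (h3 V G M N K k D hS [l] (List.replicate κ σ ++ [σ]) (by simp)
        (xl_ne σ κ σ) hc i j N (by simp; omega) (by rw [xl_len]; omega) le_rfl v hv).2
      have e : XL D σ (κ + 1) l i v = lab D ((List.replicate κ σ ++ [σ]) ++ [l]) i v := by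
        unfold XL
        rw [List.replicate_succ']
      rw [e, ← h]
      rfl
    constructor
    · rintro ⟨l, hl, h⟩
      exact ⟨l, hl, by rw [h, he l hl]⟩
    · rintro ⟨l, hl, h⟩
      exact ⟨l, hl, by rw [h, he l hl]⟩
  · -- mono
    intro b hb A
    have h := h4 V G M N K k D hS (List.replicate κ σ ++ [σ]) (List.replicate (κ + 1) σ ++ [σ])
      (xl_ne σ κ σ) (xl_ne σ (κ + 1) σ) (cst_xl hσ hσj κ hσ) (cst_xl hσ hσj (κ + 1) hσ) b N
      (by rw [xl_len]; omega) (by rw [xl_len]; omega) le_rfl (by rw [xl_len]; omega)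
      (by rw [xl_len]; omega) 2 (fun v => if v ∈ A then 1 else 0)
    refine h.mono ?_
    rintro v ⟨hv, hne⟩
    refine ⟨hv, fun heq => hne ?_⟩
    change (if XL D σ κ σ b v ∈ A then (1 : Fin 2) else 0) =
      (if XL D σ (κ + 1) σ b v ∈ A then (1 : Fin 2) else 0) at heq
    by_cases h1 : XL D σ κ σ b v ∈ A
    · by_cases h2 : XL D σ (κ + 1) σ b v ∈ A
      · exact ⟨fun _ => h2, fun _ => h1⟩
      · rw [if_pos h1, if_neg h2] at heq
        exact absurd heq (by decide)
    · by_cases h2 : XL D σ (κ + 1) σ b v ∈ A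
      · rw [if_neg h1, if_pos h2] at heq
        exact absurd heq (by decide)
      · exact ⟨fun h => absurd h h1, fun h => absurd h h2⟩
  · -- dic
    intro s hs m hm l hl b hb
    refine hgood.dep N le_rfl (cw s (List.replicate (κ + 1) σ ++ [σ]))
      (cw b (List.replicate m σ ++ [l])) (wd_cw (xl_lt hσ hσ) ?_) (wd_cw (xl_lt hσ hl) ?_)
    · rw [xl_len]
      omega
    · rw [xl_len]
      omega
  · -- up
    intro s b hb hsb e he l hl
    have hje : (κ + 1 - e) + e = κ + 1 := by omega
    have h := h6 V G M N K k D hS hii σ hσ hσj l hl (κ + 1 - e) e (by omega) s b hsb (by omega)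
    rw [hje] at h
    exact h
  · -- d1
    intro v hv e he b hb l hl
    have hc1 : Cst M N D (List.replicate (κ - e) σ ++ [l]) := cst_xl hσ hσj (κ - e) hl
    have hc2 : Cst M N D (List.replicate (κ - e) σ ++ List.replicate (e + 2) σ) := by
      rw [List.replicate_append_replicate]
      exact Cst.replicate hσ (hσj σ hσ) _
    have hne : List.replicate (κ - e) σ ≠ [] := by
      intro h
      have := congrArg List.length h
      rw [List.length_replicate] at this
      simp at this
      omega
    have hne2 : List.replicate (e + 2) σ ≠ [] := by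
      intro h
      have := congrArg List.length h
      rw [List.length_replicate] at this
      simp at this
    obtain ⟨hu1, hu2⟩ := h3 V G M N K k D hS [l] (List.replicate (κ - e) σ) (by simp) hne hc1 b
      (b + (e + 2)) N (by simp) (by rw [List.length_replicate]; omega) le_rfl v hv
    obtain ⟨-, hu3⟩ := h3 V G M N K k D hS (List.replicate (e + 2) σ)
      (List.replicate (κ - e) σ) hne2 hne hc2 b (b + (e + 2)) N
      (by rw [List.length_replicate]) (by rw [List.length_replicate]; omega) le_rfl v hv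
    set u := lab D (List.replicate (κ - e) σ) (b + (e + 2)) v with hu
    have huW : u ∈ D.W (b + (e + 2)) := hgood.sub _ (by omega) hu1
    have h := hsk l hl (e + 1) (by omega) (by omega) b (b + (e + 2)) (by omega) (by omega) u huW
    intro heq
    apply h
    have e1 : D.nb b l u = XL D σ (κ - e) l b v := hu2
    have e2 : lab D (List.replicate (e + 1 + 1) σ) b u = XL D σ (κ + 1) σ b v := by
      have : e + 1 + 1 = e + 2 := by omega
      rw [this, hu3, List.replicate_append_replicate]
      unfold XL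
      rw [← List.replicate_succ']
      congr 2
      omega
    rw [e1, e2]
    exact heq
  · -- dn
    intro b hb b' hb' e he l hl hfn
    exact hdn b b' hb' (by omega) e he l hl hfn

end Pool.Agent.Lib.ILT
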