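import Pool.Agent.Lib.ILT.Stmts

/-!
# The integral zero-infinity law for all trees: no dependence between labels of the same level
-/

set_option autoImplicit false

namespace Pool.Agent.Lib.ILT

theorem stSam (h3 : StF3) (hM : StMon) : StSam := by
  intro V G M N K k D hS η η' hη hη' hc hc' b n h1 h2 hn h1' h2' F hbig
  rcases hS.good.hom n hn (cw b η') (cw b η) (wd_cw hc'.lt h2) (wd_cw hc.lt h1) with h | h
  · exact h
  · exfalso
    obtain ⟨φ, hφ⟩ := h3 V F
    refine hbig ((hM V G M N K k D hS η η' hη hη' hc hc' b n h1 h2 hn h1' h2' 3 φ).mono ?_)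
    rintro v ⟨hv, hF⟩
    refine ⟨hv, ?_⟩
    rw [hF]
    exact hφ _ (by rw [← hF]; exact h v hv)

end Pool.Agent.Lib.ILT
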