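import Pool.Agent.Lib.ILT.Stmts

/-!
# The integral zero-infinity law: all `M` simultaneously
-/

set_option autoImplicit false

namespace Pool.Agent.Lib.ILT

open Pool.Agent.Lib.FracGS (pat)

namespace SeqAux

/-- The law is hereditary. -/
lemma law_her {V V' : Type} {G : SimpleGraph V} {G' : SimpleGraph V'} (f : G' ↪g G) {M C : ℕ}
    (h : Law G M C) : Law G' M C := by
  intro S'
  have key : ∀ v, nbs G (f '' S') (f v) = f '' nbs G' S' v := by
    intro v
    ext u
    constructor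
    · rintro ⟨⟨s, hs, rfl⟩, hu⟩
      exact ⟨s, ⟨hs, f.map_adj_iff.1 hu⟩, rfl⟩
    · rintro ⟨s, ⟨hs, hadj⟩, rfl⟩
      exact ⟨⟨s, hs, rfl⟩, f.map_adj_iff.2 hadj⟩
  have hcard : ∀ v, (nbs G (f '' S') (f v)).ncard = (nbs G' S' v).ncard := by
    intro v
    rw [key, Set.ncard_image_of_injective _ f.injective]
  have hmem : ∀ v, v ∈ {v | v ∉ S' ∧ 0 < (nbs G' S' v).ncard ∧ (nbs G' S' v).ncard ≤ M} →
      f v ∈ {v | v ∉ f '' S' ∧ 0 < (nbs G (f '' S') v).ncard ∧
        (nbs G (f '' S') v).ncard ≤ M} := by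
    rintro v ⟨h1, h2, h3⟩
    refine ⟨?_, ?_, ?_⟩
    · rintro ⟨s, hs, he⟩
      exact h1 (f.injective he ▸ hs)
    · rw [hcard]; exact h2
    · rw [hcard]; exact h3
  have g : G'.induce {v | v ∉ S' ∧ 0 < (nbs G' S' v).ncard ∧ (nbs G' S' v).ncard ≤ M} →g
      G.induce {v | v ∉ f '' S' ∧ 0 < (nbs G (f '' S') v).ncard ∧
        (nbs G (f '' S') v).ncard ≤ M} :=
    { toFun := fun v => ⟨f v.1, hmem v.1 v.2⟩
      map_rel' := by
        intro u v huv
        exact f.map_adj_iff.2 huv }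
  exact (h (f '' S')).of_hom g

lemma law_mono {V : Type} {G : SimpleGraph V} {M C C' : ℕ} (hC : C ≤ C') (h : Law G M C) :
    Law G M C' := fun S => (h S).mono hC

lemma law_zero {V : Type} (G : SimpleGraph V) (C : ℕ) : Law G 0 C := by
  intro S
  have : IsEmpty {v | v ∉ S ∧ 0 < (nbs G S v).ncard ∧ (nbs G S v).ncard ≤ 0} := by
    refine ⟨fun v => ?_⟩
    obtain ⟨v, -, h2, h3⟩ := v
    omega
  exact (SimpleGraph.Colorable.of_isEmpty 0).mono (Nat.zero_le C)

lemma law_card {V : Type} [Finite V] (G : SimpleGraph V) (M C : ℕ) (hC : Nat.card V ≤ C) :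
    Law G M C := by
  intro S
  have := Fintype.ofFinite V
  classical
  refine (SimpleGraph.colorable_of_fintype _).mono (le_trans ?_ hC)
  rw [Nat.card_eq_fintype_card]
  exact Fintype.card_subtype_le _

end SeqAux

open SeqAux in
/-- Module `Seq`. -/
theorem stSeq (h : StCls) : StSeq := by
  classical
  intro n0 par hpar k P hHer hP hUnb
  set Q : ℕ → (ℕ → ℕ) → (V : Type) → SimpleGraph V → Prop :=
    fun M C V G => P V G ∧ ∀ m ≤ M, Law G m (C m) with hQ
  have hQHer : ∀ M C, Her (Q M C) := by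
    intro M C
    refine ⟨fun V G hG => hHer.fin V G hG.1, ?_⟩
    rintro V V' G G' ⟨h1, h2⟩ ⟨f⟩
    exact ⟨hHer.her V V' G G' h1 ⟨f⟩, fun m hm => law_her f (h2 m hm)⟩
  have step : ∀ p : {p : ℕ × (ℕ → ℕ) // Unb (Q p.1 p.2)},
      ∃ q : {p : ℕ × (ℕ → ℕ) // Unb (Q p.1 p.2)}, q.1.1 = p.1.1 + 1 ∧
        ∀ m ≤ p.1.1, q.1.2 m = p.1.2 m := by
    rintro ⟨⟨M, C⟩, hMC⟩
    obtain ⟨C', hC'⟩ := h n0 par hpar k (Q M C) (hQHer M C) (fun V G hG => hP V G hG.1) M (C M)
      (fun V G hG => hG.2 M le_rfl) hMC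
    refine ⟨⟨(M + 1, Function.update C (M + 1) C'), ?_⟩, rfl, ?_⟩
    · intro n
      obtain ⟨V, G, ⟨⟨h1, h2⟩, h3⟩, h4⟩ := hC' n
      refine ⟨V, G, ⟨h1, ?_⟩, h4⟩
      intro m hm
      by_cases hm' : m = M + 1
      · subst hm'
        simpa using h3
      · have hm2 : m ≤ M := by
          have : m ≤ M + 1 := hm
          omega
        have : (Function.update C (M + 1) C') m = C m := Function.update_of_ne hm' _ _
        show Law G m ((Function.update C (M + 1) C') m)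
        rw [this]
        exact h2 m hm2
    · intro m hm
      have hm2 : m ≤ M := hm
      exact Function.update_of_ne (by omega) _ _
  choose f hf1 hf2 using step
  have h0 : Unb (Q 0 fun _ => 0) := by
    intro n
    obtain ⟨V, G, h1, h2⟩ := hUnb n
    refine ⟨V, G, ⟨h1, ?_⟩, h2⟩
    intro m hm
    obtain rfl : m = 0 := Nat.le_zero.1 hm
    exact law_zero G _
  set s : ℕ → {p : ℕ × (ℕ → ℕ) // Unb (Q p.1 p.2)} := fun n => f^[n] ⟨(0, fun _ => 0), h0⟩
    with hs
  have hs0 : ∀ n, s (n + 1) = f (s n) := by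
    intro n
    simp only [hs]
    exact Function.iterate_succ_apply' f n _
  have hs1 : ∀ n, (s n).1.1 = n := by
    intro n
    induction n with
    | zero => rfl
    | succ n ih => rw [hs0, hf1, ih]
  have hs2 : ∀ n m, m ≤ n → (s n).1.2 m = (s m).1.2 m := by
    intro n m hmn
    induction n, hmn using Nat.le_induction with
    | base => rfl
    | succ n hmn ih =>
      rw [hs0, hf2 (s n) m (by rw [hs1]; exact hmn), ih]
  have hex : ∀ n, ∃ (V : Type) (G : SimpleGraph V), P V G ∧ ¬ G.Colorable n ∧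
      ∀ m ≤ n, Law G m ((s m).1.2 m) := by
    intro n
    obtain ⟨V, G, ⟨h1, h2⟩, h3⟩ := (s n).2 n
    refine ⟨V, G, h1, h3, ?_⟩
    intro m hm
    rw [← hs2 n m hm]
    exact h2 m (by rw [hs1]; exact hm)
  choose V G hG1 hG2 hG3 using hex
  refine ⟨fun M => (s M).1.2 M + ∑ n ∈ Finset.range M, Nat.card (V n), fun n =>
    ⟨V n, G n, hG1 n, hG2 n, fun M => ?_⟩⟩
  by_cases hM : M ≤ n
  · exact law_mono (Nat.le_add_right _ _) (hG3 n M hM)
  · have := hHer.fin (V n) (G n) (hG1 n)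
    refine law_card (G n) M _ ?_
    refine le_trans ?_ (Nat.le_add_left _ _)
    exact Finset.single_le_sum (f := fun n => Nat.card (V n)) (fun _ _ => Nat.zero_le _)
      (Finset.mem_range.2 (by omega))

end Pool.Agent.Lib.ILT
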