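import Pool.Agent.Lib.ILT.Stmts

/-!
# The integral zero-infinity law for all trees: module `Shf` (composition of labels)
-/

set_option autoImplicit false

namespace Pool.Agent.Lib.ILT

namespace ShfAux

lemma wd_append {M n b b' : ℕ} {η η' : List ℕ} (h : ∀ i ∈ η' ++ η, i < M)
    (h1 : b + η.length ≤ b') (h2 : b' + η'.length ≤ n) :
    Wd M n (cw b' η' ++ cw b η) := by
  induction η' generalizing n with
  | nil =>
    rw [List.length_nil] at h2
    exact wd_cw (fun i hi => h i (by simpa using hi)) (by omega)
  | cons i η' ih =>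
    rw [List.length_cons] at h2
    refine ⟨?_, h i (by simp), ih (fun j hj => h j ?_) le_rfl⟩
    · show b' + η'.length < n
      omega
    · rw [List.cons_append]
      exact List.mem_cons_of_mem i hj

lemma lst_append {w w' : List (ℕ × ℕ)} {b : ℕ} (h : Lst w' b) : Lst (w ++ w') b := by
  induction w with
  | nil => exact h
  | cons x w ih =>
    rw [List.cons_append]
    exact (Lst.cons ih.ne).mpr ih

end ShfAux

open ShfAux in
/-- Module `Shf`: composition of labels. -/
theorem stShf (h : StLab) : StShf := by
  intro V G M N K k D hS η η' hη hη' hc b b' n h1 h2 hn v hv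
  have hlt := hc.lt
  refine ⟨?_, ?_⟩
  · exact hS.good.wv_mem hn (wd_cw (fun i hi => hlt i (List.mem_append_left η hi)) h2)
      (lst_cw hη') hv
  · have h3 : lab D η b (lab D η' b' v) = wv D (cw b' η' ++ cw b η) v :=
      (wv_append D (cw b' η') (cw b η) v).symm
    have h4 : (cw b' η' ++ cw b η).map Prod.snd = η' ++ η := by
      rw [List.map_append, map_cw, map_cw]
    have h5 := h V G M N K k D hS n hn b (cw b' η' ++ cw b η) (wd_append hlt h1 h2)
      (lst_append (lst_cw hη)) (by rw [h4]; exact hc) v hv
    rw [h3, h5, h4]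

end Pool.Agent.Lib.ILT
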