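import Pool.Agent.Lib.ILT.Stmts

/-!
# The integral zero-infinity law for all trees: the choice of the sink
-/

set_option autoImplicit false

namespace Pool.Agent.Lib.ILT

variable {V : Type} {G : SimpleGraph V}

/-- Shifting the levels of a canonical word. -/
lemma sk2_rl (b : ℕ) (η : List ℕ) : rl (fun j => b + j) (cw 0 η) = cw b η := by
  induction η with
  | nil => rfl
  | cons i η ih =>
    rw [cw, cw, rl, List.map_cons]
    rw [rl] at ih
    rw [ih, Nat.zero_add]

/-- The label `τ` is the label `σ ^ e`. -/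
def Sk2Q (N : ℕ) (D : Chn V) (σ τ e : ℕ) : Prop :=
  1 ≤ e ∧ ∀ b n, b + e ≤ n → n ≤ N → ∀ v ∈ D.W n,
    lab D [τ] b v = lab D (List.replicate e σ) b v

/-- Being a sink. -/
def Sk2S (M N : ℕ) (D : Chn V) (σ : ℕ) : Prop := σ < M ∧ ∀ j < M, Arr D N σ j

lemma sk2_cst {M N : ℕ} {D : Chn V} {σ : ℕ} (hσ : Sk2S M N D σ) (m : ℕ) :
    Cst M N D (List.replicate m σ) := Cst.replicate hσ.1 (hσ.2 σ hσ.1) m

/-- One instance of the equation of labels gives all instances. -/
lemma sk2_all {M N K k : ℕ} {D : Chn V} (hD : Sys G M N K k D) {σ l d : ℕ} (hσ : σ < M)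
    (hl : l < M) (hd : d + 1 ≤ K) {b n : ℕ} (hb : b + (d + 1) ≤ n) (hn : n ≤ N) {v : V}
    (hv : v ∈ D.W n) (h : D.nb b l v = lab D (List.replicate (d + 1) σ) b v) :
    Sk2Q N D σ l (d + 1) := by
  have h1 : ∀ i ∈ ([l] : List ℕ), i < M := fun i hi => by
    have : i = l := by simpa using hi
    rw [this]; exact hl
  have h2 : ∀ i ∈ List.replicate (d + 1) σ, i < M := fun i hi => by
    rw [List.eq_of_mem_replicate hi]; exact hσ
  have hw1 : ∀ b' n', b' + (d + 1) ≤ n' → Wd M n' (cw b' [l]) := fun b' n' hb' =>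
    wd_cw h1 (by rw [List.length_singleton]; omega)
  have hw2 : ∀ b' n', b' + (d + 1) ≤ n' → Wd M n' (cw b' (List.replicate (d + 1) σ)) :=
    fun b' n' hb' => wd_cw h2 (by rw [List.length_replicate]; exact hb')
  have h3 : EqW D N (cw b [l]) (cw b (List.replicate (d + 1) σ)) :=
    hD.good.eqW_of hn (hw1 b n hb) (hw2 b n hb) hv h
  refine ⟨by omega, ?_⟩
  intro b' n' hb' hn' u hu
  have h4 := (hD.hmg (d + 1) hd (cw 0 [l]) (cw 0 (List.replicate (d + 1) σ))
    (hw1 0 (d + 1) (by omega)) (hw2 0 (d + 1) (by omega)) (fun j => b + j) (fun j => b' + j)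
    (fun x y hxy => Nat.add_lt_add_left hxy b) (fun x y hxy => Nat.add_lt_add_left hxy b')
    (fun j hj => ⟨by show b + j < N; omega, by show b' + j < N; omega⟩)).1
  rw [sk2_rl, sk2_rl, sk2_rl, sk2_rl] at h4
  exact hD.good.eq_of hn' (hw1 b' n' hb') (hw2 b' n' hb') (h4.mp h3) u hu

/-- Powers. -/
lemma sk2_pow (hS : StShf) {M N K k : ℕ} {D : Chn V} (hD : Sys G M N K k D) {σ τ e : ℕ}
    (hσ : Sk2S M N D σ) (hτ : Sk2S M N D τ) (hQ : Sk2Q N D σ τ e) :
    ∀ m, 1 ≤ m → ∀ b n, b + m * e ≤ n → n ≤ N → ∀ v ∈ D.W n,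
      lab D (List.replicate m τ) b v = lab D (List.replicate (m * e) σ) b v := by
  have he := hQ.1
  intro m hm
  induction m, hm using Nat.le_induction with
  | base =>
    intro b n hb hn v hv
    rw [Nat.one_mul] at hb ⊢
    exact hQ.2 b n hb hn v hv
  | succ m hm ih =>
    intro b n hb hn v hv
    have hme : m ≤ m * e := Nat.le_mul_of_pos_right m he
    have h0 : (m + 1) * e = m * e + e := by ring
    have hb' : b + m * e + e ≤ n := by rw [h0] at hb; omega
    have h1 := hS V G M N K k D hD (List.replicate m τ) [τ] (by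
        intro h
        have := congrArg List.length h
        rw [List.length_replicate, List.length_nil] at this
        omega) (by simp) (by
        have := sk2_cst hτ (m + 1)
        rw [List.replicate_succ] at this
        simpa using this) b (b + m * e) n (by rw [List.length_replicate]; omega)
        (by rw [List.length_singleton]; omega) hn v hv
    have h2 := hS V G M N K k D hD (List.replicate (m * e) σ) (List.replicate e σ) (by
        intro h
        have := congrArg List.length h
        rw [List.length_replicate, List.length_nil] at this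
        omega) (by
        intro h
        have := congrArg List.length h
        rw [List.length_replicate, List.length_nil] at this
        omega) (by
        rw [← List.replicate_add]
        exact sk2_cst hσ _) b (b + m * e) n (by rw [List.length_replicate])
        (by rw [List.length_replicate]; omega) hn v hv
    have h3 : lab D [τ] (b + m * e) v ∈ D.W (b + m * e) :=
      hD.good.sub (b + m * e) (by omega) h1.1
    have h4 := ih b (b + m * e) le_rfl (by omega) _ h3
    have h5 := hQ.2 (b + m * e) n hb' hn v hv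
    rw [h0, List.replicate_succ]
    have h6 : τ :: List.replicate m τ = [τ] ++ List.replicate m τ := rfl
    rw [h6, ← h1.2, h4, h5, h2.2, ← List.replicate_add, Nat.add_comm e (m * e)]

/-- Composition. -/
lemma sk2_comp (hS : StShf) {M N K k : ℕ} {D : Chn V} (hD : Sys G M N K k D) {σ τ ρ e f : ℕ}
    (hσ : Sk2S M N D σ) (hτ : Sk2S M N D τ) (hQ : Sk2Q N D σ τ e) (hQ' : Sk2Q N D τ ρ f) :
    Sk2Q N D σ ρ (f * e) := by
  refine ⟨Nat.mul_pos hQ'.1 hQ.1, ?_⟩
  intro b n hb hn v hv
  have hf : f ≤ f * e := Nat.le_mul_of_pos_right f hQ.1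
  rw [hQ'.2 b n (by omega) hn v hv]
  exact sk2_pow hS hD hσ hτ hQ f hQ'.1 b n hb hn v hv

/-- The neighbour of a sink in the chain is a sink. -/
lemma sk2_sink (hS : StShf) {M N K k : ℕ} {D : Chn V} (hD : Sys G M N K k D) {σ l d : ℕ}
    (hσ : Sk2S M N D σ) (hl : l < M) (hd : d + 1 ≤ K) (hQ : Sk2Q N D σ l (d + 1)) :
    Sk2S M N D l := by
  refine ⟨hl, ?_⟩
  intro j hj v hv
  have hN := hD.hN
  have key : ∀ c, 1 ≤ c → c ≤ 2 →
      wv D [(c, l), (0, j)] v = lab D (List.replicate (d + 1) σ ++ [j]) 0 v := by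
    intro c hc hc'
    have hK := hD.hK
    have h1 := hS V G M N K k D hD [j] (List.replicate (d + 1) σ) (by simp) (by
        intro h
        have := congrArg List.length h
        rw [List.length_replicate, List.length_nil] at this
        omega) (Cst.replicate_append hσ.1 (hσ.2 σ hσ.1) (d + 1) (η := [j]) hj (by
          intro i hi
          have : j = i := by simpa using hi
          rw [← this]
          exact hσ.2 j hj)) 0 c N (by rw [List.length_singleton]; omega)
        (by rw [List.length_replicate]; omega) le_rfl v hv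
    have h2 := hQ.2 c N (by omega) le_rfl v hv
    rw [← h1.2, ← h2]
    rfl
  rw [key 1 (by omega) (by omega), key 2 (by omega) (by omega)]

theorem stSk2 (hS : StShf) (hP : StPer) : StSk2 := by
  intro V G M N K k D hD hii hsink q hq
  by_contra hcon
  push Not at hcon
  have hN := hD.hN
  have hqK : q + 2 ≤ K := by
    have h1 : (q + 2) ^ 1 ≤ (q + 2) ^ (M + 1) := Nat.pow_le_pow_right (by omega) (by omega)
    rw [pow_one] at h1
    omega
  -- the next sink
  have hnext : ∀ σ, Sk2S M N D σ → ∃ l, Sk2S M N D l ∧ ∃ e, 2 ≤ e ∧ e ≤ q + 1 ∧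
      Sk2Q N D σ l e := by
    intro σ hσ
    obtain ⟨l, hl, d, hd1, hdq, b, n, hb, hn, v, hv, h⟩ := hcon σ hσ.1 hσ.2
    have hQ := sk2_all hD hσ.1 hl (by omega) hb hn hv h
    exact ⟨l, sk2_sink hS hD hσ hl (by omega) hQ, d + 1, by omega, by omega, hQ⟩
  choose! nx hnx using hnext
  obtain ⟨σ0, hσ0, hσ0'⟩ := hsink
  have hf0 : ∀ s, Sk2S M N D (nx^[s] σ0) := by
    intro s
    induction s with
    | zero => exact ⟨hσ0, hσ0'⟩
    | succ s ih =>
      rw [Function.iterate_succ_apply']
      exact (hnx _ ih).1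
  have hf : ∀ s r, ∃ e, 2 ≤ e ∧ e ≤ (q + 1) ^ (r + 1) ∧
      Sk2Q N D (nx^[s] σ0) (nx^[s + r + 1] σ0) e := by
    intro s r
    induction r with
    | zero =>
      obtain ⟨_, e, he1, he2, he3⟩ := hnx _ (hf0 s)
      refine ⟨e, he1, by rw [Nat.zero_add, pow_one]; exact he2, ?_⟩
      rw [Nat.add_zero, Function.iterate_succ_apply']
      exact he3
    | succ r ih =>
      obtain ⟨e, he1, he2, he3⟩ := ih
      obtain ⟨_, f, hf1, hf2, hf3⟩ := hnx _ (hf0 (s + r + 1))
      refine ⟨f * e, ?_, ?_, ?_⟩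
      · exact le_trans he1 (Nat.le_mul_of_pos_left e (by omega))
      · calc f * e ≤ (q + 1) * (q + 1) ^ (r + 1) := Nat.mul_le_mul hf2 he2
          _ = (q + 1) ^ (r + 1 + 1) := by ring
      · have h1 : s + (r + 1) + 1 = (s + r + 1) + 1 := by ring
        rw [h1, Function.iterate_succ_apply']
        exact sk2_comp hS hD (hf0 s) (hf0 (s + r + 1)) he3 hf3
  -- pigeonhole
  obtain ⟨s, hs, t, ht, hst, heq⟩ := Finset.exists_ne_map_eq_of_card_lt_of_maps_to
    (s := Finset.range (M + 1)) (t := Finset.range M) (f := fun s => nx^[s] σ0)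
    (by rw [Finset.card_range, Finset.card_range]; omega)
    (fun s _ => by
      show nx^[s] σ0 ∈ (Finset.range M : Set ℕ)
      rw [Finset.mem_coe, Finset.mem_range]
      exact (hf0 s).1)
  have main : ∀ s t, s < t → t < M + 1 → nx^[s] σ0 = nx^[t] σ0 → False := by
    intro s t hst ht heq
    obtain ⟨r, rfl⟩ : ∃ r, t = s + r + 1 := ⟨t - s - 1, by omega⟩
    obtain ⟨e, he1, he2, he3⟩ := hf s r
    rw [← heq] at he3
    have he4 : e ≤ K := by
      refine le_trans he2 (le_trans ?_ hq)
      calc (q + 1) ^ (r + 1) ≤ (q + 2) ^ (r + 1) := Nat.pow_le_pow_left (by omega) _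
        _ ≤ (q + 2) ^ (M + 1) := Nat.pow_le_pow_right (by omega) (by omega)
    obtain ⟨v, hv⟩ := hD.good.nonempty (n := N) le_rfl
    have h1 := he3.2 0 N (by omega) le_rfl v hv
    refine hP V G M N K k D hD _ (hf0 s).1 (hii _ (hf0 s).1) 1 (e - 1) le_rfl (by omega)
      (by omega) 0 N (by omega) le_rfl v hv ?_
    have h2 : 1 + (e - 1) = e := by omega
    rw [h2]
    exact h1
  rw [Finset.mem_range] at hs ht
  rcases lt_or_gt_of_ne hst with h | h
  · exact main s t h ht heq
  · exact main t s h hs heq.symm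

end Pool.Agent.Lib.ILT
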