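import Pool.Agent.Lib.ILT.Stmts

/-!
# The integral zero-infinity law for all trees: a sink
-/

set_option autoImplicit false

namespace Pool.Agent.Lib.ILT

theorem stSnk : StSnk := by
  intro M R hM h
  refine ⟨?_, ?_⟩
  · intro i hi
    obtain ⟨t, ht⟩ := h (fun _ => i) (fun _ => hi)
    exact ht
  · by_contra hcon
    push Not at hcon
    have hex : ∀ s : ℕ, ∃ j : ℕ, s < M → (j < M ∧ ¬ R s j) := by
      intro s
      by_cases hs : s < M
      · obtain ⟨j, hj, hR⟩ := hcon s hs
        exact ⟨j, fun _ => ⟨hj, hR⟩⟩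
      · exact ⟨0, fun h' => absurd h' hs⟩
    choose f hf using hex
    have hlt : ∀ t : ℕ, f^[t] 0 < M := by
      intro t
      induction t with
      | zero => exact hM
      | succ t ih =>
        rw [Function.iterate_succ_apply']
        exact (hf _ ih).1
    obtain ⟨t, ht⟩ := h (fun t => f^[t] 0) hlt
    have h2 := (hf _ (hlt t)).2
    apply h2
    have h3 : f (f^[t] 0) = f^[t + 1] 0 := (Function.iterate_succ_apply' f t 0).symm
    rw [h3]
    exact ht

end Pool.Agent.Lib.ILT
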