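import Pool.Agent.Lib.ILT.Stmts

/-!
# ILT, module Stp: every index sequence has an arrow
-/

set_option autoImplicit false

namespace Pool.Agent.Lib.ILT

open Pool.Agent.Lib.FracGS (pat)

namespace StpAux

variable {V : Type} {G : SimpleGraph V} {M N K k : ℕ} {D : Chn V}

/-- The depth of a node. -/
def dep (par : ℕ → ℕ) (j : ℕ) : ℕ := if h : par j < j then dep par (par j) + 1 else 0
termination_by j
decreasing_by exact h

/-- The word of a node. -/
def wd (n0 : ℕ) (par idx : ℕ → ℕ) (j : ℕ) : List (ℕ × ℕ) :=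
  if _h : par j < j then wd n0 par idx (par j) ++ [(n0 - j, idx (dep par j))] else []
termination_by j
decreasing_by exact _h

lemma dep_succ {par : ℕ → ℕ} (hp : ∀ j, 1 ≤ j → par j < j) {j : ℕ} (hj : 1 ≤ j) :
    dep par j = dep par (par j) + 1 := by
  rw [dep, dif_pos (hp j hj)]

lemma wd_zero (n0 : ℕ) (par idx : ℕ → ℕ) : wd n0 par idx 0 = [] := by
  rw [wd, dif_neg (Nat.not_lt_zero _)]

lemma wd_succ (n0 : ℕ) {par : ℕ → ℕ} (idx : ℕ → ℕ) (hp : ∀ j, 1 ≤ j → par j < j) {j : ℕ}
    (hj : 1 ≤ j) :
    wd n0 par idx j = wd n0 par idx (par j) ++ [(n0 - j, idx (dep par j))] := by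
  rw [wd, dif_pos (hp j hj)]

lemma wd_snoc {n b l : ℕ} {w : List (ℕ × ℕ)} (hw : Wd M n w) (hb : ∀ x ∈ w, b < x.1)
    (hn : b < n) (hl : l < M) : Wd M n (w ++ [(b, l)]) := by
  induction w generalizing n with
  | nil => exact ⟨hn, hl, trivial⟩
  | cons x w ih =>
    exact ⟨hw.1, hw.2.1, ih hw.2.2 (fun y hy => hb y (List.mem_cons_of_mem x hy))
      (hb x List.mem_cons_self)⟩

lemma wd_rl {g : ℕ → ℕ} (hg : StrictMono g) {n : ℕ} {w : List (ℕ × ℕ)} (hw : Wd M n w) :
    Wd M (g n) (rl g w) := by
  induction w generalizing n with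
  | nil => trivial
  | cons x w ih => exact ⟨hg hw.1, hw.2.1, ih hw.2.2⟩

lemma rl_append (g : ℕ → ℕ) (w w' : List (ℕ × ℕ)) : rl g (w ++ w') = rl g w ++ rl g w' := by
  simp [rl]

lemma rl_id (w : List (ℕ × ℕ)) : rl (fun x => x) w = w := by
  simp [rl]

lemma lst_snoc (w : List (ℕ × ℕ)) (b l : ℕ) : Lst (w ++ [(b, l)]) b := by
  simp [Lst]

lemma rl_congr {g g' : ℕ → ℕ} {w : List (ℕ × ℕ)} (h : ∀ x ∈ w, g x.1 = g' x.1) :
    rl g w = rl g' w := by
  unfold rl
  apply List.map_congr_left
  intro x hx
  rw [h x hx]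

/-- The levels of the word of a node. -/
lemma lev (n0 : ℕ) {par : ℕ → ℕ} (idx : ℕ → ℕ) (hp : ∀ j, 1 ≤ j → par j < j) (j : ℕ) :
    ∀ x ∈ wd n0 par idx j, ∃ q, 1 ≤ q ∧ q ≤ j ∧ (q = j ∨ q ≤ par j) ∧ x.1 = n0 - q := by
  induction j using Nat.strong_induction_on with
  | _ j ih =>
    intro x hx
    rcases Nat.eq_zero_or_pos j with rfl | hj
    · rw [wd_zero] at hx
      simp at hx
    · rw [wd_succ n0 idx hp hj, List.mem_append] at hx
      rcases hx with hx | hx
      · obtain ⟨q, h1, h2, -, h4⟩ := ih (par j) (hp j hj) x hx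
        have := hp j hj
        exact ⟨q, h1, by omega, Or.inr h2, h4⟩
      · have h1 : x = (n0 - j, idx (dep par j)) := by simpa using hx
        exact ⟨j, hj, le_rfl, Or.inl rfl, by rw [h1]⟩

lemma wd_ok {n0 : ℕ} {par idx : ℕ → ℕ} (hp : ∀ j, 1 ≤ j → par j < j) (hi : ∀ t, idx t < M)
    (j : ℕ) : j ≤ n0 → Wd M n0 (wd n0 par idx j) := by
  induction j using Nat.strong_induction_on with
  | _ j ih =>
    intro hjn
    rcases Nat.eq_zero_or_pos j with rfl | hj
    · rw [wd_zero]
      trivial
    · have h0 := hp j hj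
      rw [wd_succ n0 idx hp hj]
      refine wd_snoc (ih (par j) h0 (by omega)) ?_ (by omega) (hi _)
      intro x hx
      obtain ⟨q, h1, h2, -, h4⟩ := lev n0 idx hp (par j) x hx
      omega

/-- The positions of the nodes. -/
lemma pos (h : Good G M N D) {n0 : ℕ} {par idx : ℕ → ℕ}
    (hp : ∀ j, 1 ≤ j → par j < j) (hi : ∀ t, idx t < M) {g : ℕ → ℕ} (hg : StrictMono g)
    (hgN : g n0 ≤ N) {v : V} (hv : v ∈ D.W N) {j : ℕ} (hj : j ≤ n0) :
    wv D (rl g (wd n0 par idx j)) v ∈ D.W (g (n0 - j)) := by
  rcases Nat.eq_zero_or_pos j with rfl | hj1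
  · rw [wd_zero]
    exact h.le (by simpa using hgN) le_rfl hv
  · have h1 : g (n0 - j) < g n0 := hg (by omega)
    refine h.sub _ (by omega) (h.wv_mem (n := N) le_rfl
      ((wd_rl hg (wd_ok hp hi j hj)).mono hgN) ?_ hv)
    rw [wd_succ n0 idx hp hj1, rl_append]
    exact lst_snoc _ _ _

/-- The node `j ≥ 1` is a hub. -/
lemma hub (h : Good G M N D) {n0 : ℕ} {par idx : ℕ → ℕ}
    (hp : ∀ j, 1 ≤ j → par j < j) (hi : ∀ t, idx t < M) (hN : n0 ≤ N) {v : V}
    (hv : v ∈ D.W N) {j : ℕ} (hj1 : 1 ≤ j) (hj : j ≤ n0) :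
    wv D (wd n0 par idx j) v ∈ D.S (n0 - j) := by
  refine h.wv_mem (n := N) le_rfl ((wd_ok hp hi j hj).mono hN) ?_ hv
  rw [wd_succ n0 idx hp hj1]
  exact lst_snoc _ _ _

lemma pos_id (h : Good G M N D) {n0 : ℕ} {par idx : ℕ → ℕ}
    (hp : ∀ j, 1 ≤ j → par j < j) (hi : ∀ t, idx t < M) (hN : n0 ≤ N) {v : V}
    (hv : v ∈ D.W N) {j : ℕ} (hj : j ≤ n0) :
    wv D (wd n0 par idx j) v ∈ D.W (n0 - j) := by
  have h1 := pos h hp hi (g := fun x => x) strictMono_id hN hv hj
  rwa [rl_id] at h1

end StpAux

open StpAux in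
/-- Module `Stp`. -/
theorem stStp : StStp := by
  intro V G M N K k D h n0 par hpar hn0 hemp idx hi
  obtain ⟨hp, hmon⟩ := hpar
  have hN : 4 * K + k ≤ N := h.hN
  have hG := h.good
  obtain ⟨v, hv⟩ := hG.nonempty (n := N) le_rfl
  -- a wrong adjacency
  have hbad : ∃ i j, i < j ∧ j ≤ n0 ∧ i ≠ par j ∧
      G.Adj (wv D (wd n0 par idx i) v) (wv D (wd n0 par idx j) v) := by
    by_contra hcon
    push Not at hcon
    refine hemp.false ?_
    have hW : ∀ i j, i < j → j ≤ n0 → wv D (wd n0 par idx i) v ∈ D.W (n0 - j + 1) := by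
      intro i j hij hj
      exact hG.le (by omega) (by omega) (pos_id hG hp hi (by omega) hv (j := i) (by omega))
    have hinj : ∀ i j, i < j → j ≤ n0 →
        wv D (wd n0 par idx i) v ≠ wv D (wd n0 par idx j) v := by
      intro i j hij hj he
      have h1 := hW i j hij hj
      have h2 := hub hG hp hi (by omega) hv (j := j) (by omega) hj
      rw [he] at h1
      exact Set.disjoint_left.mp (hG.dis (n0 - j) (by omega)) h2 h1
    have hadj : ∀ i j, i < j → j ≤ n0 →
        (G.Adj (wv D (wd n0 par idx i) v) (wv D (wd n0 par idx j) v) ↔ par j = i) := by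
      intro i j hij hj
      constructor
      · intro h1
        by_contra h2
        exact hcon i j hij hj (fun h3 => h2 h3.symm) h1
      · rintro rfl
        refine (hG.adj (n0 - j) (by omega) _ (hW _ j hij hj) _
          (hub hG hp hi (by omega) hv (j := j) (by omega) hj)).mpr
          ⟨idx (dep par j), hi _, ?_⟩
        rw [wd_succ n0 idx hp (j := j) (by omega), wv_append]
        rfl
    refine ⟨⟨fun x => wv D (wd n0 par idx x.1) v, ?_⟩, ?_⟩
    · intro x y hxy
      have hxy' : wv D (wd n0 par idx x.1) v = wv D (wd n0 par idx y.1) v := hxy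
      rcases lt_trichotomy x.1 y.1 with h1 | h1 | h1
      · exact absurd hxy' (hinj _ _ h1 (by omega))
      · exact Fin.ext h1
      · exact absurd hxy'.symm (hinj _ _ h1 (by omega))
    · intro x y
      show G.Adj (wv D (wd n0 par idx x.1) v) (wv D (wd n0 par idx y.1) v) ↔
        (x.1 < y.1 ∧ par y.1 = x.1) ∨ (y.1 < x.1 ∧ par x.1 = y.1)
      rcases lt_trichotomy x.1 y.1 with h1 | h1 | h1
      · rw [hadj _ _ h1 (by omega)]
        constructor
        · intro h2
          exact Or.inl ⟨h1, h2⟩
        · rintro (h2 | h2)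
          · exact h2.2
          · omega
      · rw [h1]
        constructor
        · intro h2
          exact absurd h2 (G.loopless.irrefl _)
        · rintro (h2 | h2) <;> omega
      · rw [G.adj_comm, hadj _ _ h1 (by omega)]
        constructor
        · intro h2
          exact Or.inr ⟨h1, h2⟩
        · rintro (h2 | h2)
          · omega
          · exact h2.2
  obtain ⟨i, j, hij, hjn, hne, hadj⟩ := hbad
  have hWi : wv D (wd n0 par idx i) v ∈ D.W (n0 - j + 1) :=
    hG.le (by omega) (by omega) (pos_id hG hp hi (by omega) hv (j := i) (by omega))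
  obtain ⟨l, hl, hnb⟩ := (hG.adj (n0 - j) (by omega) _ hWi _
    (hub hG hp hi (by omega) hv (j := j) (by omega) hjn)).mp hadj
  have hj1 : 1 ≤ j := by omega
  have hpj := hp j hj1
  have hlev : ∀ x ∈ wd n0 par idx i, n0 - j < x.1 := by
    intro x hx
    obtain ⟨q, h1, h2, -, h4⟩ := lev n0 idx hp i x hx
    omega
  have hWd1 : Wd M n0 (wd n0 par idx i ++ [(n0 - j, l)]) :=
    wd_snoc (wd_ok hp hi i (by omega)) hlev (by omega) hl
  have hWd2 : Wd M n0 (wd n0 par idx j) := wd_ok hp hi j hjn
  have hE : EqW D N (wd n0 par idx i ++ [(n0 - j, l)]) (wd n0 par idx j) := by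
    refine hG.eqW_of (n := N) le_rfl (hWd1.mono (by omega)) (hWd2.mono (by omega)) hv ?_
    rw [wv_append, hnb]
    rfl
  by_cases hcase : i ≠ 0 ∧ par i = par j
  · -- two children of the same node
    exfalso
    obtain ⟨hi0, hpp⟩ := hcase
    have hi1 : 1 ≤ i := by omega
    have hpi := hp i hi1
    have hdep : dep par i = dep par j := by
      rw [dep_succ hp hi1, dep_succ hp hj1, hpp]
    set i' := idx (dep par j) with hi'
    set u := wv D (wd n0 par idx (par j)) v with hu
    have huW : u ∈ D.W (n0 - i + 1) :=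
      hG.le (by omega) (by omega) (pos_id hG hp hi (by omega) hv (j := par j) (by omega))
    have h1 : wv D [(n0 - i, i'), (n0 - j, l)] u = wv D [(n0 - j, i')] u := by
      have h2 := hE v hv
      rw [wd_succ n0 idx hp hi1, wd_succ n0 idx hp hj1, hpp, hdep, List.append_assoc,
        wv_append, wv_append, wv_append] at h2
      exact h2
    have hWa : Wd M (n0 - i + 1) [(n0 - i, i'), (n0 - j, l)] :=
      ⟨by show n0 - i < n0 - i + 1; omega, hi _, by show n0 - j < n0 - i; omega, hl, trivial⟩
    have hWb : Wd M (n0 - i + 1) [(n0 - j, i')] :=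
      ⟨by show n0 - j < n0 - i + 1; omega, hi _, trivial⟩
    have h3 := hG.eqW_of (n := n0 - i + 1) (by omega) hWa hWb huW h1
    -- homogeneity
    have hK := h.hK
    have h4 : ∀ a b, b < a → a < N → EqW D N [(a, i'), (b, l)] [(b, i')] := by
      intro a b hba haN
      have hgm : ∀ a b : ℕ, b < a → StrictMono (fun x : ℕ => if x = 0 then b else a + x - 1) := by
        intro a b hab x y hxy
        show (if x = 0 then b else a + x - 1) < (if y = 0 then b else a + y - 1)
        split_ifs <;> omega
      have h5 := (h.hmg 2 (by omega) [(1, i'), (0, l)] [(0, i')]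
        ⟨by show 1 < 2; omega, hi _, by show 0 < 1; omega, hl, trivial⟩
        ⟨by show 0 < 2; omega, hi _, trivial⟩
        (fun x => if x = 0 then n0 - j else (n0 - i) + x - 1)
        (fun x => if x = 0 then b else a + x - 1)
        (hgm (n0 - i) (n0 - j) (by omega)) (hgm a b hba) (by
          intro x hx
          show (if x = 0 then n0 - j else (n0 - i) + x - 1) < N ∧
            (if x = 0 then b else a + x - 1) < N
          split_ifs <;> omega)).1
      have e1 : rl (fun x => if x = 0 then n0 - j else (n0 - i) + x - 1)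
          [(1, i'), (0, l)] = [(n0 - i, i'), (n0 - j, l)] := by
        simp [rl]
      have e2 : rl (fun x => if x = 0 then n0 - j else (n0 - i) + x - 1)
          [(0, i')] = [(n0 - j, i')] := by
        simp [rl]
      have e3 : rl (fun x => if x = 0 then b else a + x - 1)
          [(1, i'), (0, l)] = [(a, i'), (b, l)] := by
        simp [rl]
      have e4 : rl (fun x => if x = 0 then b else a + x - 1) [(0, i')] = [(b, i')] := by
        simp [rl]
      rw [e1, e2, e3, e4] at h5
      exact h5.mp h3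
    -- a clique
    have hS : ∀ a < N, D.nb a i' v ∈ D.S a := fun a ha =>
      hG.mem a ha v (hG.le (by omega) le_rfl hv) i' (hi _)
    have hcl : ∀ a b, b < a → a < N → G.Adj (D.nb a i' v) (D.nb b i' v) := by
      intro a b hba haN
      refine (hG.adj b (by omega) _ (hG.le (by omega) (by omega)
        (hG.sub a haN (hS a haN))) _ (hS b (by omega))).mpr ⟨l, hl, ?_⟩
      exact (h4 a b hba haN v hv).symm
    classical
    refine h.cf ((Finset.range k).image fun a => D.nb a i' v) ?_
    have hinj : ∀ a b, a < k → b < k → D.nb a i' v = D.nb b i' v → a = b := by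
      intro a b ha hb hab
      rcases lt_trichotomy a b with h6 | h6 | h6
      · have h7 := hcl b a h6 (by omega)
        rw [hab] at h7
        exact absurd h7 (G.loopless.irrefl _)
      · exact h6
      · have h7 := hcl a b h6 (by omega)
        rw [hab] at h7
        exact absurd h7 (G.loopless.irrefl _)
    rw [SimpleGraph.isNClique_iff]
    constructor
    · intro x hx y hy hxy
      rw [Finset.mem_coe, Finset.mem_image] at hx hy
      obtain ⟨a, ha, rfl⟩ := hx
      obtain ⟨b, hb, rfl⟩ := hy
      rw [Finset.mem_range] at ha hb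
      rcases lt_trichotomy a b with h6 | h6 | h6
      · exact (hcl b a h6 (by omega)).symm
      · exact absurd (by rw [h6]) hxy
      · exact hcl a b h6 (by omega)
    · rw [Finset.card_image_of_injOn, Finset.card_range]
      intro a ha b hb hab
      rw [Finset.coe_range, Set.mem_Iio] at ha hb
      exact hinj a b ha hb hab
  · -- the general case
    set p := par j with hpdef
    have hp0 : 1 ≤ p := by
      by_contra h0
      have h1 : p = 0 := by omega
      have h2 : par i ≤ par j := hmon hij.le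
      rw [← hpdef, h1] at h2
      refine hcase ⟨?_, by omega⟩
      intro h3
      exact hne (by omega)
    have hnot : ∀ x ∈ wd n0 par idx i, x.1 ≠ n0 - p := by
      intro x hx he
      obtain ⟨q, h1, h2, h3, h4⟩ := lev n0 idx hp i x hx
      have h5 : q = p := by omega
      subst h5
      rcases h3 with h3 | h3
      · exact hne h3.symm
      · have h6 : par i ≤ par j := hmon hij.le
        exact hcase ⟨by omega, by omega⟩
    have hpp := hp p hp0
    -- two relabellings
    set g1 : ℕ → ℕ := fun x => 2 * x with hg1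
    set g2 : ℕ → ℕ := fun x => if x = n0 - p then 2 * x + 1 else 2 * x with hg2
    have hm1 : StrictMono g1 := by
      intro x y hxy
      show 2 * x < 2 * y
      omega
    have hm2 : StrictMono g2 := by
      intro x y hxy
      show (if x = n0 - p then 2 * x + 1 else 2 * x) < (if y = n0 - p then 2 * y + 1 else 2 * y)
      split_ifs <;> omega
    have hb1 : ∀ x < n0 + 1, (fun x : ℕ => x) x < N ∧ g1 x < N := by
      intro x hx
      show x < N ∧ 2 * x < N
      omega
    have hb2 : ∀ x < n0 + 1, (fun x : ℕ => x) x < N ∧ g2 x < N := by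
      intro x hx
      show x < N ∧ (if x = n0 - p then 2 * x + 1 else 2 * x) < N
      constructor
      · omega
      · split_ifs <;> omega
    have hE1 := ((h.hmg (n0 + 1) hn0 _ _ (hWd1.mono (by omega)) (hWd2.mono (by omega))
      (fun x => x) g1 strictMono_id hm1 hb1).1).mp (by rw [rl_id, rl_id]; exact hE)
    have hE2 := ((h.hmg (n0 + 1) hn0 _ _ (hWd1.mono (by omega)) (hWd2.mono (by omega))
      (fun x => x) g2 strictMono_id hm2 hb2).1).mp (by rw [rl_id, rl_id]; exact hE)
    have hl12 : rl g1 (wd n0 par idx i ++ [(n0 - j, l)]) =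
        rl g2 (wd n0 par idx i ++ [(n0 - j, l)]) := by
      apply rl_congr
      intro x hx
      show 2 * x.1 = (if x.1 = n0 - p then 2 * x.1 + 1 else 2 * x.1)
      rw [if_neg]
      rw [List.mem_append] at hx
      rcases hx with hx | hx
      · exact hnot x hx
      · have h1 : x = (n0 - j, l) := by simpa using hx
        rw [h1]
        show n0 - j ≠ n0 - p
        omega
    have hl0 : rl g1 (wd n0 par idx (par p)) = rl g2 (wd n0 par idx (par p)) := by
      apply rl_congr
      intro x hx
      obtain ⟨q, h1, h2, -, h4⟩ := lev n0 idx hp (par p) x hx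
      show 2 * x.1 = (if x.1 = n0 - p then 2 * x.1 + 1 else 2 * x.1)
      rw [if_neg]
      omega
    set u := wv D (rl g1 (wd n0 par idx (par p))) v with hu
    have huW : u ∈ D.W (2 * (n0 - p) + 2) := by
      have h1 := pos hG hp hi hm1 (n0 := n0) (by show 2 * n0 ≤ N; omega) hv (j := par p)
        (by omega)
      refine hG.le (?_ : _ ≤ g1 (n0 - par p)) ?_ h1
      · show 2 * (n0 - p) + 2 ≤ 2 * (n0 - par p)
        omega
      · show 2 * (n0 - par p) ≤ N
        omega
    have hwj : wd n0 par idx j = wd n0 par idx (par p) ++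
        [(n0 - p, idx (dep par p)), (n0 - j, idx (dep par p + 1))] := by
      rw [wd_succ n0 idx hp hj1, ← hpdef, dep_succ hp hj1, ← hpdef, wd_succ n0 idx hp hp0,
        List.append_assoc]
      rfl
    have h1 : wv D [(2 * (n0 - p), idx (dep par p)), (2 * (n0 - j), idx (dep par p + 1))] u =
        wv D [(2 * (n0 - p) + 1, idx (dep par p)), (2 * (n0 - j), idx (dep par p + 1))] u := by
      have h2 := hE1 v hv
      have h3 := hE2 v hv
      rw [hl12] at h2
      rw [h2, hwj, rl_append, rl_append, ← hl0, wv_append, wv_append, ← hu] at h3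
      have e1 : rl g1 [(n0 - p, idx (dep par p)), (n0 - j, idx (dep par p + 1))] =
          [(2 * (n0 - p), idx (dep par p)), (2 * (n0 - j), idx (dep par p + 1))] := by
        simp [rl, hg1]
      have e2 : rl g2 [(n0 - p, idx (dep par p)), (n0 - j, idx (dep par p + 1))] =
          [(2 * (n0 - p) + 1, idx (dep par p)), (2 * (n0 - j), idx (dep par p + 1))] := by
        have h4 : ¬ (n0 - j = n0 - p) := by omega
        simp only [rl, hg2, List.map_cons, List.map_nil, if_true, if_neg h4]
      rw [e1, e2] at h3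
      exact h3
    have hWa : Wd M (2 * (n0 - p) + 2)
        [(2 * (n0 - p), idx (dep par p)), (2 * (n0 - j), idx (dep par p + 1))] :=
      ⟨by show 2 * (n0 - p) < 2 * (n0 - p) + 2; omega, hi _,
        by show 2 * (n0 - j) < 2 * (n0 - p); omega, hi _, trivial⟩
    have hWb : Wd M (2 * (n0 - p) + 2)
        [(2 * (n0 - p) + 1, idx (dep par p)), (2 * (n0 - j), idx (dep par p + 1))] :=
      ⟨by show 2 * (n0 - p) + 1 < 2 * (n0 - p) + 2; omega, hi _,
        by show 2 * (n0 - j) < 2 * (n0 - p) + 1; omega, hi _, trivial⟩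
    have h2 := hG.eqW_of (n := 2 * (n0 - p) + 2) (by omega) hWa hWb huW h1
    refine ⟨dep par p, ?_⟩
    have hK := h.hK
    set g3 : ℕ → ℕ := fun x => if x = 0 then 2 * (n0 - j) else 2 * (n0 - p) + x - 1 with hg3
    have hm3 : StrictMono g3 := by
      intro x y hxy
      show (if x = 0 then 2 * (n0 - j) else 2 * (n0 - p) + x - 1) <
        (if y = 0 then 2 * (n0 - j) else 2 * (n0 - p) + y - 1)
      split_ifs <;> omega
    have h5 := (h.hmg 3 hK [(1, idx (dep par p)), (0, idx (dep par p + 1))]
      [(2, idx (dep par p)), (0, idx (dep par p + 1))]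
      ⟨by show 1 < 3; omega, hi _, by show 0 < 1; omega, hi _, trivial⟩
      ⟨by show 2 < 3; omega, hi _, by show 0 < 2; omega, hi _, trivial⟩
      g3 (fun x => x) hm3 strictMono_id (by
        intro x hx
        show (if x = 0 then 2 * (n0 - j) else 2 * (n0 - p) + x - 1) < N ∧ x < N
        constructor
        · split_ifs <;> omega
        · omega)).1
    rw [rl_id, rl_id] at h5
    refine h5.mp ?_
    have e1 : rl g3 [(1, idx (dep par p)), (0, idx (dep par p + 1))] =
        [(2 * (n0 - p), idx (dep par p)), (2 * (n0 - j), idx (dep par p + 1))] := by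
      simp [rl, hg3]
    have e2 : rl g3 [(2, idx (dep par p)), (0, idx (dep par p + 1))] =
        [(2 * (n0 - p) + 1, idx (dep par p)), (2 * (n0 - j), idx (dep par p + 1))] := by
      simp [rl, hg3]
    rw [e1, e2]
    exact h2

end Pool.Agent.Lib.ILT
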