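import Pool.Agent.Lib.ILT.Stmts

/-!
# ILT, module Up: no upward dependence
-/

set_option autoImplicit false

namespace Pool.Agent.Lib.ILT

namespace UpAux

variable {V : Type} {G : SimpleGraph V} {M N K k : ℕ} {D : Chn V}

lemma cst1 {σ l : ℕ} (hσ : σ < M) (hl : l < M) (hσσ : Arr D N σ σ) (hσl : Arr D N σ l) (j : ℕ) :
    Cst M N D (List.replicate j σ ++ [l]) :=
  Cst.replicate_append hσ hσσ j (η := [l]) hl (by
    intro i hi
    have : i = l := by simpa using hi.symm
    rw [this]
    exact hσl)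

lemma cst2 {σ l : ℕ} (hσ : σ < M) (hl : l < M) (hσσ : Arr D N σ σ) (hσl : Arr D N σ l)
    (hll : Arr D N l l) (j : ℕ) : Cst M N D (List.replicate j σ ++ [l, l]) :=
  Cst.replicate_append hσ hσσ j (η := [l, l]) ⟨hl, hll, hl⟩ (by
    intro i hi
    have : i = l := by simpa using hi.symm
    rw [this]
    exact hσl)

lemma ne1 (j σ l : ℕ) : List.replicate j σ ++ [l] ≠ [] := by simp

lemma len1 (j σ l : ℕ) : (List.replicate j σ ++ [l]).length = j + 1 := by simp

lemma len2 (j σ l : ℕ) : (List.replicate j σ ++ [l, l]).length = j + 2 := by simp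

lemma lab_one (b l : ℕ) (x : V) : lab D [l] b x = D.nb b l x := rfl

/-- The first step: the label `σ ^ j l l` is equal to the label `σ ^ j σ`. -/
lemma one (hS : StShf) (hSam : StSam) (h : Sys G M N K k D) (harr : ∀ i < M, Arr D N i i)
    {σ : ℕ} (hσ : σ < M) (hσa : ∀ j < M, Arr D N σ j) {l : ℕ} (hl : l < M) {j b : ℕ}
    (hb : b + (j + 4) ≤ N) (hF : Fn (D.W N) (XL D σ j σ b) (XL D σ j l (b + 1))) :
    ∀ v ∈ D.W N, XL D σ j σ b v = D.nb b l (XL D σ j l (b + 1) v) ∧
      XL D σ j σ b v = lab D (List.replicate j σ ++ [l, l]) b v := by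
  obtain ⟨F, hF⟩ := hF
  have hc := cst2 (D := D) (N := N) hσ hl (hσa σ hσ) (hσa l hl) (harr l hl) j
  have e1 : ∀ v ∈ D.W N, D.nb b l (XL D σ j l (b + 1) v) =
      lab D (List.replicate j σ ++ [l, l]) b v := by
    intro v hv
    have h1 := (hS V G M N K k D h [l] (List.replicate j σ ++ [l]) (by simp) (ne1 j σ l)
      (by simpa using hc) b (b + 1) N (by simp) (by rw [len1]; omega) le_rfl v hv).2
    rw [lab_one] at h1
    rw [XL, h1, List.append_assoc]
    rfl
  have h2 := hSam V G M N K k D h (List.replicate j σ ++ [σ]) (List.replicate j σ ++ [l, l])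
    (ne1 j σ σ) (by simp) (cst1 hσ hσ (hσa σ hσ) (hσa σ hσ) j) hc b N
    (by rw [len1]; omega) (by rw [len2]; omega) le_rfl (by rw [len1]; omega)
    (by rw [len2]; omega) (fun p => D.nb b l (F p)) (by
      intro h3
      refine h.good.big N le_rfl (h3.mono ?_)
      intro v hv
      refine ⟨hv, ?_⟩
      rw [← e1 v hv, hF v hv]
      rfl)
  intro v hv
  have h3 := h2 v hv
  refine ⟨?_, h3.symm⟩
  rw [e1 v hv, h3]
  rfl

lemma zero (hS : StShf) (hSam : StSam) (hP : StPer) (hD : StHD) (h : Sys G M N K k D)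
    (harr : ∀ i < M, Arr D N i i) {σ : ℕ} (hσ : σ < M) (hσa : ∀ j < M, Arr D N σ j) {l : ℕ}
    (hl : l < M) {j : ℕ} (hK : 2 * j + 8 ≤ K) {b b' : ℕ} (hbb : b < b')
    (hN : b' + (2 * j + 8) ≤ N) : ¬ Fn (D.W N) (XL D σ j σ b) (XL D σ j l b') := by
  intro hF
  have hc1 := cst1 (D := D) (N := N) hσ hσ (hσa σ hσ) (hσa σ hσ) j
  have hc2 := cst1 (D := D) (N := N) hσ hl (hσa σ hσ) (hσa l hl) j
  have key : ∀ c c', c < c' → c' + (2 * j + 2) ≤ N →
      Fn (D.W N) (XL D σ j σ c) (XL D σ j l c') := by
    intro c c' hc hc'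
    exact (hD V G M N K k D h (List.replicate j σ ++ [σ]) (List.replicate j σ ++ [l])
      (ne1 j σ σ) (ne1 j σ l) hc1 hc2 (by rw [len1, len1]; omega) b b' c c' hbb hc
      (by rw [len1, len1]; omega) (by rw [len1, len1]; omega)).1.1 hF
  have a0 := one hS hSam h harr hσ hσa hl (b := 0) (by omega) (key 0 1 (by omega) (by omega))
  obtain ⟨v₀, hv₀⟩ := h.good.nonempty (n := N) le_rfl
  by_cases hlσ : l = σ
  · subst hlσ
    have h1 := (a0 v₀ hv₀).2
    have h2 := hP V G M N K k D h l hl (harr l hl) (j + 1) 1 (by omega) le_rfl (by omega) 0 N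
      (by omega) le_rfl v₀ hv₀
    apply h2
    have e1 : List.replicate j l ++ [l] = List.replicate (j + 1) l := by
      rw [List.replicate_succ']
    have e2 : List.replicate j l ++ [l, l] = List.replicate (j + 1 + 1) l := by
      rw [List.replicate_succ', ← e1, List.append_assoc]
      rfl
    rw [XL, e1, e2] at h1
    exact h1
  · have a1 := one hS hSam h harr hσ hσa hl (b := 1) (by omega)
      (key 1 2 (by omega) (by omega))
    obtain ⟨F, hF2⟩ := key 0 2 (by omega) (by omega)
    have h3 := hSam V G M N K k D h (List.replicate j σ ++ [l]) (List.replicate j σ ++ [σ])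
      (ne1 j σ l) (ne1 j σ σ) hc2 hc1 1 N (by rw [len1]; omega) (by rw [len1]; omega) le_rfl
      (by rw [len1]; omega) (by rw [len1]; omega)
      (fun p => D.nb 1 l (F (D.nb 0 l p))) (by
        intro h4
        refine h.good.big N le_rfl (h4.mono ?_)
        intro v hv
        refine ⟨hv, ?_⟩
        have h5 := (a1 v hv).1
        rw [hF2 v hv, (a0 v hv).1] at h5
        exact h5)
    have h4 := h3 v₀ hv₀
    -- two different neighbours
    have h5 : ∃ u ∈ D.W 2, XL D σ j σ 1 v₀ = D.nb 1 σ u ∧ XL D σ j l 1 v₀ = D.nb 1 l u := by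
      rcases Nat.eq_zero_or_pos j with rfl | hj
      · exact ⟨v₀, h.good.le (by omega) le_rfl hv₀, rfl, rfl⟩
      · have hne : List.replicate j σ ≠ [] := by
          intro h0
          have := congrArg List.length h0
          simp at this
          omega
        have g1 := hS V G M N K k D h [σ] (List.replicate j σ) (by simp) hne hc1 1 2 N
          (by simp) (by simp; omega) le_rfl v₀ hv₀
        have g2 := hS V G M N K k D h [l] (List.replicate j σ) (by simp) hne hc2 1 2 N
          (by simp) (by simp; omega) le_rfl v₀ hv₀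
        exact ⟨lab D (List.replicate j σ) 2 v₀, h.good.sub 2 (by omega) g1.1, g1.2.symm,
          g2.2.symm⟩
    obtain ⟨u, hu, h6, h7⟩ := h5
    have h8 := h.good.inj 1 (by omega) u hu σ hσ l hl (by
      rw [← h6, ← h7]
      exact h4)
    exact hlσ h8.symm

end UpAux

open UpAux in
/-- Module `Up`. -/
theorem stUp (hS : StShf) (hSam : StSam) (hP : StPer) (hD : StHD) : StUp := by
  intro V G M N K k D h harr σ hσ hσa l hl j e hK b b' hbb hN hF
  rcases Nat.eq_zero_or_pos e with rfl | he
  · exact zero hS hSam hP hD h harr hσ hσa hl (by omega) hbb (by omega) hF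
  · have hc1 := cst1 (D := D) (N := N) hσ hσ (hσa σ hσ) (hσa σ hσ) (j + e)
    have hc2 := cst1 (D := D) (N := N) hσ hl (hσa σ hσ) (hσa l hl) j
    have h1 : Fn (D.W N) (XL D σ (j + e) σ 0) (XL D σ j l (e + 1)) :=
      (hD V G M N K k D h (List.replicate (j + e) σ ++ [σ]) (List.replicate j σ ++ [l])
        (ne1 _ σ σ) (ne1 j σ l) hc1 hc2 (by rw [len1, len1]; omega) b b' 0 (e + 1) hbb
        (by omega) (by rw [len1, len1]; omega) (by rw [len1, len1]; omega)).1.1 hF
    have h2 : Fn (D.W N) (XL D σ j σ e) (XL D σ j l (e + 1)) := by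
      obtain ⟨F, hF1⟩ := h1
      refine ⟨fun p => F (lab D (List.replicate e σ) 0 p), fun v hv => ?_⟩
      rw [hF1 v hv]
      congr 1
      have hne : List.replicate e σ ≠ [] := by
        intro h0
        have := congrArg List.length h0
        simp at this
        omega
      have e1 : List.replicate j σ ++ [σ] ++ List.replicate e σ =
          List.replicate (j + e) σ ++ [σ] := by
        rw [← List.replicate_succ', ← List.replicate_succ', ← List.replicate_add]
        congr 1
        omega
      have g := (hS V G M N K k D h (List.replicate e σ) (List.replicate j σ ++ [σ]) hne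
        (ne1 j σ σ) (by rw [e1]; exact hc1) 0 e N (by simp) (by rw [len1]; omega) le_rfl v hv).2
      rw [XL, XL, g, e1]
    exact zero hS hSam hP hD h harr hσ hσa hl (by omega) (Nat.lt_succ_self e) (by omega) h2

end Pool.Agent.Lib.ILT
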