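import Pool.Agent.Lib.ILT.Cor
import Pool.Agent.Lib.ILT.F3
import Pool.Agent.Lib.ILT.Gd
import Pool.Agent.Lib.ILT.Ho
import Pool.Agent.Lib.ILT.Stp
import Pool.Agent.Lib.ILT.Snk
import Pool.Agent.Lib.ILT.Lab
import Pool.Agent.Lib.ILT.Shf
import Pool.Agent.Lib.ILT.Mon
import Pool.Agent.Lib.ILT.Sam
import Pool.Agent.Lib.ILT.Per
import Pool.Agent.Lib.ILT.Sk2
import Pool.Agent.Lib.ILT.HD
import Pool.Agent.Lib.ILT.Up
import Pool.Agent.Lib.ILT.Dn
import Pool.Agent.Lib.ILT.Red
import Pool.Agent.Lib.ILT.Rch
import Pool.Agent.Lib.ILT.Emb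
import Pool.Agent.Lib.ILT.Cls
import Pool.Agent.Lib.ILT.Seq
import Pool.Agent.Lib.ILT.For
import Pool.Agent.Lib.FGF.Ram

/-!
# The integral zero-infinity law for all trees: the main theorem
-/

set_option autoImplicit false

namespace Pool.Agent.Lib.ILT

theorem core : StCor := by
  have hLab : StLab := stLab
  have hShf : StShf := stShf hLab
  have hMon : StMon := stMon hShf
  have hSam : StSam := stSam stF3 hMon
  have hPer : StPer := stPer hShf hMon
  have hHD : StHD := stHD hLab
  exact stCor stGd (stHo FGF.stRam)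
    (stRed stStp stSnk hShf hMon (stSk2 hShf hPer) (stUp hShf hSam hPer hHD) (stDn hShf hHD))
    (stEmb stRch)

theorem seq : StSeq := stSeq (stCls core)

/-- **The integral zero-infinity law** for hereditary classes without an induced forest. -/
theorem all : StAll := stAll seq stFor

end Pool.Agent.Lib.ILT
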