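import Pool.Agent.Lib.ILT.Defs

/-!
# The integral zero-infinity law for all trees: basic lemmas
-/

set_option autoImplicit false

namespace Pool.Agent.Lib.ILT

variable {V : Type} {G : SimpleGraph V}

/-! ### Small sets -/

lemma Sm.mono {A B : Set V} (h : A ⊆ B) (hB : Sm G B) : Sm G A := by
  obtain ⟨n, hn⟩ := hB
  refine ⟨n, hn.of_hom (SimpleGraph.induceHomOfLE G h).toHom⟩

lemma Sm.empty : Sm G ∅ := ⟨0, SimpleGraph.Colorable.of_isEmpty 0⟩

/-- Sets coloured by a map to a finite type. -/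
lemma Sm.of_col {A : Set V} {ι : Type} [Finite ι] (c : V → ι)
    (h : ∀ u ∈ A, ∀ v ∈ A, G.Adj u v → c u ≠ c v) : Sm G A := by
  have := Fintype.ofFinite ι
  refine ⟨Fintype.card ι, ?_⟩
  refine ⟨?_⟩
  have C : (G.induce A).Coloring ι := SimpleGraph.Coloring.mk (fun v => c v.1) (by
    intro u v huv
    exact h u.1 u.2 v.1 v.2 huv)
  exact (SimpleGraph.recolorOfEquiv _ (Fintype.equivFin ι)) C

/-- A colouring of a small set as a map on `V`. -/
lemma Sm.col {A : Set V} (h : Sm G A) :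
    ∃ (n : ℕ) (c : V → Fin (n + 1)), ∀ u ∈ A, ∀ v ∈ A, G.Adj u v → c u ≠ c v := by
  classical
  obtain ⟨n, ⟨C⟩⟩ := h
  refine ⟨n, fun v => if hv : v ∈ A then (C ⟨v, hv⟩).castSucc else 0, ?_⟩
  intro u hu v hv huv heq
  simp only [hu, hv, dif_pos] at heq
  exact C.valid (v := ⟨u, hu⟩) (w := ⟨v, hv⟩) huv (Fin.castSucc_injective _ heq)

/-- The union of the classes of a finite partition. -/
lemma Sm.of_class {A : Set V} {ι : Type} [Finite ι] (c : V → ι)
    (h : ∀ i, Sm G {v | v ∈ A ∧ c v = i}) : Sm G A := by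
  classical
  have := Fintype.ofFinite ι
  choose n f hf using fun i => (h i).col
  set N := (Finset.univ.sup n) with hN
  have hle : ∀ i, n i ≤ N := fun i => Finset.le_sup (Finset.mem_univ i)
  refine Sm.of_col (ι := ι × Fin (N + 1)) (fun v => (c v, Fin.castLE (by
    have := hle (c v); omega) (f (c v) v))) ?_
  intro u hu v hv huv heq
  rw [Prod.mk.injEq] at heq
  obtain ⟨h1, h2⟩ := heq
  have h3 : f (c u) u = f (c u) v := by
    have h4 : ∀ i j (hi : n i + 1 ≤ N + 1) (hj : n j + 1 ≤ N + 1), i = j →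
        Fin.castLE hi (f i u) = Fin.castLE hj (f j v) → f i u = f i v := by
      intro i j hi hj hij he
      subst hij
      exact Fin.castLE_injective _ he
    exact h4 (c u) (c v) _ _ h1 h2
  exact hf (c u) u ⟨hu, rfl⟩ v ⟨hv, h1.symm⟩ huv h3

lemma Sm.union {A B : Set V} (hA : Sm G A) (hB : Sm G B) : Sm G (A ∪ B) := by
  classical
  refine Sm.of_class (ι := Bool) (fun v => decide (v ∈ A)) ?_
  intro i
  cases i with
  | true => exact hA.mono fun v hv => by simpa using hv.2
  | false =>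
    refine hB.mono fun v hv => ?_
    have h1 : v ∉ A := by simpa using hv.2
    exact hv.1.resolve_left h1

/-- Finite unions. -/
lemma Sm.iUnion {ι : Type} [Finite ι] {A : ι → Set V} (h : ∀ i, Sm G (A i)) :
    Sm G (⋃ i, A i) := by
  classical
  by_cases hι : IsEmpty ι
  · rw [Set.iUnion_of_empty]
    exact Sm.empty
  rw [not_isEmpty_iff] at hι
  have hc : ∀ v, ∃ i, v ∈ ⋃ i, A i → v ∈ A i := by
    intro v
    by_cases hv : v ∈ ⋃ i, A i
    · obtain ⟨i, hi⟩ := Set.mem_iUnion.mp hv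
      exact ⟨i, fun _ => hi⟩
    · exact ⟨Classical.arbitrary ι, fun h => absurd h hv⟩
  choose c hc using hc
  refine Sm.of_class c fun i => (h i).mono ?_
  rintro v ⟨hv, rfl⟩
  exact hc v hv

lemma Sm.stable {A : Set V} (h : ∀ u ∈ A, ∀ v ∈ A, ¬ G.Adj u v) : Sm G A :=
  Sm.of_col (ι := Unit) (fun _ => ()) fun u hu v hv huv => absurd huv (h u hu v hv)

/-- A big set minus a small set is big. -/
lemma big_diff {A B : Set V} (hA : ¬ Sm G A) (hB : Sm G B) : ¬ Sm G (A \ B) := by
  intro h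
  refine hA ((h.union hB).mono ?_)
  intro v hv
  by_cases h1 : v ∈ B
  · exact Or.inr h1
  · exact Or.inl ⟨hv, h1⟩

lemma big_nonempty {A : Set V} (hA : ¬ Sm G A) : A.Nonempty := by
  by_contra h
  rw [Set.not_nonempty_iff_eq_empty] at h
  exact hA (h ▸ Sm.empty)

/-- Pigeonhole: some class of a finite partition of a big set is big. -/
lemma exists_big_class {A : Set V} {ι : Type} [Finite ι] (c : V → ι) (hA : ¬ Sm G A) :
    ∃ i, ¬ Sm G {v | v ∈ A ∧ c v = i} := by
  by_contra h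
  push Not at h
  exact hA (Sm.of_class c h)

/-! ### Words -/

lemma wv_append (D : Chn V) (w w' : List (ℕ × ℕ)) (v : V) :
    wv D (w ++ w') v = wv D w' (wv D w v) := by
  induction w generalizing v with
  | nil => rfl
  | cons x w ih => exact ih _

lemma Wd.mono {M n n' : ℕ} {w : List (ℕ × ℕ)} (h : n ≤ n') (hw : Wd M n w) : Wd M n' w := by
  cases w with
  | nil => trivial
  | cons x w => exact ⟨lt_of_lt_of_le hw.1 h, hw.2.1, hw.2.2⟩

lemma Lst.cons {x : ℕ × ℕ} {w : List (ℕ × ℕ)} {b : ℕ} (hw : w ≠ []) :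
    Lst (x :: w) b ↔ Lst w b := by
  cases w with
  | nil => exact absurd rfl hw
  | cons y w => rw [Lst, Lst, List.getLast?_cons_cons]

lemma Lst.ne {w : List (ℕ × ℕ)} {b : ℕ} (h : Lst w b) : w ≠ [] := by
  rintro rfl
  simp [Lst] at h

lemma lst_single (a i b : ℕ) : Lst [(a, i)] b ↔ a = b := by
  simp [Lst]

lemma Lst.lt {M n b : ℕ} {w : List (ℕ × ℕ)} (hw : Wd M n w) (h : Lst w b) : b < n := by
  induction w generalizing n with
  | nil => exact absurd rfl h.ne
  | cons x w ih =>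
    by_cases hw' : w = []
    · subst hw'
      have h1 : x.1 = b := (lst_single x.1 x.2 b).mp h
      rw [← h1]
      exact hw.1
    · exact lt_trans (ih hw.2.2 ((Lst.cons hw').mp h)) hw.1

lemma Good.le {M N : ℕ} {D : Chn V} (hG : Good G M N D) {m n : ℕ} (hmn : m ≤ n) (hn : n ≤ N) :
    D.W n ⊆ D.W m := by
  induction n, hmn using Nat.le_induction with
  | base => exact le_rfl
  | succ n hmn ih => exact (hG.anti n (by omega)).trans (ih (by omega))

lemma Good.nonempty {M N : ℕ} {D : Chn V} (hG : Good G M N D) {n : ℕ} (hn : n ≤ N) :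
    (D.W n).Nonempty := big_nonempty (hG.big n hn)

/-- The value of a nonempty word lies in the hub set of its last level. -/
lemma Good.wv_mem {M N : ℕ} {D : Chn V} (hG : Good G M N D) {n b : ℕ} (hn : n ≤ N)
    {w : List (ℕ × ℕ)} (hw : Wd M n w) (hb : Lst w b) {v : V} (hv : v ∈ D.W n) :
    wv D w v ∈ D.S b := by
  induction w generalizing n v with
  | nil => exact absurd rfl hb.ne
  | cons x w ih =>
    have h1 : x.1 < N := lt_of_lt_of_le hw.1 hn
    have h2 : D.nb x.1 x.2 v ∈ D.S x.1 :=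
      hG.mem x.1 h1 v (hG.le hw.1 hn hv) x.2 hw.2.1
    by_cases hw' : w = []
    · subst hw'
      have h3 : x.1 = b := (lst_single x.1 x.2 b).mp hb
      rw [← h3]
      exact h2
    · exact ih (n := x.1) h1.le hw.2.2 ((Lst.cons hw').mp hb) (hG.sub x.1 h1 h2)

/-- Equalities in the last world hold in all worlds. -/
lemma Good.eq_of {M N : ℕ} {D : Chn V} (hG : Good G M N D) {n : ℕ} (hn : n ≤ N)
    {w w' : List (ℕ × ℕ)} (hw : Wd M n w) (hw' : Wd M n w') (h : EqW D N w w') :
    ∀ v ∈ D.W n, wv D w v = wv D w' v := by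
  rcases hG.hom n hn w w' hw hw' with h1 | h1
  · exact h1
  · obtain ⟨v, hv⟩ := hG.nonempty (n := N) le_rfl
    exact absurd (h v hv) (h1 v (hG.le hn le_rfl hv))

lemma Good.eqW_of {M N : ℕ} {D : Chn V} (hG : Good G M N D) {n : ℕ} (hn : n ≤ N)
    {w w' : List (ℕ × ℕ)} (hw : Wd M n w) (hw' : Wd M n w') {v : V} (hv : v ∈ D.W n)
    (h : wv D w v = wv D w' v) : EqW D N w w' := by
  rcases hG.hom n hn w w' hw hw' with h1 | h1
  · exact fun u hu => h1 u (hG.le hn le_rfl hu)
  · exact absurd h (h1 v hv)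

/-- One equality gives all. -/
lemma Good.eq_all {M N : ℕ} {D : Chn V} (hG : Good G M N D) {n m : ℕ} (hn : n ≤ N) (hm : m ≤ N)
    {w w' : List (ℕ × ℕ)} (hw : Wd M n w) (hw' : Wd M n w') (hwm : Wd M m w)
    (hwm' : Wd M m w') {v : V} (hv : v ∈ D.W n) (h : wv D w v = wv D w' v) :
    ∀ u ∈ D.W m, wv D w u = wv D w' u :=
  hG.eq_of hm hwm hwm' (hG.eqW_of hn hw hw' hv h)

/-- Dependences in the last world hold in all worlds. -/
lemma Good.fn_of {M N : ℕ} {D : Chn V} (hG : Good G M N D) {n : ℕ} (hn : n ≤ N)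
    {w w' : List (ℕ × ℕ)} (hw : Wd M n w) (hw' : Wd M n w')
    (h : Fn (D.W N) (wv D w) (wv D w')) : Fn (D.W n) (wv D w) (wv D w') := by
  rcases hG.dep n hn w w' hw hw' with h1 | h1
  · exact h1
  · obtain ⟨F, hF⟩ := h
    have h2 : D.W N ⊆ {v | v ∈ D.W n ∧ wv D w' v = F (wv D w v)} :=
      fun v hv => ⟨hG.le hn le_rfl hv, hF v hv⟩
    exact absurd (Sm.mono h2 (h1 F)) (hG.big N le_rfl)

lemma Fn.mono {A B : Set V} {Z Z' : V → V} (h : A ⊆ B) (hB : Fn B Z Z') : Fn A Z Z' := by
  obtain ⟨F, hF⟩ := hB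
  exact ⟨F, fun v hv => hF v (h hv)⟩

lemma Fn.trans {A : Set V} {Z Z' Z'' : V → V} (h : Fn A Z Z') (h' : Fn A Z' Z'') :
    Fn A Z Z'' := by
  obtain ⟨F, hF⟩ := h
  obtain ⟨F', hF'⟩ := h'
  exact ⟨F' ∘ F, fun v hv => by rw [hF' v hv, hF v hv]; rfl⟩

lemma Fn.not_nFn {A : Set V} {Z Z' : V → V} (hA : ¬ Sm G A) (h : Fn A Z Z') :
    ¬ NFn G A Z Z' := by
  intro h'
  obtain ⟨F, hF⟩ := h
  have h2 : A ⊆ {v | v ∈ A ∧ Z' v = F (Z v)} := fun v hv => ⟨hv, hF v hv⟩
  exact hA (Sm.mono h2 (h' F))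

/-! ### Canonical words -/

lemma cw_ne {b : ℕ} {η : List ℕ} (h : η ≠ []) : cw b η ≠ [] := by
  cases η with
  | nil => exact absurd rfl h
  | cons i η => simp [cw]

lemma lst_cw {b : ℕ} {η : List ℕ} (h : η ≠ []) : Lst (cw b η) b := by
  induction η with
  | nil => exact absurd rfl h
  | cons i η ih =>
    by_cases h' : η = []
    · subst h'
      exact (lst_single _ _ _).mpr (by simp)
    · exact (Lst.cons (cw_ne h')).mpr (ih h')

lemma wd_cw {M n b : ℕ} {η : List ℕ} (h : ∀ i ∈ η, i < M) (hn : b + η.length ≤ n) :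
    Wd M n (cw b η) := by
  induction η generalizing n with
  | nil => trivial
  | cons i η ih =>
    rw [List.length_cons] at hn
    exact ⟨by show b + η.length < n; omega, h i (List.mem_cons_self),
      ih (fun j hj => h j (List.mem_cons_of_mem i hj)) le_rfl⟩

lemma map_cw (b : ℕ) (η : List ℕ) : (cw b η).map Prod.snd = η := by
  induction η with
  | nil => rfl
  | cons i η ih => rw [cw, List.map_cons, ih]

/-! ### Constant sequences -/

lemma Cst.lt {M N : ℕ} {D : Chn V} {η : List ℕ} (h : Cst M N D η) : ∀ i ∈ η, i < M := by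
  induction η with
  | nil => intro i hi; simp at hi
  | cons j η ih =>
    intro i hi
    cases η with
    | nil =>
      have h1 : i = j := by simpa using hi
      rw [h1]
      exact h
    | cons j' η =>
      rcases List.mem_cons.mp hi with h1 | h1
      · rw [h1]
        exact h.1
      · exact ih h.2.2 i h1

lemma Cst.tail {M N : ℕ} {D : Chn V} {i : ℕ} {η : List ℕ} (h : Cst M N D (i :: η)) :
    Cst M N D η := by
  cases η with
  | nil => trivial
  | cons j η => exact h.2.2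

/-- The words `σ ^ m η` are constant if `σ → σ` and `σ → η_1`. -/
lemma Cst.replicate_append {M N : ℕ} {D : Chn V} {σ : ℕ} (hσ : σ < M) (hσσ : Arr D N σ σ)
    (m : ℕ) {η : List ℕ} (hη : Cst M N D η) (h : ∀ j ∈ η.head?, Arr D N σ j) :
    Cst M N D (List.replicate m σ ++ η) := by
  induction m with
  | zero => simpa using hη
  | succ m ih =>
    rw [List.replicate_succ, List.cons_append]
    cases m with
    | zero =>
      rw [List.replicate_zero, List.nil_append]
      cases η with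
      | nil => exact hσ
      | cons j η => exact ⟨hσ, h j (by simp), hη⟩
    | succ m =>
      rw [List.replicate_succ, List.cons_append] at ih ⊢
      exact ⟨hσ, hσσ, ih⟩

lemma Cst.replicate {M N : ℕ} {D : Chn V} {σ : ℕ} (hσ : σ < M) (hσσ : Arr D N σ σ) (m : ℕ) :
    Cst M N D (List.replicate m σ) := by
  have h := Cst.replicate_append hσ hσσ m (η := []) trivial (by simp)
  simpa using h

end Pool.Agent.Lib.ILT
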