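import Pool.Agent.Lib.ILT.Stmts

/-!
# The integral zero-infinity law for all trees: the core theorem
-/

set_option autoImplicit false

namespace Pool.Agent.Lib.ILT

open Pool.Agent.Lib.FracGS (pat)

theorem stCor (hGd : StGd) (hHo : StHo) (hRed : StRed) (hEmb : StEmb) : StCor := by
  intro n0 par hpar k M hM V G hcf hT h1 h2
  by_contra hbig
  set K : ℕ := 4 * ((n0 + 2) * (M + 2)) + 16 + (n0 + 3) ^ (M + 1) with hK
  obtain ⟨N', hN'⟩ := hHo M (4 * K + k) K
  obtain ⟨D, hD⟩ := hGd V G M N' hM hbig h1 h2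
  obtain ⟨D', hG, hH⟩ := hN' V G D hD
  have hsys : Sys G M (4 * K + k) K k D' :=
    ⟨hM, by rw [hK]; omega, le_rfl, hG, hH, hcf⟩
  obtain ⟨κ, σ, hRS⟩ := hRed n0 par hpar V G M (4 * K + k) K k D' hsys (le_of_eq hK.symm) hT
  exact (not_isEmpty_iff.mpr (hEmb par hpar.1 V G M n0 κ σ _ _ _ hRS)) hT

theorem stAll (hSeq : StSeq) (hFor : StFor) : StAll := by
  intro U _ F hF k P hP hPF hU
  obtain ⟨q, n0, hq, ⟨e⟩⟩ := hFor U F hF
  have hpar : Par fun j => (j - 1) / q := by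
    refine ⟨fun j hj => ?_, fun i j hij => ?_⟩
    · exact lt_of_le_of_lt (Nat.div_le_self _ _) (by omega)
    · exact Nat.div_le_div_right (by omega)
  refine hSeq n0 _ hpar k P hP (fun V G hG => ⟨(hPF V G hG).1, ⟨fun f => ?_⟩⟩) hU
  exact (hPF V G hG).2.false (e.trans f)

end Pool.Agent.Lib.ILT
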