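import Pool.Agent.Lib.ILT.Stmts

/-!
# The integral zero-infinity law for all trees: module `Emb`

A reduced system contains all trees.
-/

set_option autoImplicit false

namespace Pool.Agent.Lib.ILT

open Pool.Agent.Lib.FracGS (pat)

namespace Emb

variable {V : Type} {G : SimpleGraph V} {M n0 κ σ : ℕ} {W : Set V} {S : ℕ → Set V}
  {Z : ℕ → ℕ → ℕ → V → V}

lemma rich_sub (i s : ℕ) : Rich G M n0 κ σ W S Z i s ⊆ S s := by
  cases i with
  | zero => exact fun p hp => hp
  | succ i => exact fun p hp => hp.1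

lemma rich_succ (i : ℕ) :
    ∀ s, Rich G M n0 κ σ W S Z (i + 1) s ⊆ Rich G M n0 κ σ W S Z i s := by
  induction i with
  | zero => exact fun s p hp => hp.1
  | succ i ih =>
    intro s p hp
    refine ⟨hp.1, fun c hsc hc Y hY => ?_⟩
    obtain ⟨v, hv, h1, h2, h3⟩ := hp.2 c hsc hc Y hY
    exact ⟨v, hv, h1, ih c h2, h3⟩

lemma rich_mono {i i' : ℕ} (h : i ≤ i') (s : ℕ) :
    Rich G M n0 κ σ W S Z i' s ⊆ Rich G M n0 κ σ W S Z i s := by
  induction i', h using Nat.le_induction with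
  | base => exact le_rfl
  | succ n _ ih => exact (rich_succ n s).trans ih

/-- The induction hypothesis for the nodes `0, …, n - 1`. -/
structure Inv (G : SimpleGraph V) (M n0 κ σ : ℕ) (W : Set V) (S : ℕ → Set V)
    (Z : ℕ → ℕ → ℕ → V → V) (par : ℕ → ℕ) (X : ℕ → V) (n : ℕ) : Prop where
  rich : ∀ t < n, X t ∈ Rich G M n0 κ σ W S Z (n0 - t) t
  imm : ∀ t < n, ∀ i < t, ∀ l < M, ∀ e, e ≤ n0 - t → ∀ F : V → V,
    (∀ v ∈ W, Z (κ - e) l i v = F (Z κ σ t v)) →
    (∀ v ∈ W, Z (κ + 1 - e) l i v = F (Z (κ + 1) σ t v)) → F (X t) ≠ X i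
  adj : ∀ t < n, ∀ i < t, (G.Adj (X t) (X i) ↔ i = par t)

/-- The next node. -/
lemma exists_next (hRS : RS G M n0 κ σ W S Z) {par : ℕ → ℕ} (hpar : ∀ j, 1 ≤ j → par j < j)
    {X : ℕ → V} {j : ℕ} (hj1 : 1 ≤ j) (hj : j ≤ n0) (hX : Inv G M n0 κ σ W S Z par X j) :
    ∃ x : V, x ∈ Rich G M n0 κ σ W S Z (n0 - j) j ∧
      (∀ i < j, ∀ l < M, ∀ e, e ≤ n0 - j → ∀ F : V → V,
        (∀ v ∈ W, Z (κ - e) l i v = F (Z κ σ j v)) →
        (∀ v ∈ W, Z (κ + 1 - e) l i v = F (Z (κ + 1) σ j v)) → F x ≠ X i) ∧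
      ∀ i < j, (G.Adj x (X i) ↔ i = par j) := by
  classical
  have hm := hpar j hj1
  set m := par j with hmdef
  have hr : X m ∈ Rich G M n0 κ σ W S Z ((n0 - j) + 1) m :=
    rich_mono (by omega) m (hX.rich m hm)
  obtain ⟨v, hvW, hv1, hv2, hv3⟩ := hr.2 j hm hj ((Finset.range j).image X)
    (Finset.card_image_le.trans (by rw [Finset.card_range]; exact hj))
  have hXY : ∀ i < j, X i ∈ (Finset.range j).image X := fun i hi =>
    Finset.mem_image_of_mem X (Finset.mem_range.mpr hi)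
  -- labels with exponent `κ + 1 - e`
  have key : ∀ i < j, i ≠ m → ∀ l < M, ∀ e, e ≤ n0 - j + 1 →
      Z (κ + 1 - e) l i v ≠ X i := by
    intro i hi him l hl e he heq
    rcases hRS.dic m (by omega) (κ + 1 - e) (by omega) l hl i (by omega) with hF | hF
    · rcases lt_or_gt_of_ne him with h1 | h1
      · obtain ⟨F, hF1, hF2⟩ := hRS.dn m (by omega) i h1 e (by omega) l hl hF
        refine hX.imm m hm i h1 l hl e (by omega) F hF1 hF2 ?_
        rw [← hv1, ← hF2 v hvW]
        exact heq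
      · exact hRS.up m i (by omega) h1 e (by omega) l hl hF
    · have h2 := hv3 (κ + 1 - e) (by omega) l hl i (by omega) hF
      rw [heq] at h2
      exact h2 (hXY i hi)
  refine ⟨Z κ σ j v, hv2, ?_, ?_⟩
  · intro i hi l hl e he F hF1 hF2 heq
    rw [← hF1 v hvW] at heq
    by_cases him : i = m
    · have h1 := hRS.d1 v hvW e (by omega) m (by omega) l hl
      rw [hv1] at h1
      rw [him] at heq
      exact h1 heq
    · have h1 := key i hi him l hl (e + 1) (by omega)
      rw [Nat.add_sub_add_right] at h1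
      exact h1 heq
  · intro i hi
    have hXi : X i ∈ S i := rich_sub _ _ (hX.rich i hi)
    rw [hRS.nbr j hj i hi v hvW (X i) hXi]
    constructor
    · rintro ⟨l, hl, heq⟩
      by_contra him
      exact key i hi him l hl 0 (Nat.zero_le _) heq.symm
    · intro him
      rw [him]
      exact ⟨σ, hRS.hσ, hv1.symm⟩

lemma exists_nodes (h : StRch) (hRS : RS G M n0 κ σ W S Z) {par : ℕ → ℕ}
    (hpar : ∀ j, 1 ≤ j → par j < j) {n : ℕ} (hn : n ≤ n0 + 1) :
    ∃ X : ℕ → V, Inv G M n0 κ σ W S Z par X n := by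
  classical
  obtain ⟨v0, hv0⟩ := big_nonempty hRS.big
  induction n with
  | zero =>
    exact ⟨fun _ => v0, ⟨fun t ht => absurd ht (Nat.not_lt_zero t),
      fun t ht => absurd ht (Nat.not_lt_zero t), fun t ht => absurd ht (Nat.not_lt_zero t)⟩⟩
  | succ n ih =>
    obtain ⟨X, hX⟩ := ih (by omega)
    have hnext : ∃ x : V, x ∈ Rich G M n0 κ σ W S Z (n0 - n) n ∧
        (∀ i < n, ∀ l < M, ∀ e, e ≤ n0 - n → ∀ F : V → V,
          (∀ v ∈ W, Z (κ - e) l i v = F (Z κ σ n v)) →
          (∀ v ∈ W, Z (κ + 1 - e) l i v = F (Z (κ + 1) σ n v)) → F x ≠ X i) ∧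
        ∀ i < n, (G.Adj x (X i) ↔ i = par n) := by
      rcases Nat.eq_zero_or_pos n with h0 | h0
      · subst h0
        have h1 := (h V G M n0 κ σ W S Z hRS (n0 - 0) 0 (Nat.zero_le _)).1
        have h2 := big_diff hRS.big h1
        obtain ⟨v, hvW, hv⟩ := big_nonempty h2
        refine ⟨Z κ σ 0 v, ?_, fun i hi => absurd hi (Nat.not_lt_zero i),
          fun i hi => absurd hi (Nat.not_lt_zero i)⟩
        by_contra hcon
        exact hv ⟨hvW, hcon⟩
      · exact exists_next hRS hpar h0 (by omega) hX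
    obtain ⟨x, hx1, hx2, hx3⟩ := hnext
    refine ⟨Function.update X n x, ?_, ?_, ?_⟩
    · intro t ht
      rcases Nat.lt_succ_iff_lt_or_eq.mp ht with h1 | h1
      · rw [Function.update_of_ne h1.ne]
        exact hX.rich t h1
      · subst h1
        rw [Function.update_self]
        exact hx1
    · intro t ht i hi l hl e he F hF1 hF2
      rcases Nat.lt_succ_iff_lt_or_eq.mp ht with h1 | h1
      · rw [Function.update_of_ne h1.ne, Function.update_of_ne (hi.trans h1).ne]
        exact hX.imm t h1 i hi l hl e he F hF1 hF2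
      · subst h1
        rw [Function.update_self, Function.update_of_ne hi.ne]
        exact hx2 i hi l hl e he F hF1 hF2
    · intro t ht i hi
      rcases Nat.lt_succ_iff_lt_or_eq.mp ht with h1 | h1
      · rw [Function.update_of_ne h1.ne, Function.update_of_ne (hi.trans h1).ne]
        exact hX.adj t h1 i hi
      · subst h1
        rw [Function.update_self, Function.update_of_ne hi.ne]
        exact hx3 i hi

end Emb

open Emb

/-- Module `Emb`. -/
theorem stEmb (h : StRch) : StEmb := by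
  intro par hpar V G M n0 κ σ W S Z hRS
  obtain ⟨X, hX⟩ := exists_nodes h hRS hpar (n := n0 + 1) le_rfl
  have hS : ∀ t < n0 + 1, X t ∈ S t := fun t ht => rich_sub _ _ (hX.rich t ht)
  have hinj : Function.Injective fun i : Fin (n0 + 1) => X i.1 := by
    intro i j hij
    by_contra hne
    have h1 : i.1 ≠ j.1 := fun h2 => hne (Fin.ext h2)
    have h2 := hRS.dis i.1 (by omega) j.1 (by omega) h1
    have h3 : X i.1 ∈ S j.1 := by
      have h4 : X i.1 = X j.1 := hij
      rw [h4]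
      exact hS j.1 j.2
    exact Set.disjoint_left.mp h2 (hS i.1 i.2) h3
  refine ⟨⟨⟨fun i => X i.1, hinj⟩, ?_⟩⟩
  intro i j
  show G.Adj (X i.1) (X j.1) ↔ (i.1 < j.1 ∧ par j.1 = i.1) ∨ (j.1 < i.1 ∧ par i.1 = j.1)
  rcases lt_trichotomy i.1 j.1 with h1 | h1 | h1
  · rw [G.adj_comm, hX.adj j.1 j.2 i.1 h1]
    constructor
    · intro h2
      exact Or.inl ⟨h1, h2.symm⟩
    · rintro (h2 | h2)
      · exact h2.2.symm
      · exact absurd h2.1 (not_lt.mpr h1.le)
  · rw [h1]
    constructor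
    · intro h2
      exact absurd h2 (G.loopless.irrefl _)
    · rintro (h2 | h2)
      · exact absurd h2.1 (lt_irrefl _)
      · exact absurd h2.1 (lt_irrefl _)
  · rw [hX.adj i.1 i.2 j.1 h1]
    constructor
    · intro h2
      exact Or.inr ⟨h1, h2.symm⟩
    · rintro (h2 | h2)
      · exact absurd h2.1 (not_lt.mpr h1.le)
      · exact h2.2.symm

end Pool.Agent.Lib.ILT
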